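import Pool.Agent.Y693.RF.Tail

/-!
# Summation by parts over primes ordered by norm
-/

set_option autoImplicit false

open Finset NumberField IsDedekindDomain
open Pool.Agent.H921R2.TatePole (nm two_le_nm below deg nm_eq nm_summable fiber_card_le
  summable_primes_rpow card_above below_le_nm)
open Pool.Agent.Y770.EP (finite_quot card_quot FN mem_FN GG mem_GG FP mem_FP card_FP nm_mem Sys SP
  PR mem_PR nm_pos')
open Pool.Agent.Y693.RF

namespace Pool.Agent.Y693.TP

/-- summation by parts -/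
lemma parts (c : ℕ → ℂ) (g : ℕ → ℝ) {y x : ℕ} (hyx : y ≤ x) :
    ∑ n ∈ Ioc y x, c n * g n = (∑ n ∈ Ioc y x, c n) * g x -
      ∑ u ∈ Ico y x, (∑ n ∈ Ioc y u, c n) * ((g (u + 1) - g u : ℝ) : ℂ) := by
  induction x, hyx using Nat.le_induction with
  | base => simp
  | succ x hx ih =>
    rw [← Finset.insert_Ioc_right_eq_Ioc_add_one hx, Finset.sum_insert (by simp), Finset.sum_insert (by simp),
      Finset.sum_Ico_succ_top hx, ih]
    push_cast
    ring

lemma abel (c : ℕ → ℂ) {g : ℕ → ℝ} (hg : Monotone g) (hg0 : ∀ n, 0 ≤ g n) {y x : ℕ} {E : ℝ}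
    (hE : ∀ u, u ≤ x → ‖∑ n ∈ Ioc y u, c n‖ ≤ E) : ‖∑ n ∈ Ioc y x, c n * g n‖ ≤ 2 * E * g x := by
  have hE0 : 0 ≤ E := (norm_nonneg _).trans (hE x le_rfl)
  by_cases hyx : y ≤ x
  · rw [parts c g hyx]
    refine (norm_sub_le _ _).trans ?_
    have h1 : ‖(∑ n ∈ Ioc y x, c n) * (g x : ℂ)‖ ≤ E * g x := by
      rw [norm_mul, Complex.norm_real, Real.norm_of_nonneg (hg0 x)]
      exact mul_le_mul_of_nonneg_right (hE x le_rfl) (hg0 x)
    have h2 : ‖∑ u ∈ Ico y x, (∑ n ∈ Ioc y u, c n) * ((g (u + 1) - g u : ℝ) : ℂ)‖ ≤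
        ∑ u ∈ Ico y x, E * (g (u + 1) - g u) := by
      refine (norm_sum_le _ _).trans (Finset.sum_le_sum fun u hu => ?_)
      have h3 : 0 ≤ g (u + 1) - g u := sub_nonneg.2 (hg (Nat.le_succ u))
      rw [norm_mul, Complex.norm_real, Real.norm_of_nonneg h3]
      exact mul_le_mul_of_nonneg_right (hE u (Finset.mem_Ico.1 hu).2.le) h3
    rw [← Finset.mul_sum, Finset.sum_Ico_sub g hyx] at h2
    have h4 := hg0 y
    nlinarith [mul_nonneg hE0 h4]
  · rw [Finset.Ioc_eq_empty (by omega), Finset.sum_empty, norm_zero]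
    exact mul_nonneg (by linarith) (hg0 x)

variable {M : Type} [Field M] [NumberField M]

open Classical in
lemma sum_GG (h : HeightOneSpectrum (𝓞 M) → ℂ) (y x : ℕ) :
    ∑ w ∈ GG M y x, h w = ∑ n ∈ Ioc y x, ∑ w ∈ FP M n, h w := by
  rw [← Finset.sum_fiberwise_of_maps_to (s := GG M y x) (t := Ioc y x) (g := fun w => nm w)
    (fun w hw => by rw [mem_GG] at hw; exact Finset.mem_Ioc.2 hw)]
  refine Finset.sum_congr rfl fun n hn => Finset.sum_congr ?_ fun _ _ => rfl
  ext w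
  rw [mem_filter, mem_GG, mem_FP]
  rw [Finset.mem_Ioc] at hn
  constructor
  · exact fun h => h.2
  · intro h
    rw [h]
    exact ⟨hn, rfl⟩

/-- the weights -/
noncomputable def gw (z : ℝ) (n : ℕ) : ℝ := (n : ℝ) ^ z * Real.log n

lemma gw_nonneg (z : ℝ) (n : ℕ) : 0 ≤ gw z n :=
  mul_nonneg (Real.rpow_nonneg (Nat.cast_nonneg n) z) (Real.log_natCast_nonneg n)

lemma gw_mono {z : ℝ} (hz : 0 ≤ z) : Monotone (gw z) := by
  intro m n hmn
  unfold gw
  have h1 : (m : ℝ) ≤ n := by exact_mod_cast hmn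
  refine mul_le_mul (Real.rpow_le_rpow (Nat.cast_nonneg m) h1 hz) ?_ (Real.log_natCast_nonneg m)
    (Real.rpow_nonneg (Nat.cast_nonneg n) z)
  rcases Nat.eq_zero_or_pos m with h0 | h0
  · rw [h0, Nat.cast_zero, Real.log_zero]
    exact Real.log_natCast_nonneg n
  · exact Real.log_le_log (by exact_mod_cast h0) h1

/-- **Sums with weights `log` from sums with weights `N(w)^(-z)`.** -/
theorem taub {τ : HeightOneSpectrum (𝓞 M) → ℂ} {y x : ℕ} {z : ℝ} (hz : 0 ≤ z) {E : ℝ}
    (hE : ∀ u : ℕ, u ≤ x → ‖∑ w ∈ GG M y u, τ w * (nm w : ℂ) ^ (-(z : ℂ))‖ ≤ E) :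
    ‖∑ w ∈ GG M y x, τ w * Real.log (nm w)‖ ≤ 2 * E * gw z x := by
  have h1 : ∑ w ∈ GG M y x, τ w * (Real.log (nm w) : ℂ) =
      ∑ n ∈ Ioc y x, (∑ w ∈ FP M n, τ w * (nm w : ℂ) ^ (-(z : ℂ))) * (gw z n : ℂ) := by
    rw [sum_GG]
    refine Finset.sum_congr rfl fun n hn => ?_
    rw [Finset.sum_mul]
    refine Finset.sum_congr rfl fun w hw => ?_
    rw [mem_FP] at hw
    have hw2 := two_le_nm w
    have h0 : (nm w : ℂ) ≠ 0 := by exact_mod_cast (by omega : nm w ≠ 0)
    unfold gw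
    rw [← hw, mul_assoc]
    congr 1
    push_cast
    rw [Complex.ofReal_cpow (Nat.cast_nonneg _), Complex.ofReal_natCast, ← mul_assoc,
      ← Complex.cpow_add _ _ h0, neg_add_cancel, Complex.cpow_zero, one_mul]
  rw [h1]
  refine abel _ (gw_mono hz) (gw_nonneg z) fun u hu => ?_
  rw [← sum_GG]
  exact hE u hu

/-- the number of primes of small norm -/
lemma card_FN_le (y : ℕ) : ((FN M y).card : ℝ) ≤ Module.finrank ℚ M * y := by
  classical
  have h1 : ((FN M y).card : ℕ) ≤ ∑ p ∈ (FN M y).image below, Module.finrank ℚ M := by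
    rw [Finset.card_eq_sum_card_image below (FN M y)]
    refine Finset.sum_le_sum fun p _ => ?_
    exact card_above p _ fun v hv => (mem_filter.1 hv).2
  rw [Finset.sum_const, smul_eq_mul] at h1
  have h2 : ((FN M y).image below).card ≤ y := by
    calc ((FN M y).image below).card = (((FN M y).image below).image fun p : Nat.Primes => (p : ℕ)).card :=
          (Finset.card_image_of_injective _ Subtype.val_injective).symm
      _ ≤ (Finset.Icc 1 y).card := by
          refine card_le_card fun n hn => ?_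
          obtain ⟨p, hp, rfl⟩ := mem_image.1 hn
          obtain ⟨w, hw, rfl⟩ := mem_image.1 hp
          rw [mem_FN] at hw
          exact Finset.mem_Icc.2 ⟨(below w).prop.one_lt.le, (below_le_nm w).trans hw⟩
      _ = y := by simp
  have h3 : (FN M y).card ≤ y * Module.finrank ℚ M := h1.trans (Nat.mul_le_mul_right _ h2)
  rw [mul_comm]
  exact_mod_cast h3

/-- the whole sum -/
theorem taub_all {τ : HeightOneSpectrum (𝓞 M) → ℂ} {C₀ : ℝ} (hC : 0 ≤ C₀) (hτ : ∀ w, ‖τ w‖ ≤ C₀) {y x : ℕ}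
    (hyx : y ≤ x) {z : ℝ} (hz : 0 ≤ z) {E : ℝ}
    (hE : ∀ u : ℕ, u ≤ x → ‖∑ w ∈ GG M y u, τ w * (nm w : ℂ) ^ (-(z : ℂ))‖ ≤ E) :
    ‖∑ w ∈ FN M x, τ w * Real.log (nm w)‖ ≤
      C₀ * (Module.finrank ℚ M * y) * Real.log y + 2 * E * gw z x := by
  classical
  have e1 : FN M x = FN M y ∪ GG M y x := by
    ext v
    simp only [mem_union, mem_GG, mem_FN]
    omega
  have e2 : Disjoint (FN M y) (GG M y x) := by
    rw [Finset.disjoint_left]
    intro v hv hv'
    simp only [mem_GG, mem_FN] at hv hv'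
    omega
  rw [e1, Finset.sum_union e2]
  refine (norm_add_le _ _).trans (add_le_add ?_ (taub hz hE))
  refine (norm_sum_le _ _).trans ?_
  refine (Finset.sum_le_card_nsmul _ _ (C₀ * Real.log y) fun w hw => ?_).trans ?_
  · rw [mem_FN] at hw
    have hw2 := two_le_nm w
    have h0 : (0 : ℝ) < nm w := by exact_mod_cast (by omega : 0 < nm w)
    rw [norm_mul, Complex.norm_real, Real.norm_of_nonneg (Real.log_natCast_nonneg _)]
    exact mul_le_mul (hτ w) (Real.log_le_log h0 (by exact_mod_cast hw)) (Real.log_natCast_nonneg _) hC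
  · rw [nsmul_eq_mul]
    have h1 := card_FN_le (M := M) y
    have h2 : 0 ≤ C₀ * Real.log y := mul_nonneg hC (Real.log_natCast_nonneg _)
    calc ((FN M y).card : ℝ) * (C₀ * Real.log y) ≤ (Module.finrank ℚ M * y) * (C₀ * Real.log y) :=
          mul_le_mul_of_nonneg_right h1 h2
      _ = _ := by ring

end Pool.Agent.Y693.TP
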