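import Pool.Agent.Y693.TP.Cg
import Pool.Agent.Y693.RF.ThmB

/-!
# The truncated Tauberian sums over random number fields
-/

set_option autoImplicit false

open Finset NumberField IsDedekindDomain Polynomial Filter
open Pool.Agent.H921R2.TatePole (nm two_le_nm below deg nm_eq nm_summable fiber_card_le
  summable_primes_rpow card_above below_le_nm)
open Pool.Agent.Y770.EP (finite_quot card_quot FN mem_FN GG mem_GG FP mem_FP card_FP nm_mem Sys SP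
  PR mem_PR nm_pos' Good pts tv tv_congr GD tv_bad coprime_notMem norm_sum_γ ev_rpow ev_log)
open Pool.Agent.Y693.RF

namespace Pool.Agent.Y693.TP

variable {F : Type} [Field F] [NumberField F] {r N : ℕ}

open Classical in
/-- the pairs of isomorphic factors -/
noncomputable def eqp (a b : Fin r → 𝓞 F) : Finset (Fin r × Fin r) :=
  (prs r).filter fun x => a x.1 ^ 3 = a x.2 ^ 3 ∧ b x.1 = b x.2

open Classical in
/-- the obstruction of a pair -/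
noncomputable def ee (a b : Fin r → 𝓞 F) (x : Fin r × Fin r) : 𝓞 F :=
  if b x.1 - b x.2 ≠ 0 then b x.1 - b x.2 else
    if a x.1 ^ 3 - a x.2 ^ 3 ≠ 0 then a x.1 ^ 3 - a x.2 ^ 3 else 1

lemma ee_ne (a b : Fin r → 𝓞 F) (x : Fin r × Fin r) : ee a b x ≠ 0 := by
  unfold ee
  split_ifs with h1 h2
  · exact h1
  · exact h2
  · exact one_ne_zero

lemma ee_le {a b : Fin r → 𝓞 F} {H : ℝ} (hH : 2 ≤ H) (ha : ∀ i, ∀ σ : F →+* ℂ, ‖σ (a i : F)‖ ≤ H)
    (hb : ∀ i, ∀ σ : F →+* ℂ, ‖σ (b i : F)‖ ≤ H) (x : Fin r × Fin r) (σ : F →+* ℂ) :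
    ‖σ (ee a b x : F)‖ ≤ H ^ 4 := by
  have h2 : 2 * H ≤ H ^ 4 := by
    have : H * 2 ≤ H * H ^ 3 := by
      refine mul_le_mul_of_nonneg_left ?_ (by linarith)
      calc (2 : ℝ) ≤ H ^ 1 := by rw [pow_one]; exact hH
        _ ≤ H ^ 3 := pow_le_pow_right₀ (by linarith) (by norm_num)
    calc 2 * H = H * 2 := mul_comm _ _
      _ ≤ H * H ^ 3 := this
      _ = H ^ 4 := by ring
  have h3 : 2 * H ^ 3 ≤ H ^ 4 := by
    calc 2 * H ^ 3 ≤ H * H ^ 3 := mul_le_mul_of_nonneg_right hH (by positivity)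
      _ = H ^ 4 := by ring
  unfold ee
  split_ifs
  · have e : ((b x.1 - b x.2 : 𝓞 F) : F) = (b x.1 : F) - (b x.2 : F) := map_sub (algebraMap (𝓞 F) F) _ _
    rw [e, map_sub]
    refine (norm_sub_le _ _).trans ?_
    linarith [hb x.1 σ, hb x.2 σ]
  · have e : ((a x.1 ^ 3 - a x.2 ^ 3 : 𝓞 F) : F) = (a x.1 : F) ^ 3 - (a x.2 : F) ^ 3 := by
      have h5 := map_sub (algebraMap (𝓞 F) F) (a x.1 ^ 3) (a x.2 ^ 3)
      rw [map_pow, map_pow] at h5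
      exact h5
    rw [e, map_sub, map_pow, map_pow]
    refine (norm_sub_le _ _).trans ?_
    rw [norm_pow, norm_pow]
    have h5 := pow_le_pow_left₀ (norm_nonneg _) (ha x.1 σ) 3
    have h6 := pow_le_pow_left₀ (norm_nonneg _) (ha x.2 σ) 3
    linarith
  · have e : ((1 : 𝓞 F) : F) = 1 := map_one (algebraMap (𝓞 F) F)
    rw [e, map_one, norm_one]
    exact one_le_pow₀ (by linarith)

/-- the obstruction -/
noncomputable def eo (a b : Fin r → 𝓞 F) : 𝓞 F := (∏ i, a i) * ∏ x ∈ prs r, ee a b x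

lemma eo_ne {a : Fin r → 𝓞 F} (b : Fin r → 𝓞 F) (ha : ∀ i, a i ≠ 0) : eo a b ≠ 0 :=
  mul_ne_zero (Finset.prod_ne_zero_iff.2 fun i _ => ha i)
    (Finset.prod_ne_zero_iff.2 fun x _ => ee_ne a b x)

lemma eo_le {a b : Fin r → 𝓞 F} {H : ℝ} (hH : 2 ≤ H) (ha : ∀ i, ∀ σ : F →+* ℂ, ‖σ (a i : F)‖ ≤ H)
    (hb : ∀ i, ∀ σ : F →+* ℂ, ‖σ (b i : F)‖ ≤ H) (σ : F →+* ℂ) :
    ‖σ (eo a b : F)‖ ≤ H ^ (r + 4 * r ^ 2) := by
  have hH1 : 1 ≤ H := by linarith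
  have e : ((eo a b : 𝓞 F) : F) = (∏ i, (a i : F)) * ∏ x ∈ prs r, (ee a b x : F) := by
    have h5 := map_mul (algebraMap (𝓞 F) F) (∏ i, a i) (∏ x ∈ prs r, ee a b x)
    rw [map_prod, map_prod] at h5
    exact h5
  rw [e, map_mul, map_prod, map_prod, norm_mul, norm_prod, norm_prod]
  have h1 : ∏ i, ‖σ (a i : F)‖ ≤ H ^ r := by
    refine (Finset.prod_le_prod (fun i _ => norm_nonneg _) fun i _ => ha i σ).trans (le_of_eq ?_)
    rw [Finset.prod_const, card_univ, Fintype.card_fin]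
  have h2 : ∏ x ∈ prs r, ‖σ (ee a b x : F)‖ ≤ H ^ (4 * r ^ 2) := by
    refine (Finset.prod_le_prod (fun x _ => norm_nonneg _) fun x _ => ee_le hH ha hb x σ).trans ?_
    rw [Finset.prod_const, ← pow_mul]
    exact pow_le_pow_right₀ hH1 (Nat.mul_le_mul_left 4 (card_prs r))
  rw [pow_add]
  exact mul_le_mul h1 h2 (by positivity) (by positivity)

/-- the mean values, in the form needed -/
lemma mh_cg {a b : Fin r → 𝓞 F} {γ₀ γ₁ γ₂ : Ideal (𝓞 F) → Fin N → ℂ}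
    (h₀ : ∀ w j, ‖γ₀ w j‖ ≤ 1) (h₁ : ∀ w j, ‖γ₁ w j‖ ≤ 1) (h₂ : ∀ w j, ‖γ₂ w j‖ ≤ 1)
    (ha0 : ∀ i, a i ≠ 0) {R : ℝ} (hR : ∀ σ : F →+* ℂ, ‖σ (eo a b : F)‖ ≤ R) :
    MH R (CD r N) (fun v j => cg a (fun i => b i + ((j : ℕ) : 𝓞 F)) (fun v => γ₀ v.asIdeal)
      (fun v => γ₁ v.asIdeal) (fun v => γ₂ v.asIdeal) v)
      (hh (r + (eqp a b).card) (fun v => γ₀ v.asIdeal) (fun v => γ₂ v.asIdeal)) := by
  classical
  refine ⟨eo a b, eo_ne b ha0, hR, fun v hp h3 hv => ?_⟩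
  have hv1 : ∀ i, a i ∉ v.asIdeal := by
    intro i hi
    apply hv
    unfold eo
    exact v.asIdeal.mul_mem_right _ (Ideal.mem_of_dvd _ (Finset.dvd_prod_of_mem _ (mem_univ i)) hi)
  have hv2 : ∀ x ∈ prs r, ee a b x ∉ v.asIdeal := by
    intro x hx hi
    apply hv
    unfold eo
    exact v.asIdeal.mul_mem_left _ (Ideal.mem_of_dvd _ (Finset.dvd_prod_of_mem _ hx) hi)
  refine mean_cg (fun w j => h₀ _ j) (fun w j => h₁ _ j) (fun w j => h₂ _ j) (S := eqp a b)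
    (filter_subset _ _) hp rfl h3 hv1 (fun x hx => ?_) (fun x hx hxS hcon => ?_)
  · unfold eqp at hx
    exact (mem_filter.1 hx).2
  · apply hv2 x hx
    unfold ee
    split_ifs with h5 h6
    · exact hcon.2
    · exact hcon.1
    · exfalso
      apply hxS
      unfold eqp
      rw [mem_filter]
      exact ⟨hx, sub_eq_zero.1 (not_not.1 h6), sub_eq_zero.1 (not_not.1 h5)⟩

/-- the final inequality -/
lemma final_ineq {C δ : ℝ} (hC : 0 ≤ C) (hδ : 0 < δ) : ∃ T₀ : ℕ, 16 ≤ T₀ ∧ ∀ T : ℕ, T₀ ≤ T →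
    ∀ y : ℕ, (y : ℝ) ≤ (T : ℝ) ^ (1 / 4 : ℝ) →
      C * y * Real.log y + 2 * 1 * gw (1 / 2 + δ / 2) T ≤ (T : ℝ) ^ (1 / 2 + δ) := by
  have e1 : ∀ᶠ x : ℝ in atTop, Real.log x ≤ x ^ (δ / 4) := by
    have h := (isLittleO_log_rpow_atTop (show 0 < δ / 4 by positivity)).bound (show (0 : ℝ) < 1 by norm_num)
    filter_upwards [h, eventually_ge_atTop 1] with x hx hx1
    rw [one_mul, Real.norm_of_nonneg (Real.log_nonneg hx1), Real.norm_of_nonneg (by positivity)] at hx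
    exact hx
  have e2 : ∀ᶠ x : ℝ in atTop, C + 2 ≤ x ^ (δ / 4) :=
    (tendsto_rpow_atTop (show 0 < δ / 4 by positivity)).eventually_ge_atTop _
  obtain ⟨T1, hT1⟩ := eventually_atTop.1 (tendsto_natCast_atTop_atTop.eventually (e1.and e2))
  refine ⟨max T1 16, le_max_right _ _, fun T hT y hy => ?_⟩
  obtain ⟨h1, h2⟩ := hT1 T ((le_max_left _ _).trans hT)
  have hT16 : (16 : ℝ) ≤ T := by exact_mod_cast (le_max_right T1 16).trans hT
  have hT0 : (0 : ℝ) < T := by linarith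
  have hT1' : (1 : ℝ) ≤ T := by linarith
  have h3 : (y : ℝ) * Real.log y ≤ (T : ℝ) ^ (1 / 2 : ℝ) := by
    have h4 : Real.log y ≤ y := by
      rcases Nat.eq_zero_or_pos y with h0 | h0
      · rw [h0, Nat.cast_zero, Real.log_zero]
      · have := Real.log_le_sub_one_of_pos (show (0 : ℝ) < y by exact_mod_cast h0)
        linarith
    calc (y : ℝ) * Real.log y ≤ y * y := mul_le_mul_of_nonneg_left h4 (Nat.cast_nonneg y)
      _ ≤ (T : ℝ) ^ (1 / 4 : ℝ) * (T : ℝ) ^ (1 / 4 : ℝ) :=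
          mul_le_mul hy hy (Nat.cast_nonneg y) (by positivity)
      _ = (T : ℝ) ^ (1 / 2 : ℝ) := by rw [← Real.rpow_add hT0]; norm_num
  have h5 : gw (1 / 2 + δ / 2) T ≤ (T : ℝ) ^ (1 / 2 + 3 * δ / 4) := by
    unfold gw
    calc (T : ℝ) ^ (1 / 2 + δ / 2) * Real.log T ≤ (T : ℝ) ^ (1 / 2 + δ / 2) * (T : ℝ) ^ (δ / 4) :=
          mul_le_mul_of_nonneg_left h1 (by positivity)
      _ = (T : ℝ) ^ (1 / 2 + 3 * δ / 4) := by rw [← Real.rpow_add hT0]; congr 1; ring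
  have h6 : (T : ℝ) ^ (1 / 2 : ℝ) ≤ (T : ℝ) ^ (1 / 2 + 3 * δ / 4) :=
    Real.rpow_le_rpow_of_exponent_le hT1' (by linarith)
  calc C * y * Real.log y + 2 * 1 * gw (1 / 2 + δ / 2) T
      = C * (y * Real.log y) + 2 * gw (1 / 2 + δ / 2) T := by ring
    _ ≤ C * (T : ℝ) ^ (1 / 2 + 3 * δ / 4) + 2 * (T : ℝ) ^ (1 / 2 + 3 * δ / 4) :=
        add_le_add (mul_le_mul_of_nonneg_left (h3.trans h6) hC) (by linarith)
    _ = (C + 2) * (T : ℝ) ^ (1 / 2 + 3 * δ / 4) := by ring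
    _ ≤ (T : ℝ) ^ (δ / 4) * (T : ℝ) ^ (1 / 2 + 3 * δ / 4) :=
        mul_le_mul_of_nonneg_right h2 (by positivity)
    _ = (T : ℝ) ^ (1 / 2 + δ) := by rw [← Real.rpow_add hT0]; congr 1; ring

/-- the bound for one `k` and one field `L` -/
def Bd (δ c : ℝ) (X : ℕ) (a b : Fin r → 𝓞 F) (γ₀ γ₁ γ₂ : Ideal (𝓞 F) → Fin N → ℂ) (L : Type)
    [Field L] [NumberField L] [Algebra F L] (θ : 𝓞 L) : Prop :=
  ∀ T : ℕ, (Real.log X) ^ (1 / c) ≤ T → (T : ℝ) ≤ (X : ℝ) ^ c →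
    ‖∑ w ∈ FN L T, cg (fun i => algebraMap (𝓞 F) (𝓞 L) (a i))
        (fun i => algebraMap (𝓞 F) (𝓞 L) (b i) + θ) (bc L γ₀) (bc L γ₁) (bc L γ₂) w *
          Real.log (nm w) -
      ∑ v ∈ FN F T, hh (r + (eqp a b).card) (fun v => γ₀ v.asIdeal) (fun v => γ₂ v.asIdeal) v *
        Real.log (nm v)‖ ≤ (T : ℝ) ^ (1 / 2 + δ)

/-- **The truncated Tauberian sums over random number fields.** -/
theorem thmT (d n r N : ℕ) (hn : 0 < n) (B δ : ℝ) (hδ : 0 < δ) :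
    ∃ c : ℝ, 0 < c ∧ ∃ X₀ : ℕ, ∀ X : ℕ, X₀ ≤ X →
      ∀ (F : Type) [Field F] [NumberField F], Module.finrank ℚ F = d →
      ∀ f : Polynomial (𝓞 F), f.Monic → f.natDegree = n →
      (∀ i, ∀ σ : F →+* ℂ, ‖σ (f.coeff i : F)‖ ≤ Real.exp ((Real.log X) ^ B)) →
      ∀ m : ℕ, (m : ℝ) ≤ (X : ℝ) ^ c → ∀ (a b : Fin m → Fin r → 𝓞 F)
        (γ₀ γ₁ γ₂ : Fin m → Ideal (𝓞 F) → Fin N → ℂ),
        (∀ k i, a k i ≠ 0) →
        (∀ k i, ∀ σ : F →+* ℂ, ‖σ (a k i : F)‖ ≤ Real.exp ((Real.log X) ^ B) ∧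
          ‖σ (b k i : F)‖ ≤ Real.exp ((Real.log X) ^ B)) →
        (∀ k v j, ‖γ₀ k v j‖ ≤ 1) → (∀ k v j, ‖γ₁ k v j‖ ≤ 1) → (∀ k v j, ‖γ₂ k v j‖ ≤ 1) →
        ({t : ℤ | |t| ≤ X ∧ ¬ ∀ (L : Type) [Field L] [NumberField L] [Algebra F L] (θ : 𝓞 L),
          Gen (f + C (t : 𝓞 F)) θ → ∀ k,
            Bd δ c X (a k) (b k) (γ₀ k) (γ₁ k) (γ₂ k) L θ}.ncard : ℝ) ≤ (X : ℝ) ^ (1 - c) := by
  classical
  obtain ⟨B1, hB1⟩ : ∃ B1 : ℝ, B1 = max B 1 := ⟨_, rfl⟩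
  have hB11 : 1 ≤ B1 := by rw [hB1]; exact le_max_right _ _
  have hBB : B ≤ B1 := by rw [hB1]; exact le_max_left _ _
  have hC := CD_nonneg r N
  obtain ⟨c₀, hc0, hc8, N₀, hN₀3, hfin⟩ := fin0 d n hn (B1 + 1) (δ / 2) (CD r N) (by positivity) hC
  obtain ⟨T₀, hT₀16, hT₀⟩ := final_ineq (C := CD r N * ((n * d + d : ℕ) : ℝ)) (δ := δ)
    (by positivity) hδ
  have ev : ∀ᶠ X : ℕ in atTop, 4 ≤ Real.log X ∧ ((r + 4 * r ^ 2 : ℕ) : ℝ) ≤ Real.log X ∧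
      (T₀ : ℝ) ≤ Real.log X := by
    have e1 : ∀ᶠ X : ℕ in atTop, (4 + ((r + 4 * r ^ 2 : ℕ) : ℝ) + T₀) ≤ (Real.log X) ^ (1 : ℝ) :=
      ev_log one_pos
    filter_upwards [e1] with X a1
    rw [Real.rpow_one] at a1
    have h1 : (0 : ℝ) ≤ ((r + 4 * r ^ 2 : ℕ) : ℝ) := Nat.cast_nonneg _
    have h2 : (0 : ℝ) ≤ T₀ := Nat.cast_nonneg _
    exact ⟨by linarith, by linarith, by linarith⟩
  obtain ⟨X1, hX1⟩ := eventually_atTop.1 ev
  refine ⟨c₀ / 8, by positivity, max X1 N₀, fun X hX F _ _ hF f hf hfn hcoef m hm a b γ₀ γ₁ γ₂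
    ha0 hab h₀ h₁ h₂ => ?_⟩
  obtain ⟨hL4, hLr, hLT⟩ := hX1 X ((le_max_left _ _).trans hX)
  have hXN : N₀ ≤ X := (le_max_right _ _).trans hX
  have hX3 : 3 ≤ X := hN₀3.trans hXN
  have hX1' : (1 : ℝ) ≤ X := by exact_mod_cast (by omega : 1 ≤ X)
  have hX0 : (0 : ℝ) < X := by linarith
  have hL0 : 0 < Real.log X := by linarith
  have hL1 : 1 ≤ Real.log X := by linarith
  -- heights
  obtain ⟨H, hH⟩ : ∃ H : ℝ, H = Real.exp ((Real.log X) ^ B1) := ⟨_, rfl⟩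
  have hexp : Real.exp ((Real.log X) ^ B) ≤ H := by
    rw [hH, Real.exp_le_exp]
    exact Real.rpow_le_rpow_of_exponent_le hL1 hBB
  have hHR : H ^ (r + 4 * r ^ 2) ≤ Real.exp ((Real.log X) ^ (B1 + 1)) := by
    rw [hH, ← Real.exp_nat_mul, Real.exp_le_exp, Real.rpow_add_one hL0.ne', mul_comm]
    exact mul_le_mul_of_nonneg_left hLr (by positivity)
  have hH2 : 2 ≤ H := by
    have h1 : (1 : ℝ) ≤ (Real.log X) ^ B1 := Real.one_le_rpow hL1 (by linarith)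
    have h2 := Real.add_one_le_exp ((Real.log X) ^ B1)
    rw [hH]
    linarith
  have hHR1 : Real.exp ((Real.log X) ^ B) ≤ Real.exp ((Real.log X) ^ (B1 + 1)) := by
    rw [Real.exp_le_exp]
    exact Real.rpow_le_rpow_of_exponent_le hL1 (by linarith)
  obtain ⟨T, hT⟩ : ∃ T : Fin m → HeightOneSpectrum (𝓞 F) → ℕ → ℂ, T = fun k v j =>
    cg (a k) (fun i => b k i + ((j : ℕ) : 𝓞 F)) (fun v => γ₀ k v.asIdeal)
      (fun v => γ₁ k v.asIdeal) (fun v => γ₂ k v.asIdeal) v := ⟨_, rfl⟩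
  have hTle : ∀ k v j, ‖T k v j‖ ≤ CD r N := by
    intro k v j
    rw [hT]
    exact cg_le _ _ (fun w j => h₀ k _ j) (fun w j => h₁ k _ j) (fun w j => h₂ k _ j) v
  have hXc : (X : ℝ) ^ (c₀ / 8) ≤ (X : ℝ) ^ c₀ := Real.rpow_le_rpow_of_exponent_le hX1' (by linarith)
  have hcount := hfin X hXN F hF.symm f hf hfn (fun i σ => (hcoef i σ).trans hHR1) m (hm.trans hXc)
    T hTle
  refine le_trans ?_ (hcount.trans (Real.rpow_le_rpow_of_exponent_le hX1' (by linarith)))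
  have hfinite : {t : ℤ | |t| ≤ X ∧ ¬ Concl0 F f t (CD r N) (Real.exp ((Real.log X) ^ (B1 + 1)))
      (δ / 2) c₀ X m T}.Finite := by
    refine Set.Finite.subset (Set.finite_Icc (-(X : ℤ)) X) fun t ht => ?_
    have := abs_le.1 ht.1
    exact ⟨this.1, this.2⟩
  have hsub : {t : ℤ | |t| ≤ X ∧ ¬ ∀ (L : Type) [Field L] [NumberField L] [Algebra F L] (θ : 𝓞 L),
          Gen (f + C (t : 𝓞 F)) θ → ∀ k,
            Bd δ (c₀ / 8) X (a k) (b k) (γ₀ k) (γ₁ k) (γ₂ k) L θ} ⊆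
      {t : ℤ | |t| ≤ X ∧ ¬ Concl0 F f t (CD r N) (Real.exp ((Real.log X) ^ (B1 + 1)))
        (δ / 2) c₀ X m T} := by
    rintro t ⟨ht1, ht2⟩
    refine ⟨ht1, fun hcon => ht2 ?_⟩
    intro L _ _ _ θ hθ k x hx1 hx2
    have hfinL : Module.finrank ℚ L = n * d := by
      have h1 := Module.finrank_mul_finrank ℚ F L
      rw [hθ.deg, natDegree_add_C, hfn, hF, mul_comm] at h1
      exact h1.symm
    have hcomp : ∀ w : HeightOneSpectrum (𝓞 L), (nm w).Prime → ∀ j ∈ range (nm w),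
        θ - ((j : ℕ) : 𝓞 L) ∈ w.asIdeal →
        cg (fun i => algebraMap (𝓞 F) (𝓞 L) (a k i))
          (fun i => algebraMap (𝓞 F) (𝓞 L) (b k i) + θ) (bc L (γ₀ k)) (bc L (γ₁ k)) (bc L (γ₂ k)) w =
          T k (und w) j := by
      intro w hw j _ hjw
      rw [hT]
      refine cg_und (γ₀ k) (γ₁ k) (γ₂ k) hw (fun i => ?_) (fun i => ?_)
      · rw [sub_self]
        exact w.asIdeal.zero_mem
      · rw [map_add, map_natCast, add_sub_add_left_eq_sub]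
        exact hjw
    have hMH : MH (Real.exp ((Real.log X) ^ (B1 + 1))) (CD r N) (T k)
        (hh (r + (eqp (a k) (b k)).card) (fun v => γ₀ k v.asIdeal) (fun v => γ₂ k v.asIdeal)) := by
      rw [hT]
      exact mh_cg (h₀ k) (h₁ k) (h₂ k) (ha0 k) fun σ =>
        (eo_le hH2 (fun i σ => (hab k i σ).1.trans hexp) (fun i σ => (hab k i σ).2.trans hexp) σ).trans
          hHR
    have hρ : r + (eqp (a k) (b k)).card ≤ r + r ^ 2 :=
      Nat.add_le_add_left ((card_le_card (filter_subset _ _)).trans (card_prs r)) _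
    have hcgL : ∀ w : HeightOneSpectrum (𝓞 L), ‖cg (fun i => algebraMap (𝓞 F) (𝓞 L) (a k i))
          (fun i => algebraMap (𝓞 F) (𝓞 L) (b k i) + θ) (bc L (γ₀ k)) (bc L (γ₁ k))
            (bc L (γ₂ k)) w‖ ≤ CD r N :=
      cg_le _ _ (bc_le (h₀ k)) (bc_le (h₁ k)) (bc_le (h₂ k))
    have hhF : ∀ v : HeightOneSpectrum (𝓞 F), ‖hh (r + (eqp (a k) (b k)).card)
        (fun v => γ₀ k v.asIdeal) (fun v => γ₂ k v.asIdeal) v‖ ≤ CD r N :=
      hh_le' hρ (fun w j => h₀ k _ j) (fun w j => h₂ k _ j)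
    have key := hcon L θ hθ k _ _ _ _ (ld_lin hC hcgL) (ld_lin hC hhF) hcomp hMH
    -- the choice of `y`
    obtain ⟨y, hy⟩ : ∃ y : ℕ, y = ⌈(Real.log X) ^ (1 / c₀)⌉₊ := ⟨_, rfl⟩
    have hy1 : (Real.log X) ^ (1 / c₀) ≤ y := by rw [hy]; exact Nat.le_ceil _
    have hy2 : (y : ℝ) ≤ (Real.log X) ^ (1 / c₀) + 1 := by
      rw [hy]; exact (Nat.ceil_lt_add_one (by positivity)).le
    have e1 : (Real.log X) ^ (1 / (c₀ / 8)) = ((Real.log X) ^ (1 / c₀)) ^ (8 : ℝ) := by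
      rw [← Real.rpow_mul hL0.le]
      congr 1
      field_simp
    have hq4 : 4 ≤ (Real.log X) ^ (1 / c₀) := by
      calc (4 : ℝ) ≤ Real.log X := hL4
        _ = (Real.log X) ^ (1 : ℝ) := (Real.rpow_one _).symm
        _ ≤ (Real.log X) ^ (1 / c₀) := by
            refine Real.rpow_le_rpow_of_exponent_le hL1 ?_
            rw [le_div_iff₀ hc0]
            linarith
    rw [e1] at hx1
    have hx0 : (0 : ℝ) < x := lt_of_lt_of_le (by positivity) hx1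
    have hyx4 : (y : ℝ) ≤ (x : ℝ) ^ (1 / 4 : ℝ) := by
      have h1 := Real.rpow_le_rpow (by positivity) hx1 (show (0 : ℝ) ≤ 1 / 4 by norm_num)
      rw [← Real.rpow_mul (by positivity)] at h1
      refine le_trans ?_ h1
      rw [show (8 : ℝ) * (1 / 4) = (2 : ℕ) by norm_num, Real.rpow_natCast]
      nlinarith
    have hx1r : (1 : ℝ) ≤ x := by
      refine le_trans ?_ hx1
      exact Real.one_le_rpow (by linarith) (by norm_num)
    have hyx : y ≤ x := by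
      have h1 : (y : ℝ) ≤ x := by
        refine hyx4.trans ?_
        calc (x : ℝ) ^ (1 / 4 : ℝ) ≤ (x : ℝ) ^ (1 : ℝ) :=
              Real.rpow_le_rpow_of_exponent_le hx1r (by norm_num)
          _ = x := Real.rpow_one _
      exact_mod_cast h1
    have hxT : T₀ ≤ x := by
      have h1 : (T₀ : ℝ) ≤ x := by
        refine hLT.trans (le_trans ?_ hx1)
        rw [← Real.rpow_mul hL0.le]
        calc Real.log X = (Real.log X) ^ (1 : ℝ) := (Real.rpow_one _).symm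
          _ ≤ _ := by
            refine Real.rpow_le_rpow_of_exponent_le hL1 ?_
            rw [div_mul_eq_mul_div, le_div_iff₀ hc0]
            linarith
      exact_mod_cast h1
    have hx2' : (x : ℝ) ≤ (X : ℝ) ^ c₀ := hx2.trans hXc
    have hy0 : (1 : ℝ) ≤ y := by linarith
    have hfin2 := taub2 (L := L) (F := F) hC hcgL hhF hyx
      (show (0 : ℝ) ≤ 1 / 2 + δ / 2 by positivity) (E := 1) (fun u hu => by
        have h1 := key ((1 / 2 + δ / 2 : ℝ) : ℂ) (by rw [Complex.ofReal_re])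
          (by rw [Complex.ofReal_im, abs_zero]; positivity) y u hy1
          (le_trans (by exact_mod_cast hu) hx2')
        refine h1.trans ?_
        exact Real.rpow_le_one_of_one_le_of_nonpos hy0 (by linarith))
    rw [hfinL, hF] at hfin2
    refine hfin2.trans ?_
    have h7 := hT₀ x hxT y hyx4
    refine le_trans (le_of_eq ?_) h7
    ring
  exact_mod_cast Set.ncard_le_ncard hsub hfinite

end Pool.Agent.Y693.TP
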