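import Pool.Agent.Y693.TP.Tr

/-!
# The coefficients of the products of curves of the pencils, and their mean values
-/

set_option autoImplicit false

open Finset NumberField IsDedekindDomain Polynomial Filter
open Pool.Agent.H921R2.TatePole (nm two_le_nm below deg nm_eq nm_summable fiber_card_le
  summable_primes_rpow card_above below_le_nm)
open Pool.Agent.Y770.EP (finite_quot card_quot FN mem_FN GG mem_GG FP mem_FP card_FP nm_mem Sys SP
  PR mem_PR nm_pos' Good pts tv tv_congr GD tv_bad coprime_notMem norm_sum_γ)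
open Pool.Agent.Y693.RF

namespace Pool.Agent.Y693.TP

/-- the pairs -/
def prs (r : ℕ) : Finset (Fin r × Fin r) := univ.filter fun x => x.1 < x.2

lemma card_prs (r : ℕ) : (prs r).card ≤ r ^ 2 := by
  refine (card_filter_le _ _).trans ?_
  rw [card_univ, Fintype.card_prod, Fintype.card_fin, sq]

section one
variable {M : Type} [Field M] [NumberField M] {r N : ℕ}

/-- all factors have good reduction -/
def GA (α β : Fin r → 𝓞 M) (w : HeightOneSpectrum (𝓞 M)) : Prop := ∀ i, GD (α i) (β i) w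

/-- the sum over the pairs -/
noncomputable def qd (α β : Fin r → 𝓞 M) (w : HeightOneSpectrum (𝓞 M)) : ℝ :=
  ∑ x ∈ prs r, tv (α x.1) (β x.1) w * tv (α x.2) (β x.2) w

/-- the sum of the traces -/
noncomputable def ln (α β : Fin r → 𝓞 M) (w : HeightOneSpectrum (𝓞 M)) : ℝ :=
  ∑ i, tv (α i) (β i) w

open Classical in
/-- the coefficient -/
noncomputable def cf (ε : ℕ) (α β : Fin r → 𝓞 M) (γ γ' : HeightOneSpectrum (𝓞 M) → Fin N → ℂ)
    (w : HeightOneSpectrum (𝓞 M)) : ℂ :=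
  if GA α β w then ((qd α β w - ε : ℝ) : ℂ) * ∑ j, γ w j + (ln α β w : ℂ) * ∑ j, γ' w j else 0

lemma qd_le {α β : Fin r → 𝓞 M} {w : HeightOneSpectrum (𝓞 M)} (h : ∀ i, |tv (α i) (β i) w| ≤ 2) :
    |qd α β w| ≤ 4 * (r : ℝ) ^ 2 := by
  unfold qd
  refine (Finset.abs_sum_le_sum_abs _ _).trans ?_
  refine (Finset.sum_le_card_nsmul _ _ 4 fun x _ => ?_).trans ?_
  · rw [abs_mul]
    nlinarith [h x.1, h x.2, abs_nonneg (tv (α x.1) (β x.1) w), abs_nonneg (tv (α x.2) (β x.2) w)]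
  · rw [nsmul_eq_mul]
    have : ((prs r).card : ℝ) ≤ (r : ℝ) ^ 2 := by exact_mod_cast card_prs r
    linarith

lemma ln_le {α β : Fin r → 𝓞 M} {w : HeightOneSpectrum (𝓞 M)} (h : ∀ i, |tv (α i) (β i) w| ≤ 2) :
    |ln α β w| ≤ 2 * (r : ℝ) := by
  unfold ln
  refine (Finset.abs_sum_le_sum_abs _ _).trans ?_
  refine (Finset.sum_le_card_nsmul _ _ 2 fun i _ => h i).trans ?_
  rw [nsmul_eq_mul, card_univ, Fintype.card_fin, mul_comm]

lemma qd_sub_le {ε : ℕ} (hε : ε ≤ r ^ 2) {α β : Fin r → 𝓞 M} {w : HeightOneSpectrum (𝓞 M)}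
    (h : ∀ i, |tv (α i) (β i) w| ≤ 2) : |qd α β w - ε| ≤ 5 * (r : ℝ) ^ 2 := by
  have h1 := qd_le h
  have h2 : (ε : ℝ) ≤ (r : ℝ) ^ 2 := by exact_mod_cast hε
  have h3 : (0 : ℝ) ≤ ε := Nat.cast_nonneg _
  rw [abs_le] at h1 ⊢
  constructor <;> linarith [h1.1, h1.2]

/-- the constant -/
noncomputable def CC (r N : ℕ) : ℝ := 43 * ((r : ℝ) + 1) ^ 3 * N

lemma CC_nonneg (r N : ℕ) : 0 ≤ CC r N := by unfold CC; positivity

lemma cf_le {ε : ℕ} (hε : ε ≤ r ^ 2) (α β : Fin r → 𝓞 M)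
    {γ γ' : HeightOneSpectrum (𝓞 M) → Fin N → ℂ} (hγ : ∀ w j, ‖γ w j‖ ≤ 1)
    (hγ' : ∀ w j, ‖γ' w j‖ ≤ 1) (w : HeightOneSpectrum (𝓞 M)) : ‖cf ε α β γ γ' w‖ ≤ CC r N := by
  have hr : (0 : ℝ) ≤ r := Nat.cast_nonneg r
  have hN : (0 : ℝ) ≤ N := Nat.cast_nonneg N
  unfold cf
  split_ifs with h
  · have h1 : ∀ i, |tv (α i) (β i) w| ≤ 2 := fun i => (h i).tv_le
    refine (norm_add_le _ _).trans ?_
    rw [norm_mul, norm_mul, Complex.norm_real, Complex.norm_real]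
    have h2 := mul_le_mul (qd_sub_le hε h1) (norm_sum_γ hγ w) (norm_nonneg _) (by positivity)
    have h3 := mul_le_mul (ln_le h1) (norm_sum_γ hγ' w) (norm_nonneg _) (by positivity)
    refine (add_le_add h2 h3).trans ?_
    unfold CC
    rw [← add_mul]
    refine mul_le_mul_of_nonneg_right ?_ hN
    nlinarith [pow_nonneg hr 2, pow_nonneg hr 3]
  · rw [norm_zero]
    exact CC_nonneg r N

/-- the local data -/
theorem ld_cf {ε : ℕ} (hε : ε ≤ r ^ 2) (α β : Fin r → 𝓞 M)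
    {γ γ' : HeightOneSpectrum (𝓞 M) → Fin N → ℂ} (hγ : ∀ w j, ‖γ w j‖ ≤ 1)
    (hγ' : ∀ w j, ‖γ' w j‖ ≤ 1) :
    LD (CC r N) (cf ε α β γ γ') (fun z w => cf ε α β γ γ' w * (nm w : ℂ) ^ (-z)) := by
  refine ⟨cf_le hε α β hγ hγ', fun z w _ _ => ?_, fun z w _ => ?_⟩
  · rw [sub_self, norm_zero]
    exact mul_nonneg (CC_nonneg r N) (by positivity)
  · rw [norm_mul, norm_cpow]
    exact mul_le_mul_of_nonneg_right (cf_le hε α β hγ hγ' w) (by positivity)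

end one

section two
variable {F : Type} [Field F] [NumberField F] {r N : ℕ}

/-- the mean value of the traces -/
lemma lin_mean (a b : 𝓞 F) {v : HeightOneSpectrum (𝓞 F)} {p : ℕ} (hp : p.Prime) (hv : nm v = p)
    (h3 : 3 < p) : |∑ j ∈ range p, tv a (b + ((j : ℕ) : 𝓞 F)) v| ≤ 6 * √p := by
  have h1 := mean_tv (P := C a) (Q := C b + X) (by rw [natDegree_C]; omega)
    (by
      refine (natDegree_add_le _ _).trans ?_
      rw [natDegree_C, natDegree_X]; omega) hp hv h3 (by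
      rintro ⟨-, -, h, -⟩
      rw [coeff_add, coeff_C_succ, zero_add, coeff_X_one] at h
      exact v.isPrime.ne_top ((Ideal.eq_top_iff_one _).2 h))
  simpa only [eval_C, eval_add, eval_X] using h1

/-- **The mean value of the coefficients.** -/
theorem mean_cf {a b : Fin r → 𝓞 F} {γ γ' : HeightOneSpectrum (𝓞 F) → Fin N → ℂ}
    (hγ : ∀ w j, ‖γ w j‖ ≤ 1) (hγ' : ∀ w j, ‖γ' w j‖ ≤ 1) {S : Finset (Fin r × Fin r)}
    (hS : S ⊆ prs r) {v : HeightOneSpectrum (𝓞 F)} {p : ℕ} (hp : p.Prime) (hv : nm v = p) (h3 : 3 < p)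
    (ha : ∀ i, a i ∉ v.asIdeal) (hs : ∀ x ∈ S, a x.1 ^ 3 = a x.2 ^ 3 ∧ b x.1 = b x.2)
    (hn : ∀ x ∈ prs r, x ∉ S → ¬ (a x.1 ^ 3 - a x.2 ^ 3 ∈ v.asIdeal ∧ b x.1 - b x.2 ∈ v.asIdeal)) :
    ‖mu (fun j => cf S.card a (fun i => b i + ((j : ℕ) : 𝓞 F)) γ γ' v) p‖ ≤
      CC r N * (p : ℝ) ^ (-(1 / 2) : ℝ) := by
  classical
  have hr : (0 : ℝ) ≤ r := Nat.cast_nonneg r
  have hN : (0 : ℝ) ≤ N := Nat.cast_nonneg N
  have hp0 : (0 : ℝ) < p := by exact_mod_cast hp.pos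
  have hsq : 1 ≤ √(p : ℝ) := by
    rw [Real.one_le_sqrt]
    exact_mod_cast hp.one_lt.le
  have hε : S.card ≤ r ^ 2 := (card_le_card hS).trans (card_prs r)
  have h2 : ∀ (j : ℕ) (i : Fin r), |tv (a i) (b i + ((j : ℕ) : 𝓞 F)) v| ≤ 2 := fun j i =>
    tv_two hp hv h3
  obtain ⟨Q, hQ⟩ : ∃ Q : ℕ → ℝ, Q = fun j => qd a (fun i => b i + ((j : ℕ) : 𝓞 F)) v - S.card := ⟨_, rfl⟩
  obtain ⟨Ln, hLn⟩ : ∃ Ln : ℕ → ℝ, Ln = fun j => ln a (fun i => b i + ((j : ℕ) : 𝓞 F)) v := ⟨_, rfl⟩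
  obtain ⟨B, hB⟩ : ∃ B : Finset ℕ, B = (range p).filter
    (fun j : ℕ => ¬ GA a (fun i => b i + ((j : ℕ) : 𝓞 F)) v) := ⟨_, rfl⟩
  have hQb : ∀ j, |Q j| ≤ 5 * (r : ℝ) ^ 2 := fun j => by
    rw [hQ]; exact qd_sub_le hε (h2 j)
  have hLb : ∀ j, |Ln j| ≤ 2 * (r : ℝ) := fun j => by
    rw [hLn]; exact ln_le (h2 j)
  have hBc : (B.card : ℝ) ≤ 2 * r := by
    have h4 : B ⊆ univ.biUnion fun i : Fin r =>
        (range p).filter (fun j : ℕ => ¬ GD (a i) (b i + ((j : ℕ) : 𝓞 F)) v) := by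
      intro j hj
      rw [hB, mem_filter] at hj
      obtain ⟨h5, h6⟩ := hj
      unfold GA at h6
      push Not at h6
      obtain ⟨i, hi⟩ := h6
      exact mem_biUnion.2 ⟨i, mem_univ i, mem_filter.2 ⟨h5, hi⟩⟩
    have h5 : B.card ≤ ∑ i : Fin r, 2 := (card_le_card h4).trans (card_biUnion_le.trans
      (Finset.sum_le_sum fun i _ => card_bad_pencil (a i) (b i) hp hv h3))
    rw [Finset.sum_const, card_univ, Fintype.card_fin, smul_eq_mul] at h5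
    have : (B.card : ℝ) ≤ ((r * 2 : ℕ) : ℝ) := by exact_mod_cast h5
    push_cast at this
    linarith
  have e1 : ∑ j ∈ range p, cf S.card a (fun i => b i + ((j : ℕ) : 𝓞 F)) γ γ' v =
      ((∑ j ∈ range p, Q j - ∑ j ∈ B, Q j : ℝ) : ℂ) * ∑ j, γ v j +
      ((∑ j ∈ range p, Ln j - ∑ j ∈ B, Ln j : ℝ) : ℂ) * ∑ j, γ' v j := by
    have e2 : ∀ g : ℕ → ℝ, ∑ j ∈ range p, g j - ∑ j ∈ B, g j =
        ∑ j ∈ (range p).filter (fun j : ℕ => GA a (fun i => b i + ((j : ℕ) : 𝓞 F)) v), g j := by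
      intro g
      rw [hB, sub_eq_iff_eq_add, Finset.sum_filter_add_sum_filter_not]
    rw [e2, e2]
    push_cast
    rw [Finset.sum_mul, Finset.sum_mul, ← Finset.sum_add_distrib, Finset.sum_filter]
    refine Finset.sum_congr rfl fun j _ => ?_
    unfold cf
    rw [hQ, hLn]
  have h4 : |∑ j ∈ range p, Q j| ≤ 23 * (r : ℝ) ^ 2 * √p := by
    have e3 : ∑ j ∈ range p, Q j = ∑ x ∈ prs r, (∑ j ∈ range p,
        tv (a x.1) (b x.1 + ((j : ℕ) : 𝓞 F)) v * tv (a x.2) (b x.2 + ((j : ℕ) : 𝓞 F)) v -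
          if x ∈ S then (p : ℝ) else 0) := by
      rw [hQ, Finset.sum_sub_distrib, Finset.sum_sub_distrib, Finset.sum_comm]
      congr 1
      · rw [Finset.sum_const, card_range, nsmul_eq_mul, ← Finset.sum_filter]
        have e4 : (prs r).filter (fun x => x ∈ S) = S := by
          ext x
          rw [mem_filter]
          exact ⟨fun h => h.2, fun h => ⟨hS h, h⟩⟩
        rw [e4, Finset.sum_const, nsmul_eq_mul, mul_comm]
    rw [e3]
    refine (Finset.abs_sum_le_sum_abs _ _).trans ?_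
    refine (Finset.sum_le_card_nsmul _ _ (23 * √p) fun x hx => ?_).trans ?_
    · obtain ⟨h5, h6⟩ := pair_mean (a := a x.1) (b := b x.1) (a' := a x.2) (b' := b x.2) hp hv h3
      split_ifs with hxS
      · obtain ⟨h7, h8⟩ := hs x hxS
        refine (h6 ?_ ?_ (ha x.1)).trans (by linarith)
        · rw [h7, sub_self]; exact v.asIdeal.zero_mem
        · rw [h8, sub_self]; exact v.asIdeal.zero_mem
      · rw [sub_zero]
        exact h5 (hn x hx hxS)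
    · rw [nsmul_eq_mul]
      have : ((prs r).card : ℝ) ≤ (r : ℝ) ^ 2 := by exact_mod_cast card_prs r
      nlinarith
  have h5 : |∑ j ∈ range p, Ln j| ≤ 6 * (r : ℝ) * √p := by
    rw [hLn]
    unfold ln
    rw [Finset.sum_comm]
    refine (Finset.abs_sum_le_sum_abs _ _).trans ?_
    refine (Finset.sum_le_card_nsmul _ _ (6 * √p) fun i _ => lin_mean (a i) (b i) hp hv h3).trans ?_
    rw [nsmul_eq_mul, card_univ, Fintype.card_fin]
    linarith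
  have h6 : |∑ j ∈ B, Q j| ≤ 10 * (r : ℝ) ^ 3 := by
    refine (Finset.abs_sum_le_sum_abs _ _).trans ?_
    refine (Finset.sum_le_card_nsmul _ _ (5 * (r : ℝ) ^ 2) fun j _ => hQb j).trans ?_
    rw [nsmul_eq_mul]
    nlinarith [pow_nonneg hr 2]
  have h7 : |∑ j ∈ B, Ln j| ≤ 4 * (r : ℝ) ^ 2 := by
    refine (Finset.abs_sum_le_sum_abs _ _).trans ?_
    refine (Finset.sum_le_card_nsmul _ _ (2 * (r : ℝ)) fun j _ => hLb j).trans ?_
    rw [nsmul_eq_mul]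
    nlinarith
  unfold mu
  rw [norm_div, Complex.norm_natCast, div_le_iff₀ hp0, e1]
  refine (norm_add_le _ _).trans ?_
  rw [norm_mul, norm_mul, Complex.norm_real, Complex.norm_real]
  have h8 : ‖∑ j ∈ range p, Q j - ∑ j ∈ B, Q j‖ ≤ 23 * (r : ℝ) ^ 2 * √p + 10 * (r : ℝ) ^ 3 :=
    (abs_sub _ _).trans (add_le_add h4 h6)
  have h9 : ‖∑ j ∈ range p, Ln j - ∑ j ∈ B, Ln j‖ ≤ 6 * (r : ℝ) * √p + 4 * (r : ℝ) ^ 2 :=
    (abs_sub _ _).trans (add_le_add h5 h7)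
  have h10 := mul_le_mul h8 (norm_sum_γ hγ v) (norm_nonneg _) (by positivity)
  have h11 := mul_le_mul h9 (norm_sum_γ hγ' v) (norm_nonneg _) (by positivity)
  refine (add_le_add h10 h11).trans ?_
  rw [← add_mul]
  have e5 : (p : ℝ) ^ (-(1 / 2) : ℝ) * p = √p := by
    rw [Real.rpow_neg hp0.le, ← Real.sqrt_eq_rpow, inv_mul_eq_div, Real.div_sqrt]
  have e6 : CC r N * (p : ℝ) ^ (-(1 / 2) : ℝ) * p = (43 * ((r : ℝ) + 1) ^ 3 * √p) * N := by
    rw [mul_assoc, e5]; unfold CC; ring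
  rw [e6]
  refine mul_le_mul_of_nonneg_right ?_ hN
  have h12 : 10 * (r : ℝ) ^ 3 ≤ 10 * (r : ℝ) ^ 3 * √p := le_mul_of_one_le_right (by positivity) hsq
  have h13 : 4 * (r : ℝ) ^ 2 ≤ 4 * (r : ℝ) ^ 2 * √p := le_mul_of_one_le_right (by positivity) hsq
  have h14 : (23 * (r : ℝ) ^ 2 + 10 * (r : ℝ) ^ 3 + 6 * r + 4 * (r : ℝ) ^ 2) ≤ 43 * ((r : ℝ) + 1) ^ 3 := by
    nlinarith [pow_nonneg hr 2, pow_nonneg hr 3]
  have h15 := mul_le_mul_of_nonneg_right h14 (by linarith : (0 : ℝ) ≤ √p)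
  linarith

end two

end Pool.Agent.Y693.TP
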