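import Pool.Agent.Y693.RF.Fin

/-!
# Almost all generators: the logarithms
-/

set_option autoImplicit false

open Finset NumberField IsDedekindDomain Polynomial Filter
open Pool.Agent.H921R2.TatePole (nm two_le_nm below deg nm_eq nm_summable fiber_card_le
  summable_primes_rpow card_above below_le_nm)
open Pool.Agent.Y770.EP (finite_quot card_quot FN mem_FN GG mem_GG FP mem_FP card_FP nm_mem Sys SP
  PR mem_PR nm_pos' Good almost_all ev_rpow ev_log norm_exp_sub_one)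
open Pool.Agent.Y693.RF

namespace Pool.Agent.Y693.TP

/-- the sums over the primes of `L` and of `F` are close to each other -/
def R0 {F : Type} [Field F] [NumberField F] {L : Type} [Field L] [NumberField L] (δ c : ℝ) (N : ℕ)
    (ℓL : ℂ → HeightOneSpectrum (𝓞 L) → ℂ) (ℓF : ℂ → HeightOneSpectrum (𝓞 F) → ℂ) : Prop :=
  ∀ z : ℂ, 1 / 2 + δ ≤ z.re → |z.im| ≤ (N : ℝ) ^ c → ∀ y x : ℕ, (Real.log N) ^ (1 / c) ≤ y →
    (x : ℝ) ≤ (N : ℝ) ^ c → ‖∑ w ∈ GG L y x, ℓL z w - ∑ v ∈ GG F y x, ℓF z v‖ ≤ (y : ℝ) ^ (-c)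

/-- the conclusion for one `t` -/
def Concl0 (F : Type) [Field F] [NumberField F] (f : (𝓞 F)[X]) (t : ℤ) (C₀ R δ c : ℝ) (N m : ℕ)
    (T : Fin m → HeightOneSpectrum (𝓞 F) → ℕ → ℂ) : Prop :=
  ∀ (L : Type) [Field L] [NumberField L] [Algebra F L] (θ : 𝓞 L), Gen (f + C (t : 𝓞 F)) θ →
    ∀ (k : Fin m) (τL : HeightOneSpectrum (𝓞 L) → ℂ) (ℓL : ℂ → HeightOneSpectrum (𝓞 L) → ℂ)
      (τF : HeightOneSpectrum (𝓞 F) → ℂ) (ℓF : ℂ → HeightOneSpectrum (𝓞 F) → ℂ),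
      LD C₀ τL ℓL → LD C₀ τF ℓF →
      (∀ w : HeightOneSpectrum (𝓞 L), (nm w).Prime → ∀ j ∈ range (nm w),
        θ - ((j : ℕ) : 𝓞 L) ∈ w.asIdeal → τL w = T k (und w) j) →
      MH R C₀ (T k) τF → R0 δ c N ℓL ℓF

theorem fin0 (g n : ℕ) (hn : 0 < n) (B δ C₀ : ℝ) (hδ : 0 < δ) (hC : 0 ≤ C₀) :
    ∃ c : ℝ, 0 < c ∧ c ≤ 1 / 8000 ∧ ∃ N₀ : ℕ, 3 ≤ N₀ ∧ ∀ N : ℕ, N₀ ≤ N →
      ∀ (F : Type) [Field F] [NumberField F], g = Module.finrank ℚ F →
      ∀ f : (𝓞 F)[X], f.Monic → f.natDegree = n →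
      (∀ i, ∀ σ : F →+* ℂ, ‖σ (f.coeff i : F)‖ ≤ Real.exp ((Real.log N) ^ B)) →
      ∀ m : ℕ, (m : ℝ) ≤ (N : ℝ) ^ c → ∀ T : Fin m → HeightOneSpectrum (𝓞 F) → ℕ → ℂ,
        (∀ k v j, ‖T k v j‖ ≤ C₀) →
        ({t : ℤ | |t| ≤ N ∧ ¬ Concl0 F f t C₀ (Real.exp ((Real.log N) ^ B)) δ c N m T}.ncard : ℝ) ≤
          (N : ℝ) ^ (1 - c) := by
  classical
  obtain ⟨d, hd⟩ : ∃ d : ℝ, d = min δ (1 / 2) := ⟨_, rfl⟩
  have hd0 : 0 < d := by rw [hd]; positivity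
  have hd1 : d ≤ 1 / 2 := by rw [hd]; exact min_le_right _ _
  have hdδ : d ≤ δ := by rw [hd]; exact min_le_left _ _
  obtain ⟨M, hM⟩ : ∃ M : ℝ, M = g * ((n + 1) * C₀) + 1 := ⟨_, rfl⟩
  obtain ⟨T0, hT02, hT0⟩ := almost_all (δ := d) (M := M) hd0 hd1
    (by rw [hM]
        have : (0 : ℝ) ≤ g * ((n + 1) * C₀) := by positivity
        linarith)
  obtain ⟨Z, hZ⟩ : ∃ Z : ℝ, Z = (2 * C₀ * (((n * g : ℕ) : ℝ) * PS d) + 2 * C₀ * (g * PS d) +
        C₀ * (g * PS (d / 2))) + 2 := ⟨_, rfl⟩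
  have hp1 := PS_nonneg d
  have hp2 := PS_nonneg (d / 2)
  have hZ1 : 1 ≤ Z := by
    rw [hZ]
    have : 0 ≤ (2 * C₀ * (((n * g : ℕ) : ℝ) * PS d) + 2 * C₀ * (g * PS d) +
        C₀ * (g * PS (d / 2))) := by positivity
    linarith
  obtain ⟨B1, hB1⟩ : ∃ B1 : ℝ, B1 = max B 1 := ⟨_, rfl⟩
  have hB11 : 1 ≤ B1 := by rw [hB1]; exact le_max_right _ _
  have hBB : B ≤ B1 := by rw [hB1]; exact le_max_left _ _
  obtain ⟨c, hc⟩ : ∃ c : ℝ, c = min (d / 4000) (1 / (4 * (B1 + 1))) := ⟨_, rfl⟩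
  have hc0 : 0 < c := by rw [hc]; positivity
  have hdc : 4000 * c ≤ d := by
    have : c ≤ d / 4000 := by rw [hc]; exact min_le_left _ _
    linarith
  have hcB : B1 + 1 ≤ 1 / (4 * c) := by
    have h1 : c ≤ 1 / (4 * (B1 + 1)) := by rw [hc]; exact min_le_right _ _
    rw [le_div_iff₀ (by positivity)] at h1 ⊢
    linarith
  have hc1 : c ≤ 1 / 8000 := by linarith
  obtain ⟨K, hK⟩ : ∃ K : ℝ, K = ((n * g : ℕ) : ℝ) * (n + 2) * (2 * n + 3) * (((n * g : ℕ) : ℝ) + n) * C₀ +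
    g * (2 * C₀) := ⟨_, rfl⟩
  have hK0 : 0 ≤ K := by rw [hK]; positivity
  have ev : ∀ᶠ N : ℕ in atTop, 2 ≤ Real.log N ∧ 3 ≤ (N : ℝ) ^ c ∧
      2 * Z ≤ (Real.log N) ^ (249 : ℝ) ∧ K ≤ Real.log N := by
    have e1 : ∀ᶠ N : ℕ in atTop, 2 ≤ (Real.log N) ^ (1 : ℝ) := ev_log one_pos
    have e3 : ∀ᶠ N : ℕ in atTop, K ≤ (Real.log N) ^ (1 : ℝ) := ev_log one_pos
    filter_upwards [e1, ev_rpow (C := 3) hc0, ev_log (C := 2 * Z) (show (0 : ℝ) < 249 by norm_num),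
      e3] with N a1 a2 a3 a7
    rw [Real.rpow_one] at a1 a7
    exact ⟨a1, a2, a3, a7⟩
  obtain ⟨N1, hN1⟩ := eventually_atTop.1 ev
  refine ⟨c, hc0, hc1, max N1 (max T0 3), (le_max_right _ _).trans (le_max_right _ _),
    fun N hN F _ _ hg f hf hfn hcoef m hm T hT => ?_⟩
  obtain ⟨hL2, hX3, hZL, hKL⟩ := hN1 N ((le_max_left _ _).trans hN)
  have hXT : T0 ≤ N := ((le_max_left _ _).trans (le_max_right _ _)).trans hN
  have hX3' : 3 ≤ N := ((le_max_right _ _).trans (le_max_right _ _)).trans hN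
  have hXr : (3 : ℝ) ≤ N := by exact_mod_cast hX3'
  have hX0 : (0 : ℝ) < N := by linarith
  have hL0 : 0 < Real.log N := by linarith
  have hfn0 : 0 < f.natDegree := by rw [hfn]; exact hn
  -- the box
  obtain ⟨U, hU⟩ : ∃ U : ℕ, U = 2 * N + 1 := ⟨_, rfl⟩
  have hUr : (U : ℝ) = 2 * N + 1 := by rw [hU]; push_cast; ring
  have hNU : (N : ℝ) ≤ U := by rw [hUr]; linarith
  have hU3 : (U : ℝ) ≤ 3 * N := by rw [hUr]; linarith
  have hUc : (N : ℝ) ^ c ≤ (U : ℝ) ^ (d / 2000) := by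
    calc (N : ℝ) ^ c ≤ (U : ℝ) ^ c := Real.rpow_le_rpow hX0.le hNU hc0.le
      _ ≤ (U : ℝ) ^ (d / 2000) := Real.rpow_le_rpow_of_exponent_le (by linarith) (by linarith)
  have hUlog := aux1 hU hX3' hL2 hc0 hd0 hdc
  have hcount := hT0 U (hXT.trans (by omega)) (univ : Finset (Fin m)) (fun k => gg f (T k))
    (fun k _ => by
      have := sys_gg hf hfn0 hC (hT k)
      rw [← hg, hfn, ← hM] at this
      exact this) (by
      rw [card_univ, Fintype.card_fin]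
      exact hm.trans hUc) (-(N : ℤ))
  -- the heights
  obtain ⟨R, hR⟩ : ∃ R : ℝ, R = Real.exp ((Real.log N) ^ B) := ⟨_, rfl⟩
  rw [← hR] at hcoef ⊢
  have hRlog : Real.log R ≤ (Real.log N) ^ B1 := by
    rw [hR, Real.log_exp]
    exact Real.rpow_le_rpow_of_exponent_le (by linarith) hBB
  have hR0 : 0 < R := by rw [hR]; exact Real.exp_pos _
  have hLB : 1 ≤ (Real.log N) ^ B1 := Real.one_le_rpow (by linarith) (by linarith)
  have hNexp : (N : ℝ) ≤ Real.exp ((Real.log N) ^ B1) := by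
    calc (N : ℝ) = Real.exp (Real.log N) := (Real.exp_log hX0).symm
      _ ≤ Real.exp ((Real.log N) ^ B1) := by
          rw [Real.exp_le_exp]
          calc Real.log N = (Real.log N) ^ (1 : ℝ) := (Real.rpow_one _).symm
            _ ≤ (Real.log N) ^ B1 := Real.rpow_le_rpow_of_exponent_le (by linarith) hB11
  have hHlog : Real.log ((n + 1) * (R + N)) ≤ (2 * n + 3) * (Real.log N) ^ B1 :=
    aux2 hR0 hX0 hLB hRlog hNexp
  -- good `t`
  have hgood : ∀ t : ℤ, |t| ≤ N → (∀ k, Good d (d / 2000) U fun p => gg f (T k) p t) →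
      Concl0 F f t C₀ R δ c N m T := by
    intro t htN ht L _ _ _ θ hθ k τL ℓL τF ℓF hLL hLF hτ hMH
    have hfin : Module.finrank ℚ L = n * g := by
      have h1 := Module.finrank_mul_finrank ℚ F L
      rw [hθ.deg, natDegree_add_C, hfn, ← hg, mul_comm] at h1
      exact h1.symm
    have hH1 : 1 ≤ R + N := by linarith
    have hcH : ∀ i, ∀ σ : F →+* ℂ, ‖σ ((f + C (t : 𝓞 F)).coeff i : F)‖ ≤ R + N := by
      intro i σ
      rw [coeff_add, coeff_C]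
      have h1 : ‖σ (((if i = 0 then (t : 𝓞 F) else 0 : 𝓞 F)) : F)‖ ≤ N := by
        split_ifs
        · have : (((t : 𝓞 F)) : F) = ((t : ℤ) : F) := map_intCast (algebraMap (𝓞 F) F) t
          rw [this, map_intCast, Complex.norm_intCast]
          exact_mod_cast htN
        · have : (((0 : 𝓞 F)) : F) = 0 := map_zero (algebraMap (𝓞 F) F)
          rw [this, map_zero, norm_zero]
          exact hX0.le
      have h2 : ((f.coeff i + (if i = 0 then (t : 𝓞 F) else 0) : 𝓞 F) : F) =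
          (f.coeff i : F) + ((if i = 0 then (t : 𝓞 F) else 0 : 𝓞 F) : F) :=
        map_add (algebraMap (𝓞 F) F) _ _
      rw [h2, map_add]
      exact (norm_add_le _ _).trans (add_le_add (hcoef i σ) h1)
    have hypow : ∀ y : ℕ, (Real.log N) ^ (1 / c) ≤ y → (Real.log N) ^ (249 : ℝ) ≤ (y : ℝ) ^ (249 * c) := by
      intro y hy
      have h1 := Real.rpow_le_rpow (by positivity) hy (show 0 ≤ 249 * c by positivity)
      refine le_trans (le_of_eq ?_) h1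
      rw [← Real.rpow_mul hL0.le]
      congr 1
      field_simp
    have hy1 : ∀ y : ℕ, (Real.log N) ^ (1 / c) ≤ y → (1 : ℝ) ≤ y := fun y hy => by
      refine le_trans ?_ hy
      exact Real.one_le_rpow (by linarith) (by positivity)
    -- the logarithms
    have hlogs : ∀ z : ℂ, 1 / 2 + d ≤ z.re → |z.im| ≤ (N : ℝ) ^ c → ∀ y x : ℕ,
        (Real.log N) ^ (1 / c) ≤ y → (x : ℝ) ≤ (N : ℝ) ^ c →
        ‖∑ w ∈ GG L y x, ℓL z w - ∑ v ∈ GG F y x, ℓF z v‖ ≤ Z * (y : ℝ) ^ (-(250 * c)) := by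
      intro z hz hz2 y x hy hx
      have hy4 : 4 ≤ y := by
        have h1 : (4 : ℝ) ≤ (Real.log N) ^ (1 / c) := by
          have h2 : (2 : ℝ) ≤ 1 / c := by rw [le_div_iff₀ hc0]; linarith
          calc (4 : ℝ) = 2 ^ (2 : ℝ) := by norm_num
            _ ≤ (Real.log N) ^ (2 : ℝ) := Real.rpow_le_rpow (by norm_num) hL2 (by norm_num)
            _ ≤ (Real.log N) ^ (1 / c) := Real.rpow_le_rpow_of_exponent_le (by linarith) h2
        exact_mod_cast h1.trans hy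
      have hyr := hy1 y hy
      have hy0 : (0 : ℝ) < y := by linarith
      have h1 := strip hf hfn0 hθ hH1 hcH hC hd0 (hT k) (ht k) hLL hLF hτ hMH hz (hz2.trans hUc)
        hy4 (hUlog.trans hy) (hx.trans hUc)
      rw [hfin, hfn, ← hg] at h1
      -- the second coefficient
      obtain ⟨W, hW⟩ : ∃ W : ℝ, W = ((((n * g : ℕ) : ℝ) * (n + 2) * Real.log ((n + 1) * (R + N))) *
        ((((n * g : ℕ) : ℝ) + n) * C₀) + g * Real.log R * (2 * C₀)) := ⟨_, rfl⟩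
      rw [← hW] at h1
      have hWK : W ≤ K * (Real.log N) ^ B1 := by
        rw [hW]
        exact aux3 hC hK hHlog hRlog
      have hWy : W * (y : ℝ) ^ (-(1 / 2) : ℝ) ≤ (y : ℝ) ^ (-(d / 16)) := by
        have h2 : W ≤ (y : ℝ) ^ (1 / 4 : ℝ) := by
          calc W ≤ K * (Real.log N) ^ B1 := hWK
            _ ≤ Real.log N * (Real.log N) ^ B1 := mul_le_mul_of_nonneg_right hKL (by positivity)
            _ = (Real.log N) ^ (B1 + 1) := by rw [Real.rpow_add_one hL0.ne', mul_comm]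
            _ ≤ (Real.log N) ^ (1 / (4 * c)) := Real.rpow_le_rpow_of_exponent_le (by linarith) hcB
            _ = ((Real.log N) ^ (1 / c)) ^ (1 / 4 : ℝ) := by
                rw [← Real.rpow_mul hL0.le]
                congr 1
                field_simp
            _ ≤ (y : ℝ) ^ (1 / 4 : ℝ) := Real.rpow_le_rpow (by positivity) hy (by norm_num)
        calc W * (y : ℝ) ^ (-(1 / 2) : ℝ) ≤ (y : ℝ) ^ (1 / 4 : ℝ) * (y : ℝ) ^ (-(1 / 2) : ℝ) :=
              mul_le_mul_of_nonneg_right h2 (by positivity)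
          _ = (y : ℝ) ^ (1 / 4 + -(1 / 2) : ℝ) := (Real.rpow_add hy0 _ _).symm
          _ ≤ (y : ℝ) ^ (-(d / 16)) := Real.rpow_le_rpow_of_exponent_le hyr (by linarith)
      have h2 : (y : ℝ) ^ (-(d / 2)) ≤ (y : ℝ) ^ (-(d / 16)) :=
        Real.rpow_le_rpow_of_exponent_le hyr (by linarith)
      have h3 : (y : ℝ) ^ (-(d / 16)) ≤ (y : ℝ) ^ (-(250 * c)) :=
        Real.rpow_le_rpow_of_exponent_le hyr (by linarith)
      obtain ⟨Z', hZ'⟩ : ∃ Z' : ℝ, Z' = (2 * C₀ * (((n * g : ℕ) : ℝ) * PS d) + 2 * C₀ * (g * PS d) +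
        C₀ * (g * PS (d / 2))) := ⟨_, rfl⟩
      have hZ'0 : 0 ≤ Z' := by rw [hZ']; positivity
      rw [← hZ'] at h1
      have hZZ : Z = Z' + 2 := by rw [hZ, hZ']
      refine h1.trans ?_
      calc Z' * (y : ℝ) ^ (-(d / 2)) + W * (y : ℝ) ^ (-(1 / 2) : ℝ) + (y : ℝ) ^ (-(d / 16))
          ≤ Z' * (y : ℝ) ^ (-(d / 16)) + (y : ℝ) ^ (-(d / 16)) + (y : ℝ) ^ (-(d / 16)) :=
            add_le_add (add_le_add (mul_le_mul_of_nonneg_left h2 hZ'0) hWy) le_rfl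
        _ = Z * (y : ℝ) ^ (-(d / 16)) := by rw [hZZ]; ring
        _ ≤ Z * (y : ℝ) ^ (-(250 * c)) := mul_le_mul_of_nonneg_left h3 (by linarith)
    intro z hz hz2 y x hy hx
    have hz' : 1 / 2 + d ≤ z.re := by linarith
    have hyr := hy1 y hy
    have hy0 : (0 : ℝ) < y := by linarith
    have h1 := hlogs z hz' hz2 y x hy hx
    have h2 : Z * (y : ℝ) ^ (-(250 * c)) ≤ (y : ℝ) ^ (-c) := by
      calc Z * (y : ℝ) ^ (-(250 * c)) ≤ (y : ℝ) ^ (249 * c) * (y : ℝ) ^ (-(250 * c)) :=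
            mul_le_mul_of_nonneg_right (by linarith [hypow y hy]) (by positivity)
        _ = (y : ℝ) ^ (-c) := by rw [← Real.rpow_add hy0]; congr 1; ring
    exact h1.trans h2
  -- the count
  have hcard : ({t : ℤ | |t| ≤ N ∧ ¬ Concl0 F f t C₀ R δ c N m T}.ncard : ℝ) ≤
      (Nat.card {u : ℕ // u < U ∧ ¬ ∀ k ∈ (univ : Finset (Fin m)),
        Good d (d / 2000) U fun p => gg f (T k) p (-(N : ℤ) + u)} : ℝ) := by
    set S := {u : ℕ | u < U ∧ ¬ ∀ k ∈ (univ : Finset (Fin m)),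
        Good d (d / 2000) U fun p => gg f (T k) p (-(N : ℤ) + u)} with hS
    have hSfin : S.Finite := Set.Finite.subset (Set.finite_Iio U) fun u hu => hu.1
    have h1 : {t : ℤ | |t| ≤ N ∧ ¬ Concl0 F f t C₀ R δ c N m T} ⊆
        (fun u : ℕ => -(N : ℤ) + u) '' S := by
      rintro t ⟨ht1, ht2⟩
      have h2 := abs_le.1 ht1
      refine ⟨(t + N).toNat, ⟨?_, fun hcon => ht2 (hgood t ht1 fun k => ?_)⟩, ?_⟩
      · omega
      · have h3 := hcon k (mem_univ k)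
        have h4 : -(N : ℤ) + ((t + N).toNat : ℤ) = t := by omega
        rw [h4] at h3
        exact h3
      · dsimp only
        omega
    have h2 := Set.ncard_le_ncard h1 (hSfin.image _)
    have h3 := Set.ncard_image_le (f := fun u : ℕ => -(N : ℤ) + u) hSfin
    have h4 : Nat.card {u : ℕ // u < U ∧ ¬ ∀ k ∈ (univ : Finset (Fin m)),
        Good d (d / 2000) U fun p => gg f (T k) p (-(N : ℤ) + u)} = S.ncard := rfl
    rw [h4]
    exact_mod_cast h2.trans h3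
  refine hcard.trans (hcount.trans ?_)
  calc (U : ℝ) ^ (1 - d / 2000) ≤ (3 * N : ℝ) ^ (1 - d / 2000) :=
        Real.rpow_le_rpow (by linarith) hU3 (by linarith)
    _ = 3 ^ (1 - d / 2000) * (N : ℝ) ^ (1 - d / 2000) := Real.mul_rpow (by norm_num) hX0.le
    _ ≤ 3 * (N : ℝ) ^ (1 - d / 2000) := by
        refine mul_le_mul_of_nonneg_right ?_ (by positivity)
        calc (3 : ℝ) ^ (1 - d / 2000) ≤ 3 ^ (1 : ℝ) :=
              Real.rpow_le_rpow_of_exponent_le (by norm_num) (by linarith)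
          _ = 3 := Real.rpow_one _
    _ ≤ (N : ℝ) ^ c * (N : ℝ) ^ (1 - d / 2000) := mul_le_mul_of_nonneg_right hX3 (by positivity)
    _ = (N : ℝ) ^ (c + (1 - d / 2000)) := (Real.rpow_add hX0 _ _).symm
    _ ≤ (N : ℝ) ^ (1 - c) := Real.rpow_le_rpow_of_exponent_le (by linarith) (by linarith)

end Pool.Agent.Y693.TP
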