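import Pool.Agent.Y693.TP.Cf
import Pool.Agent.Y693.TP.Lg
import Pool.Agent.Y693.TP.Abel

/-!
# The coefficients of `V × W`
-/

set_option autoImplicit false

open Finset NumberField IsDedekindDomain Polynomial Filter
open Pool.Agent.H921R2.TatePole (nm two_le_nm below deg nm_eq nm_summable fiber_card_le
  summable_primes_rpow card_above below_le_nm)
open Pool.Agent.Y770.EP (finite_quot card_quot FN mem_FN GG mem_GG FP mem_FP card_FP nm_mem Sys SP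
  PR mem_PR nm_pos' Good pts tv tv_congr GD tv_bad coprime_notMem norm_sum_γ)
open Pool.Agent.Y693.RF

namespace Pool.Agent.Y693.TP

section one
variable {M : Type} [Field M] [NumberField M] {r N : ℕ}

lemma ld_lin {τ : HeightOneSpectrum (𝓞 M) → ℂ} {C₀ : ℝ} (hC : 0 ≤ C₀) (h : ∀ w, ‖τ w‖ ≤ C₀) :
    LD C₀ τ (fun z w => τ w * (nm w : ℂ) ^ (-z)) := by
  refine ⟨h, fun z w _ _ => ?_, fun z w _ => ?_⟩
  · rw [sub_self, norm_zero]
    exact mul_nonneg hC (by positivity)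
  · rw [norm_mul, norm_cpow]
    exact mul_le_mul_of_nonneg_right (h w) (by positivity)

open Classical in
/-- the coefficient -/
noncomputable def cg (α β : Fin r → 𝓞 M) (γ₀ γ₁ γ₂ : HeightOneSpectrum (𝓞 M) → Fin N → ℂ)
    (w : HeightOneSpectrum (𝓞 M)) : ℂ :=
  if GA α β w then ((qd α β w + r : ℝ) : ℂ) * ∑ j, γ₀ w j + (ln α β w : ℂ) * ∑ j, γ₁ w j +
    ∑ j, γ₂ w j else 0

/-- the mean values of the coefficients -/
noncomputable def hh (ρ : ℕ) (γ₀ γ₂ : HeightOneSpectrum (𝓞 M) → Fin N → ℂ)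
    (w : HeightOneSpectrum (𝓞 M)) : ℂ := (ρ : ℂ) * ∑ j, γ₀ w j + ∑ j, γ₂ w j

/-- the constant -/
noncomputable def CD (r N : ℕ) : ℝ := 45 * ((r : ℝ) + 1) ^ 3 * N

lemma CD_nonneg (r N : ℕ) : 0 ≤ CD r N := by unfold CD; positivity

lemma cg_le (α β : Fin r → 𝓞 M) {γ₀ γ₁ γ₂ : HeightOneSpectrum (𝓞 M) → Fin N → ℂ}
    (h₀ : ∀ w j, ‖γ₀ w j‖ ≤ 1) (h₁ : ∀ w j, ‖γ₁ w j‖ ≤ 1) (h₂ : ∀ w j, ‖γ₂ w j‖ ≤ 1)
    (w : HeightOneSpectrum (𝓞 M)) : ‖cg α β γ₀ γ₁ γ₂ w‖ ≤ CD r N := by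
  have hr : (0 : ℝ) ≤ r := Nat.cast_nonneg r
  have hN : (0 : ℝ) ≤ N := Nat.cast_nonneg N
  unfold cg
  split_ifs with h
  · have h1 : ∀ i, |tv (α i) (β i) w| ≤ 2 := fun i => (h i).tv_le
    refine (norm_add₃_le).trans ?_
    rw [norm_mul, norm_mul, Complex.norm_real, Complex.norm_real]
    have h0 : ‖qd α β w + (r : ℝ)‖ ≤ 4 * (r : ℝ) ^ 2 + r := by
      refine (norm_add_le _ _).trans (add_le_add (qd_le h1) (le_of_eq ?_))
      rw [Real.norm_of_nonneg hr]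
    have h2 := mul_le_mul h0 (norm_sum_γ h₀ w) (norm_nonneg _) (by positivity)
    have h3 := mul_le_mul (ln_le h1) (norm_sum_γ h₁ w) (norm_nonneg _) (by positivity)
    have h4 := norm_sum_γ h₂ w
    refine (add_le_add (add_le_add h2 h3) h4).trans ?_
    unfold CD
    have e : (4 * (r : ℝ) ^ 2 + r) * N + 2 * (r : ℝ) * N + N = (4 * (r : ℝ) ^ 2 + r + 2 * r + 1) * N := by
      ring
    rw [e]
    refine mul_le_mul_of_nonneg_right ?_ hN
    nlinarith [pow_nonneg hr 2, pow_nonneg hr 3]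
  · rw [norm_zero]
    exact CD_nonneg r N

lemma hh_le {ρ : ℕ} (hρ : ρ ≤ r + r ^ 2) {γ₀ γ₂ : HeightOneSpectrum (𝓞 M) → Fin N → ℂ}
    (h₀ : ∀ w j, ‖γ₀ w j‖ ≤ 1) (h₂ : ∀ w j, ‖γ₂ w j‖ ≤ 1) (w : HeightOneSpectrum (𝓞 M)) :
    ‖hh ρ γ₀ γ₂ w‖ ≤ ((r : ℝ) + (r : ℝ) ^ 2 + 1) * N := by
  have hN : (0 : ℝ) ≤ N := Nat.cast_nonneg N
  unfold hh
  refine (norm_add_le _ _).trans ?_
  rw [norm_mul, Complex.norm_natCast]
  have h1 : (ρ : ℝ) ≤ (r : ℝ) + (r : ℝ) ^ 2 := by exact_mod_cast hρ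
  have h2 := mul_le_mul h1 (norm_sum_γ h₀ w) (norm_nonneg _) (by positivity)
  have h3 := norm_sum_γ h₂ w
  linarith

lemma hh_le' {ρ : ℕ} (hρ : ρ ≤ r + r ^ 2) {γ₀ γ₂ : HeightOneSpectrum (𝓞 M) → Fin N → ℂ}
    (h₀ : ∀ w j, ‖γ₀ w j‖ ≤ 1) (h₂ : ∀ w j, ‖γ₂ w j‖ ≤ 1) (w : HeightOneSpectrum (𝓞 M)) :
    ‖hh ρ γ₀ γ₂ w‖ ≤ CD r N := by
  have hr : (0 : ℝ) ≤ r := Nat.cast_nonneg r
  refine (hh_le hρ h₀ h₂ w).trans ?_
  unfold CD
  refine mul_le_mul_of_nonneg_right ?_ (Nat.cast_nonneg N)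
  nlinarith [pow_nonneg hr 2, pow_nonneg hr 3]

end one

section two
variable {F : Type} [Field F] [NumberField F] {r N : ℕ}

open Classical in
lemma card_notGA (a b : Fin r → 𝓞 F) {v : HeightOneSpectrum (𝓞 F)} {p : ℕ} (hp : p.Prime)
    (hv : nm v = p) (h3 : 3 < p) :
    (((range p).filter (fun j : ℕ => ¬ GA a (fun i => b i + ((j : ℕ) : 𝓞 F)) v)).card : ℝ) ≤
      2 * r := by
  have h4 : (range p).filter (fun j : ℕ => ¬ GA a (fun i => b i + ((j : ℕ) : 𝓞 F)) v) ⊆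
      univ.biUnion fun i : Fin r =>
        (range p).filter (fun j : ℕ => ¬ GD (a i) (b i + ((j : ℕ) : 𝓞 F)) v) := by
    intro j hj
    rw [mem_filter] at hj
    obtain ⟨h5, h6⟩ := hj
    unfold GA at h6
    push Not at h6
    obtain ⟨i, hi⟩ := h6
    exact mem_biUnion.2 ⟨i, mem_univ i, mem_filter.2 ⟨h5, hi⟩⟩
  have h5 := (card_le_card h4).trans (card_biUnion_le.trans
    (Finset.sum_le_sum fun i _ => card_bad_pencil (a i) (b i) hp hv h3))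
  rw [Finset.sum_const, card_univ, Fintype.card_fin, smul_eq_mul] at h5
  have : (((range p).filter (fun j : ℕ => ¬ GA a (fun i => b i + ((j : ℕ) : 𝓞 F)) v)).card : ℝ) ≤
      ((r * 2 : ℕ) : ℝ) := by exact_mod_cast h5
  push_cast at this
  linarith

/-- **The mean value of the coefficients.** -/
theorem mean_cg {a b : Fin r → 𝓞 F} {γ₀ γ₁ γ₂ : HeightOneSpectrum (𝓞 F) → Fin N → ℂ}
    (h₀ : ∀ w j, ‖γ₀ w j‖ ≤ 1) (h₁ : ∀ w j, ‖γ₁ w j‖ ≤ 1) (h₂ : ∀ w j, ‖γ₂ w j‖ ≤ 1)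
    {S : Finset (Fin r × Fin r)}
    (hS : S ⊆ prs r) {v : HeightOneSpectrum (𝓞 F)} {p : ℕ} (hp : p.Prime) (hv : nm v = p) (h3 : 3 < p)
    (ha : ∀ i, a i ∉ v.asIdeal) (hs : ∀ x ∈ S, a x.1 ^ 3 = a x.2 ^ 3 ∧ b x.1 = b x.2)
    (hn : ∀ x ∈ prs r, x ∉ S → ¬ (a x.1 ^ 3 - a x.2 ^ 3 ∈ v.asIdeal ∧ b x.1 - b x.2 ∈ v.asIdeal)) :
    ‖mu (fun j => cg a (fun i => b i + ((j : ℕ) : 𝓞 F)) γ₀ γ₁ γ₂ v) p - hh (r + S.card) γ₀ γ₂ v‖ ≤
      CD r N * (p : ℝ) ^ (-(1 / 2) : ℝ) := by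
  classical
  have hr : (0 : ℝ) ≤ r := Nat.cast_nonneg r
  have hN : (0 : ℝ) ≤ N := Nat.cast_nonneg N
  have hp0 : (0 : ℝ) < p := by exact_mod_cast hp.pos
  have hp1 : (1 : ℝ) ≤ p := by exact_mod_cast hp.one_lt.le
  have hpc : (p : ℂ) ≠ 0 := by exact_mod_cast hp.ne_zero
  have hε : r + S.card ≤ r + r ^ 2 := Nat.add_le_add_left ((card_le_card hS).trans (card_prs r)) _
  have hB := card_notGA a b hp hv h3
  obtain ⟨B, hBd⟩ : ∃ B : Finset ℕ, B = (range p).filter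
    (fun j : ℕ => ¬ GA a (fun i => b i + ((j : ℕ) : 𝓞 F)) v) := ⟨_, rfl⟩
  rw [← hBd] at hB
  have e0 : ∀ j : ℕ, cg a (fun i => b i + ((j : ℕ) : 𝓞 F)) γ₀ γ₁ γ₂ v =
      cf S.card a (fun i => b i + ((j : ℕ) : 𝓞 F)) γ₀ γ₁ v + hh (r + S.card) γ₀ γ₂ v -
      if ¬ GA a (fun i => b i + ((j : ℕ) : 𝓞 F)) v then hh (r + S.card) γ₀ γ₂ v else 0 := by
    intro j
    unfold cg cf hh
    by_cases h : GA a (fun i => b i + ((j : ℕ) : 𝓞 F)) v
    · rw [if_pos h, if_pos h, if_neg (not_not.2 h)]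
      push_cast
      ring
    · rw [if_neg h, if_neg h, if_pos h]
      ring
  have e1 : ∑ j ∈ range p, cg a (fun i => b i + ((j : ℕ) : 𝓞 F)) γ₀ γ₁ γ₂ v =
      ∑ j ∈ range p, cf S.card a (fun i => b i + ((j : ℕ) : 𝓞 F)) γ₀ γ₁ v +
        p * hh (r + S.card) γ₀ γ₂ v - B.card * hh (r + S.card) γ₀ γ₂ v := by
    rw [Finset.sum_congr rfl fun j _ => e0 j, Finset.sum_sub_distrib, Finset.sum_add_distrib,
      Finset.sum_const, card_range, nsmul_eq_mul, ← Finset.sum_filter, ← hBd, Finset.sum_const,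
      nsmul_eq_mul]
  have e2 : mu (fun j => cg a (fun i => b i + ((j : ℕ) : 𝓞 F)) γ₀ γ₁ γ₂ v) p -
      hh (r + S.card) γ₀ γ₂ v =
      mu (fun j => cf S.card a (fun i => b i + ((j : ℕ) : 𝓞 F)) γ₀ γ₁ v) p -
        (B.card : ℂ) / p * hh (r + S.card) γ₀ γ₂ v := by
    unfold mu
    rw [e1]
    field_simp
    ring
  rw [e2]
  refine (norm_sub_le _ _).trans ?_
  have h5 := mean_cf h₀ h₁ hS hp hv h3 ha hs hn
  have h6 : ‖(B.card : ℂ) / p * hh (r + S.card) γ₀ γ₂ v‖ ≤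
      2 * ((r : ℝ) + 1) ^ 3 * N * (p : ℝ) ^ (-(1 / 2) : ℝ) := by
    rw [norm_mul, norm_div, Complex.norm_natCast, Complex.norm_natCast]
    have h7 : (B.card : ℝ) / p ≤ 2 * r * (p : ℝ) ^ (-(1 / 2) : ℝ) := by
      rw [div_eq_mul_inv]
      refine mul_le_mul hB ?_ (by positivity) (by positivity)
      rw [← Real.rpow_neg_one]
      exact Real.rpow_le_rpow_of_exponent_le hp1 (by norm_num)
    refine (mul_le_mul h7 (hh_le hε h₀ h₂ v) (norm_nonneg _) (by positivity)).trans ?_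
    have e3 : 2 * (r : ℝ) * (p : ℝ) ^ (-(1 / 2) : ℝ) * (((r : ℝ) + (r : ℝ) ^ 2 + 1) * N) =
        (2 * (r : ℝ) * ((r : ℝ) + (r : ℝ) ^ 2 + 1)) * (N * (p : ℝ) ^ (-(1 / 2) : ℝ)) := by ring
    rw [e3, mul_assoc (2 * ((r : ℝ) + 1) ^ 3)]
    refine mul_le_mul_of_nonneg_right ?_ (by positivity)
    nlinarith [pow_nonneg hr 2, pow_nonneg hr 3]
  refine (add_le_add h5 h6).trans (le_of_eq ?_)
  unfold CC CD
  ring

end two

section three
variable {F : Type} [Field F] [NumberField F] {L : Type} [Field L] [NumberField L] [Algebra F L]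
  {r N : ℕ}

/-- compatibility of the coefficients -/
lemma cg_und {a b : Fin r → 𝓞 F} {α β : Fin r → 𝓞 L} (γ₀ γ₁ γ₂ : Ideal (𝓞 F) → Fin N → ℂ)
    {w : HeightOneSpectrum (𝓞 L)} (hp : (nm w).Prime)
    (ha : ∀ i, α i - algebraMap (𝓞 F) (𝓞 L) (a i) ∈ w.asIdeal)
    (hb : ∀ i, β i - algebraMap (𝓞 F) (𝓞 L) (b i) ∈ w.asIdeal) :
    cg α β (bc L γ₀) (bc L γ₁) (bc L γ₂) w =
      cg a b (fun v => γ₀ v.asIdeal) (fun v => γ₁ v.asIdeal) (fun v => γ₂ v.asIdeal) (und w) := by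
  have h1 : qd α β w = qd a b (und w : HeightOneSpectrum (𝓞 F)) := by
    unfold qd
    exact Finset.sum_congr rfl fun x _ => by
      rw [tv_und hp rfl (ha x.1) (hb x.1), tv_und hp rfl (ha x.2) (hb x.2)]
  have h2 : ln α β w = ln a b (und w : HeightOneSpectrum (𝓞 F)) := by
    unfold ln
    exact Finset.sum_congr rfl fun i _ => tv_und hp rfl (ha i) (hb i)
  have h3 : GA α β w ↔ GA a b (und w : HeightOneSpectrum (𝓞 F)) := by
    unfold GA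
    exact forall_congr' fun i => GD_und (ha i) (hb i)
  unfold cg
  rw [h1, h2]
  simp only [bc_und _ hp rfl]
  by_cases h : GA a b (und w : HeightOneSpectrum (𝓞 F))
  · rw [if_pos h, if_pos (h3.2 h)]
  · rw [if_neg h, if_neg (fun h' => h (h3.1 h'))]

open Classical in
/-- the primes of small norm -/
lemma small_primes {M : Type} [Field M] [NumberField M] {τ : HeightOneSpectrum (𝓞 M) → ℂ} {C₀ : ℝ}
    (hC : 0 ≤ C₀) (hτ : ∀ w, ‖τ w‖ ≤ C₀) (y : ℕ) :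
    ‖∑ w ∈ FN M y, τ w * Real.log (nm w)‖ ≤ C₀ * (Module.finrank ℚ M * y) * Real.log y := by
  refine (norm_sum_le _ _).trans ?_
  refine (Finset.sum_le_card_nsmul _ _ (C₀ * Real.log y) fun w hw => ?_).trans ?_
  · rw [mem_FN] at hw
    have hw2 := two_le_nm w
    have h0 : (0 : ℝ) < nm w := by exact_mod_cast (by omega : 0 < nm w)
    rw [norm_mul, Complex.norm_real, Real.norm_of_nonneg (Real.log_natCast_nonneg _)]
    exact mul_le_mul (hτ w) (Real.log_le_log h0 (by exact_mod_cast hw)) (Real.log_natCast_nonneg _) hC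
  · rw [nsmul_eq_mul]
    have h1 := card_FN_le (M := M) y
    have h2 : 0 ≤ C₀ * Real.log y := mul_nonneg hC (Real.log_natCast_nonneg _)
    calc ((FN M y).card : ℝ) * (C₀ * Real.log y) ≤ (Module.finrank ℚ M * y) * (C₀ * Real.log y) :=
          mul_le_mul_of_nonneg_right h1 h2
      _ = _ := by ring

/-- the contribution of the primes of norm `n` -/
lemma FP_log {M : Type} [Field M] [NumberField M] (τ : HeightOneSpectrum (𝓞 M) → ℂ) (z : ℝ) (n : ℕ) :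
    ∑ w ∈ FP M n, τ w * (Real.log (nm w) : ℂ) =
      (∑ w ∈ FP M n, τ w * (nm w : ℂ) ^ (-(z : ℂ))) * (gw z n : ℂ) := by
  rw [Finset.sum_mul]
  refine Finset.sum_congr rfl fun w hw => ?_
  rw [mem_FP] at hw
  have hw2 := two_le_nm w
  have h0 : (nm w : ℂ) ≠ 0 := by exact_mod_cast (by omega : nm w ≠ 0)
  unfold gw
  rw [← hw, mul_assoc]
  congr 1
  push_cast
  rw [Complex.ofReal_cpow (Nat.cast_nonneg _), Complex.ofReal_natCast, ← mul_assoc,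
    ← Complex.cpow_add _ _ h0, neg_add_cancel, Complex.cpow_zero, one_mul]

/-- **Sums with weights `log` from sums with weights `N(w)^(-z)`, for two fields.** -/
theorem taub2 {τ : HeightOneSpectrum (𝓞 L) → ℂ} {τ' : HeightOneSpectrum (𝓞 F) → ℂ} {C₀ : ℝ}
    (hC : 0 ≤ C₀) (hτ : ∀ w, ‖τ w‖ ≤ C₀) (hτ' : ∀ w, ‖τ' w‖ ≤ C₀) {y x : ℕ}
    (hyx : y ≤ x) {z : ℝ} (hz : 0 ≤ z) {E : ℝ}
    (hE : ∀ u : ℕ, u ≤ x → ‖∑ w ∈ GG L y u, τ w * (nm w : ℂ) ^ (-(z : ℂ)) -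
      ∑ v ∈ GG F y u, τ' v * (nm v : ℂ) ^ (-(z : ℂ))‖ ≤ E) :
    ‖∑ w ∈ FN L x, τ w * Real.log (nm w) - ∑ v ∈ FN F x, τ' v * Real.log (nm v)‖ ≤
      C₀ * ((Module.finrank ℚ L + Module.finrank ℚ F : ℕ) * y) * Real.log y + 2 * E * gw z x := by
  classical
  have key : ∀ {M : Type} [Field M] [NumberField M] (g : HeightOneSpectrum (𝓞 M) → ℂ),
      ∑ w ∈ FN M x, g w = ∑ w ∈ FN M y, g w + ∑ w ∈ GG M y x, g w := by
    intro M _ _ g
    have e1 : FN M x = FN M y ∪ GG M y x := by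
      ext v
      simp only [mem_union, mem_GG, mem_FN]
      omega
    have e2 : Disjoint (FN M y) (GG M y x) := by
      rw [Finset.disjoint_left]
      intro v hv hv'
      simp only [mem_GG, mem_FN] at hv hv'
      omega
    rw [e1, Finset.sum_union e2]
  have h1 : ‖∑ w ∈ GG L y x, τ w * Real.log (nm w) - ∑ v ∈ GG F y x, τ' v * Real.log (nm v)‖ ≤
      2 * E * gw z x := by
    rw [sum_GG, sum_GG, ← Finset.sum_sub_distrib]
    have e : ∀ n ∈ Ioc y x, ∑ w ∈ FP L n, τ w * (Real.log (nm w) : ℂ) -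
        ∑ v ∈ FP F n, τ' v * (Real.log (nm v) : ℂ) =
        (∑ w ∈ FP L n, τ w * (nm w : ℂ) ^ (-(z : ℂ)) -
          ∑ v ∈ FP F n, τ' v * (nm v : ℂ) ^ (-(z : ℂ))) * (gw z n : ℂ) := by
      intro n _
      rw [FP_log τ z n, FP_log τ' z n, sub_mul]
    rw [Finset.sum_congr rfl e]
    refine abel _ (gw_mono hz) (gw_nonneg z) fun u hu => ?_
    rw [Finset.sum_sub_distrib, ← sum_GG, ← sum_GG]
    exact hE u hu
  have h2 := small_primes hC hτ y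
  have h3 := small_primes hC hτ' y
  rw [key, key]
  have e3 : ∀ A A' D D' : ℂ, A + A' - (D + D') = (A - D) + (A' - D') := fun A A' D D' => by ring
  rw [e3]
  refine (norm_add_le _ _).trans (add_le_add ?_ h1)
  refine (norm_sub_le _ _).trans ((add_le_add h2 h3).trans (le_of_eq ?_))
  push_cast
  ring

end three

end Pool.Agent.Y693.TP
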