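import Pool.Agent.Y693.TP.Fm

/-!
# Averages over the fibres of families over random number fields
-/

set_option autoImplicit false

open Finset NumberField IsDedekindDomain Filter
open Pool.Agent.H921R2.TatePole (nm two_le_nm below deg nm_eq nm_summable fiber_card_le
  summable_primes_rpow card_above below_le_nm)
open Pool.Agent.Y770.EP (finite_quot card_quot FN mem_FN GG mem_GG FP mem_FP card_FP nm_mem Sys SP
  PR mem_PR nm_pos' Good pts tv tv_congr GD tv_bad coprime_notMem norm_sum_γ ev_rpow ev_log)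
open Pool.Agent.Y693.RF

namespace Pool.Agent.Y693.TP

variable {F : Type} [Field F] [NumberField F] {r N m : ℕ}

open Classical in
/-- the pairs of isomorphic factors of the families -/
noncomputable def eqP (A B : Fin r → MvPolynomial (Fin m) (𝓞 F)) : Finset (Fin r × Fin r) :=
  (prs r).filter fun x => A x.1 ^ 3 = A x.2 ^ 3 ∧ B x.1 = B x.2

open Classical in
/-- the obstruction of a pair -/
noncomputable def eE (A B : Fin r → MvPolynomial (Fin m) (𝓞 F)) (x : Fin r × Fin r) :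
    MvPolynomial (Fin m) (𝓞 F) :=
  if B x.1 - B x.2 ≠ 0 then B x.1 - B x.2 else
    if A x.1 ^ 3 - A x.2 ^ 3 ≠ 0 then A x.1 ^ 3 - A x.2 ^ 3 else 1

lemma eE_ne (A B : Fin r → MvPolynomial (Fin m) (𝓞 F)) (x : Fin r × Fin r) : eE A B x ≠ 0 := by
  unfold eE
  split_ifs with h1 h2
  · exact h1
  · exact h2
  · exact one_ne_zero

lemma deg3 {A : Fin r → MvPolynomial (Fin m) (𝓞 F)} {D : ℕ} (hA : ∀ i, (A i).totalDegree ≤ D)
    (i j : Fin r) : (A i ^ 3 - A j ^ 3).totalDegree ≤ 3 * D := by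
  refine (MvPolynomial.totalDegree_sub _ _).trans (max_le ?_ ?_)
  · exact (MvPolynomial.totalDegree_pow _ _).trans (Nat.mul_le_mul_left 3 (hA _))
  · exact (MvPolynomial.totalDegree_pow _ _).trans (Nat.mul_le_mul_left 3 (hA _))

lemma eE_deg {A B : Fin r → MvPolynomial (Fin m) (𝓞 F)} {D : ℕ} (hA : ∀ i, (A i).totalDegree ≤ D)
    (hB : ∀ i, (B i).totalDegree ≤ D) (x : Fin r × Fin r) : (eE A B x).totalDegree ≤ 3 * D := by
  unfold eE
  split_ifs
  · refine (MvPolynomial.totalDegree_sub _ _).trans (max_le ?_ ?_)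
    · exact (hB _).trans (by omega)
    · exact (hB _).trans (by omega)
  · exact deg3 hA _ _
  · rw [MvPolynomial.totalDegree_one]
    exact Nat.zero_le _

/-- the obstruction -/
noncomputable def eP (A B : Fin r → MvPolynomial (Fin m) (𝓞 F)) : MvPolynomial (Fin m) (𝓞 F) :=
  (∏ i, A i) * ∏ x ∈ prs r, eE A B x

lemma eP_ne {A : Fin r → MvPolynomial (Fin m) (𝓞 F)} (B : Fin r → MvPolynomial (Fin m) (𝓞 F))
    (hA : ∀ i, A i ≠ 0) : eP A B ≠ 0 :=
  mul_ne_zero (Finset.prod_ne_zero_iff.2 fun i _ => hA i)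
    (Finset.prod_ne_zero_iff.2 fun x _ => eE_ne A B x)

lemma eP_deg {A B : Fin r → MvPolynomial (Fin m) (𝓞 F)} {D : ℕ} (hA : ∀ i, (A i).totalDegree ≤ D)
    (hB : ∀ i, (B i).totalDegree ≤ D) : (eP A B).totalDegree ≤ (r + 3 * r ^ 2) * D := by
  unfold eP
  refine (MvPolynomial.totalDegree_mul _ _).trans ?_
  have h1 : (∏ i, A i).totalDegree ≤ r * D := by
    refine (MvPolynomial.totalDegree_finsetProd _ _).trans ?_
    refine (Finset.sum_le_sum fun i _ => hA i).trans (le_of_eq ?_)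
    rw [Finset.sum_const, card_univ, Fintype.card_fin, smul_eq_mul]
  have h2 : (∏ x ∈ prs r, eE A B x).totalDegree ≤ r ^ 2 * (3 * D) := by
    refine (MvPolynomial.totalDegree_finsetProd _ _).trans ?_
    refine (Finset.sum_le_sum fun x _ => eE_deg hA hB x).trans ?_
    rw [Finset.sum_const, smul_eq_mul]
    exact Nat.mul_le_mul_right _ (card_prs r)
  calc (∏ i, A i).totalDegree + (∏ x ∈ prs r, eE A B x).totalDegree ≤ r * D + r ^ 2 * (3 * D) :=
        Nat.add_le_add h1 h2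
    _ = (r + 3 * r ^ 2) * D := by ring

/-- a point at which a polynomial does not vanish -/
lemma exists_pt {P : MvPolynomial (Fin m) (𝓞 F)} (hP : P ≠ 0) {G : ℕ} (hG : P.totalDegree ≤ G) :
    ∃ u : Fin m → ℕ, (∀ i, u i ≤ G) ∧ MvPolynomial.eval (fun i => ((u i : ℕ) : 𝓞 F)) P ≠ 0 := by
  classical
  by_contra hcon
  push Not at hcon
  apply hP
  refine MvPolynomial.eq_zero_of_eval_zero_at_prod_finset P
    (fun _ => (range (G + 1)).image fun j : ℕ => ((j : ℕ) : 𝓞 F)) (fun i => ?_) (fun x hx => ?_)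
  · rw [card_image_of_injective _ Nat.cast_injective, card_range]
    exact Nat.lt_succ_of_le ((MvPolynomial.degreeOf_le_totalDegree P i).trans hG)
  · have h1 : ∀ i, ∃ j : ℕ, j ≤ G ∧ ((j : ℕ) : 𝓞 F) = x i := by
      intro i
      obtain ⟨j, hj, hjx⟩ := mem_image.1 (hx i)
      exact ⟨j, Nat.le_of_lt_succ (mem_range.1 hj), hjx⟩
    choose u hu1 hu2 using h1
    have h2 := hcon u hu1
    have h3 : (fun i => ((u i : ℕ) : 𝓞 F)) = x := funext hu2
    rwa [h3] at h2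

/-- the number of monomials -/
lemma card_supp {P : MvPolynomial (Fin m) (𝓞 F)} {D : ℕ} (hD : P.totalDegree ≤ D) :
    P.support.card ≤ (D + 1) ^ m := by
  classical
  have h1 : (Fintype.piFinset fun _ : Fin m => range (D + 1)).card = (D + 1) ^ m := by
    rw [Fintype.card_piFinset]
    simp
  rw [← h1]
  refine card_le_card_of_injOn (fun e : Fin m →₀ ℕ => (e : Fin m → ℕ)) (fun e he => ?_)
    (fun e _ e' _ h => DFunLike.coe_injective h)
  rw [mem_coe, Fintype.mem_piFinset]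
  intro i
  rw [mem_range]
  have h2 := MvPolynomial.le_totalDegree (mem_coe.1 he)
  have h3 : e i ≤ e.sum fun _ n => n := by
    by_cases hi : i ∈ e.support
    · exact Finset.single_le_sum (f := fun i => e i) (fun _ _ => Nat.zero_le _) hi
    · rw [Finsupp.notMem_support_iff.1 hi]
      exact Nat.zero_le _
  exact Nat.lt_succ_of_le (h3.trans (h2.trans hD))

/-- the values of a polynomial -/
lemma eval_height {P : MvPolynomial (Fin m) (𝓞 F)} {D G : ℕ} (hD : P.totalDegree ≤ D) {u : Fin m → ℕ}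
    (hu : ∀ i, u i ≤ G) {H : ℝ} (σ : F →+* ℂ) (hH : ∀ e, ‖σ ((P.coeff e : 𝓞 F) : F)‖ ≤ H) :
    ‖σ (MvPolynomial.eval (fun i => ((u i : ℕ) : 𝓞 F)) P : F)‖ ≤
      (((D + 1) ^ m * (G + 1) ^ D : ℕ) : ℝ) * H := by
  classical
  have hH0 : 0 ≤ H := (norm_nonneg _).trans (hH 0)
  have e : ((MvPolynomial.eval (fun i => ((u i : ℕ) : 𝓞 F)) P : 𝓞 F) : F) =
      ∑ e ∈ P.support, ((P.coeff e : 𝓞 F) : F) * ∏ i, ((u i : ℕ) : F) ^ e i := by
    rw [MvPolynomial.eval_eq']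
    have h5 := map_sum (algebraMap (𝓞 F) F)
      (fun e => P.coeff e * ∏ i, ((u i : ℕ) : 𝓞 F) ^ e i) P.support
    simp only [map_mul, map_prod, map_pow, map_natCast] at h5
    exact h5
  rw [e, map_sum]
  refine (norm_sum_le _ _).trans ?_
  have h1 : ∀ e ∈ P.support, ‖σ (((P.coeff e : 𝓞 F) : F) * ∏ i, ((u i : ℕ) : F) ^ e i)‖ ≤
      H * (((G + 1) ^ D : ℕ) : ℝ) := by
    intro e he
    rw [map_mul, norm_mul, map_prod, norm_prod]
    refine mul_le_mul (hH e) ?_ (Finset.prod_nonneg fun i _ => norm_nonneg _) hH0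
    have h2 : ∀ i ∈ (univ : Finset (Fin m)), ‖σ (((u i : ℕ) : F) ^ e i)‖ ≤ ((G : ℝ) + 1) ^ e i := by
      intro i _
      rw [map_pow, norm_pow, map_natCast, Complex.norm_natCast]
      refine pow_le_pow_left₀ (Nat.cast_nonneg _) ?_ _
      have : (u i : ℝ) ≤ G := by exact_mod_cast hu i
      linarith
    refine (Finset.prod_le_prod (fun i _ => norm_nonneg _) h2).trans ?_
    rw [Finset.prod_pow_eq_pow_sum]
    push_cast
    refine pow_le_pow_right₀ (by have : (0 : ℝ) ≤ G := Nat.cast_nonneg G; linarith) ?_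
    have h3 := MvPolynomial.le_totalDegree he
    have h4 : ∑ i, e i = e.sum fun _ n => n := by
      rw [Finsupp.sum_fintype]
      intro i
      rfl
    rw [h4]
    exact h3.trans hD
  refine (Finset.sum_le_card_nsmul _ _ _ h1).trans ?_
  rw [nsmul_eq_mul]
  have h5 : (P.support.card : ℝ) ≤ (((D + 1) ^ m : ℕ) : ℝ) := by exact_mod_cast card_supp hD
  have h6 : 0 ≤ H * (((G + 1) ^ D : ℕ) : ℝ) := by positivity
  refine (mul_le_mul_of_nonneg_right h5 h6).trans (le_of_eq ?_)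
  push_cast
  ring

/-- reduction of a polynomial with a nonzero value -/
lemma map_ne {P : MvPolynomial (Fin m) (𝓞 F)} {v : HeightOneSpectrum (𝓞 F)} {u : Fin m → 𝓞 F}
    (h : MvPolynomial.eval u P ∉ v.asIdeal) :
    MvPolynomial.map (Ideal.Quotient.mk v.asIdeal) P ≠ 0 := by
  intro h0
  apply h
  have h1 : MvPolynomial.eval (fun i => Ideal.Quotient.mk v.asIdeal (u i))
      (MvPolynomial.map (Ideal.Quotient.mk v.asIdeal) P) =
      Ideal.Quotient.mk v.asIdeal (MvPolynomial.eval u P) := by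
    rw [MvPolynomial.eval_map]
    exact (MvPolynomial.eval₂_comp (Ideal.Quotient.mk v.asIdeal) u P).symm
  rw [h0, map_zero] at h1
  exact Ideal.Quotient.eq_zero_iff_mem.1 h1.symm

/-- **The mean values, in the form needed.** -/
theorem mh_av {A B : Fin r → MvPolynomial (Fin m) (𝓞 F)} {γ₀ γ₁ γ₂ : Ideal (𝓞 F) → Fin N → ℂ}
    (h₀ : ∀ w j, ‖γ₀ w j‖ ≤ 1) (h₁ : ∀ w j, ‖γ₁ w j‖ ≤ 1) (h₂ : ∀ w j, ‖γ₂ w j‖ ≤ 1) {D : ℕ}
    (hA : ∀ i, (A i).totalDegree ≤ D) (hB : ∀ i, (B i).totalDegree ≤ D) (hA0 : ∀ i, A i ≠ 0)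
    {H : ℝ} (hH : 2 ≤ H) (hAH : ∀ i e, ∀ σ : F →+* ℂ, ‖σ (((A i).coeff e : 𝓞 F) : F)‖ ≤ H)
    (hBH : ∀ i e, ∀ σ : F →+* ℂ, ‖σ (((B i).coeff e : 𝓞 F) : F)‖ ≤ H) :
    MH (((((D + 1) ^ m * ((r + 3 * r ^ 2) * D + 1) ^ D : ℕ) : ℝ) * H) ^ (r + 4 * r ^ 2)) (CE r N D)
      (fun v j => av A (fun i => B i + MvPolynomial.C ((j : ℕ) : 𝓞 F)) (fun v => γ₀ v.asIdeal)
        (fun v => γ₁ v.asIdeal) (fun v => γ₂ v.asIdeal) v)
      (hh (r + (eqP A B).card) (fun v => γ₀ v.asIdeal) (fun v => γ₂ v.asIdeal)) := by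
  classical
  obtain ⟨u, hu, hu0⟩ := exists_pt (eP_ne B hA0) (eP_deg hA hB)
  obtain ⟨ev, hev⟩ : ∃ ev : MvPolynomial (Fin m) (𝓞 F) →+* 𝓞 F,
      ev = MvPolynomial.eval (fun i => ((u i : ℕ) : 𝓞 F)) := ⟨_, rfl⟩
  have hPev : ev (eP A B) = (∏ i, ev (A i)) * ∏ x ∈ prs r, ev (eE A B x) := by
    unfold eP
    rw [map_mul, map_prod, map_prod]
  rw [← hev, hPev] at hu0
  have hA1 : ∀ i, ev (A i) ≠ 0 := fun i =>
    Finset.prod_ne_zero_iff.1 (left_ne_zero_of_mul hu0) i (mem_univ i)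
  have hE1 : ∀ x ∈ prs r, ev (eE A B x) ≠ 0 := fun x hx =>
    Finset.prod_ne_zero_iff.1 (right_ne_zero_of_mul hu0) x hx
  have hee : ∀ x ∈ prs r, ee (fun i => ev (A i)) (fun i => ev (B i)) x = ev (eE A B x) := by
    intro x hx
    have h1 := hE1 x hx
    unfold eE at h1 ⊢
    unfold ee
    by_cases g1 : B x.1 - B x.2 = 0
    · have g1' : ev (B x.1) - ev (B x.2) = 0 := by rw [← map_sub, g1, map_zero]
      rw [if_neg (not_not.2 g1'), if_neg (not_not.2 g1)]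
      rw [if_neg (not_not.2 g1)] at h1
      by_cases g2 : A x.1 ^ 3 - A x.2 ^ 3 = 0
      · have g2' : ev (A x.1) ^ 3 - ev (A x.2) ^ 3 = 0 := by
          rw [← map_pow, ← map_pow, ← map_sub, g2, map_zero]
        rw [if_neg (not_not.2 g2'), if_neg (not_not.2 g2), map_one]
      · rw [if_pos g2] at h1 ⊢
        have g2' : ev (A x.1) ^ 3 - ev (A x.2) ^ 3 ≠ 0 := by
          rw [← map_pow, ← map_pow, ← map_sub]
          exact h1
        rw [if_pos g2', map_sub, map_pow, map_pow]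
    · rw [if_pos g1] at h1 ⊢
      have g1' : ev (B x.1) - ev (B x.2) ≠ 0 := by
        rw [← map_sub]
        exact h1
      rw [if_pos g1', map_sub]
  have hK1 : (1 : ℝ) ≤ (((D + 1) ^ m * ((r + 3 * r ^ 2) * D + 1) ^ D : ℕ) : ℝ) := by
    exact_mod_cast Nat.one_le_iff_ne_zero.2 (by positivity)
  have hKH : 2 ≤ (((D + 1) ^ m * ((r + 3 * r ^ 2) * D + 1) ^ D : ℕ) : ℝ) * H := by
    nlinarith
  refine ⟨eo (fun i => ev (A i)) (fun i => ev (B i)), eo_ne _ hA1, fun σ => eo_le hKH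
    (fun i σ => ?_) (fun i σ => ?_) σ, fun v hp h3 hv => ?_⟩
  · rw [hev]
    exact eval_height (hA i) hu σ fun e => hAH i e σ
  · rw [hev]
    exact eval_height (hB i) hu σ fun e => hBH i e σ
  have hv1 : ∀ i, ev (A i) ∉ v.asIdeal := by
    intro i hi
    apply hv
    unfold eo
    exact v.asIdeal.mul_mem_right _ (Ideal.mem_of_dvd _
      (Finset.dvd_prod_of_mem (fun i => ev (A i)) (mem_univ i)) hi)
  have hv2 : ∀ x ∈ prs r, ev (eE A B x) ∉ v.asIdeal := by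
    intro x hx hi
    apply hv
    unfold eo
    rw [← hee x hx] at hi
    exact v.asIdeal.mul_mem_left _ (Ideal.mem_of_dvd _
      (Finset.dvd_prod_of_mem (fun x => ee (fun i => ev (A i)) (fun i => ev (B i)) x) hx) hi)
  refine mean_av (fun w j => h₀ _ j) (fun w j => h₁ _ j) (fun w j => h₂ _ j) hA hB (S := eqP A B)
    (filter_subset _ _) hp rfl h3 (fun i => ?_) (fun x hx => ?_) (fun x hx hxS => ?_)
  · have := hv1 i
    rw [hev] at this
    exact map_ne this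
  · unfold eqP at hx
    exact (mem_filter.1 hx).2
  · have h5 := hv2 x hx
    unfold eE at h5
    split_ifs at h5 with g1 g2
    · rw [hev] at h5
      exact Or.inr (map_ne h5)
    · rw [hev] at h5
      exact Or.inl (map_ne h5)
    · exfalso
      apply hxS
      unfold eqP
      rw [mem_filter]
      exact ⟨hx, sub_eq_zero.1 (not_not.1 g2), sub_eq_zero.1 (not_not.1 g1)⟩

/-- the bound for one `k` and one field `L` -/
def BF (δ c : ℝ) (X : ℕ) (A B : Fin r → MvPolynomial (Fin m) (𝓞 F))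
    (γ₀ γ₁ γ₂ : Ideal (𝓞 F) → Fin N → ℂ) (L : Type)
    [Field L] [NumberField L] [Algebra F L] (θ : 𝓞 L) : Prop :=
  ∀ T : ℕ, (Real.log X) ^ (1 / c) ≤ T → (T : ℝ) ≤ (X : ℝ) ^ c →
    ‖∑ w ∈ FN L T, av (fun i => MvPolynomial.map (algebraMap (𝓞 F) (𝓞 L)) (A i))
        (fun i => MvPolynomial.map (algebraMap (𝓞 F) (𝓞 L)) (B i) + MvPolynomial.C θ)
        (bc L γ₀) (bc L γ₁) (bc L γ₂) w * Real.log (nm w) -
      ∑ v ∈ FN F T, hh (r + (eqP A B).card) (fun v => γ₀ v.asIdeal) (fun v => γ₂ v.asIdeal) v *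
        Real.log (nm v)‖ ≤ (T : ℝ) ^ (1 / 2 + δ)

/-- **Averages over the fibres of families over random number fields.** -/
theorem thmF (d n r N m D : ℕ) (hn : 0 < n) (B δ : ℝ) (hδ : 0 < δ) :
    ∃ c : ℝ, 0 < c ∧ ∃ X₀ : ℕ, ∀ X : ℕ, X₀ ≤ X →
      ∀ (F : Type) [Field F] [NumberField F], Module.finrank ℚ F = d →
      ∀ f : Polynomial (𝓞 F), f.Monic → f.natDegree = n →
      (∀ i, ∀ σ : F →+* ℂ, ‖σ (f.coeff i : F)‖ ≤ Real.exp ((Real.log X) ^ B)) →
      ∀ M : ℕ, (M : ℝ) ≤ (X : ℝ) ^ c → ∀ (a b : Fin M → Fin r → MvPolynomial (Fin m) (𝓞 F))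
        (γ₀ γ₁ γ₂ : Fin M → Ideal (𝓞 F) → Fin N → ℂ),
        (∀ k i, a k i ≠ 0) →
        (∀ k i, (a k i).totalDegree ≤ D ∧ (b k i).totalDegree ≤ D) →
        (∀ k i e, ∀ σ : F →+* ℂ, ‖σ (((a k i).coeff e : 𝓞 F) : F)‖ ≤ Real.exp ((Real.log X) ^ B) ∧
          ‖σ (((b k i).coeff e : 𝓞 F) : F)‖ ≤ Real.exp ((Real.log X) ^ B)) →
        (∀ k v j, ‖γ₀ k v j‖ ≤ 1) → (∀ k v j, ‖γ₁ k v j‖ ≤ 1) → (∀ k v j, ‖γ₂ k v j‖ ≤ 1) →
        ({t : ℤ | |t| ≤ X ∧ ¬ ∀ (L : Type) [Field L] [NumberField L] [Algebra F L] (θ : 𝓞 L),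
          Gen (f + Polynomial.C (t : 𝓞 F)) θ → ∀ k,
            BF δ c X (a k) (b k) (γ₀ k) (γ₁ k) (γ₂ k) L θ}.ncard : ℝ) ≤ (X : ℝ) ^ (1 - c) := by
  classical
  obtain ⟨B1, hB1⟩ : ∃ B1 : ℝ, B1 = max B 1 := ⟨_, rfl⟩
  have hB11 : 1 ≤ B1 := by rw [hB1]; exact le_max_right _ _
  have hBB : B ≤ B1 := by rw [hB1]; exact le_max_left _ _
  have hC := CE_nonneg r N D
  have hCC := CD_le_CE r N D
  obtain ⟨c₀, hc0, hc8, N₀, hN₀3, hfin⟩ := fin0 d n hn (B1 + 1) (δ / 2) (CE r N D) (by positivity) hC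
  obtain ⟨T₀, hT₀16, hT₀⟩ := final_ineq (C := CE r N D * ((n * d + d : ℕ) : ℝ)) (δ := δ)
    (by positivity) hδ
  obtain ⟨K, hK⟩ : ∃ K : ℕ, K = (D + 1) ^ m * ((r + 3 * r ^ 2) * D + 1) ^ D := ⟨_, rfl⟩
  have hK0 : 0 < K := by rw [hK]; positivity
  have ev : ∀ᶠ X : ℕ in atTop, 4 ≤ Real.log X ∧ ((2 * (r + 4 * r ^ 2) : ℕ) : ℝ) ≤ Real.log X ∧
      (T₀ : ℝ) ≤ Real.log X ∧ (K : ℝ) ≤ Real.log X := by
    have e1 : ∀ᶠ X : ℕ in atTop, (4 + ((2 * (r + 4 * r ^ 2) : ℕ) : ℝ) + T₀ + K) ≤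
        (Real.log X) ^ (1 : ℝ) := ev_log one_pos
    filter_upwards [e1] with X a1
    rw [Real.rpow_one] at a1
    have h1 : (0 : ℝ) ≤ ((2 * (r + 4 * r ^ 2) : ℕ) : ℝ) := Nat.cast_nonneg _
    have h2 : (0 : ℝ) ≤ T₀ := Nat.cast_nonneg _
    have h3 : (0 : ℝ) ≤ K := Nat.cast_nonneg _
    exact ⟨by linarith, by linarith, by linarith, by linarith⟩
  obtain ⟨X1, hX1⟩ := eventually_atTop.1 ev
  refine ⟨c₀ / 8, by positivity, max X1 N₀, fun X hX F _ _ hF f hf hfn hcoef M hM a b γ₀ γ₁ γ₂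
    ha0 habD hab h₀ h₁ h₂ => ?_⟩
  obtain ⟨hL4, hLr, hLT, hLK⟩ := hX1 X ((le_max_left _ _).trans hX)
  have hXN : N₀ ≤ X := (le_max_right _ _).trans hX
  have hX3 : 3 ≤ X := hN₀3.trans hXN
  have hX1' : (1 : ℝ) ≤ X := by exact_mod_cast (by omega : 1 ≤ X)
  have hX0 : (0 : ℝ) < X := by linarith
  have hL0 : 0 < Real.log X := by linarith
  have hL1 : 1 ≤ Real.log X := by linarith
  -- heights
  obtain ⟨H, hH⟩ : ∃ H : ℝ, H = Real.exp ((Real.log X) ^ B1) := ⟨_, rfl⟩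
  have hexp : Real.exp ((Real.log X) ^ B) ≤ H := by
    rw [hH, Real.exp_le_exp]
    exact Real.rpow_le_rpow_of_exponent_le hL1 hBB
  have hLB : Real.log X ≤ (Real.log X) ^ B1 := by
    calc Real.log X = (Real.log X) ^ (1 : ℝ) := (Real.rpow_one _).symm
      _ ≤ (Real.log X) ^ B1 := Real.rpow_le_rpow_of_exponent_le hL1 hB11
  have hKH' : (K : ℝ) * H ≤ Real.exp (2 * (Real.log X) ^ B1) := by
    have h1 : (K : ℝ) ≤ Real.exp ((Real.log X) ^ B1) := by
      have h2 := Real.add_one_le_exp ((Real.log X) ^ B1)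
      linarith
    calc (K : ℝ) * H ≤ Real.exp ((Real.log X) ^ B1) * Real.exp ((Real.log X) ^ B1) := by
          rw [hH]
          exact mul_le_mul_of_nonneg_right h1 (Real.exp_pos _).le
      _ = Real.exp (2 * (Real.log X) ^ B1) := by rw [← Real.exp_add]; congr 1; ring
  have hHR : ((K : ℝ) * H) ^ (r + 4 * r ^ 2) ≤ Real.exp ((Real.log X) ^ (B1 + 1)) := by
    refine (pow_le_pow_left₀ (by rw [hH]; positivity) hKH' _).trans ?_
    rw [← Real.exp_nat_mul, Real.exp_le_exp, Real.rpow_add_one hL0.ne']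
    have h1 : ((r + 4 * r ^ 2 : ℕ) : ℝ) * (2 * (Real.log X) ^ B1) =
        (Real.log X) ^ B1 * ((2 * (r + 4 * r ^ 2) : ℕ) : ℝ) := by
      push_cast
      ring
    rw [h1]
    exact mul_le_mul_of_nonneg_left hLr (by positivity)
  have hH2 : 2 ≤ H := by
    have h1 : (1 : ℝ) ≤ (Real.log X) ^ B1 := Real.one_le_rpow hL1 (by linarith)
    have h2 := Real.add_one_le_exp ((Real.log X) ^ B1)
    rw [hH]
    linarith
  have hHR1 : Real.exp ((Real.log X) ^ B) ≤ Real.exp ((Real.log X) ^ (B1 + 1)) := by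
    rw [Real.exp_le_exp]
    exact Real.rpow_le_rpow_of_exponent_le hL1 (by linarith)
  obtain ⟨T, hT⟩ : ∃ T : Fin M → HeightOneSpectrum (𝓞 F) → ℕ → ℂ, T = fun k v j =>
    av (a k) (fun i => b k i + MvPolynomial.C ((j : ℕ) : 𝓞 F)) (fun v => γ₀ k v.asIdeal)
      (fun v => γ₁ k v.asIdeal) (fun v => γ₂ k v.asIdeal) v := ⟨_, rfl⟩
  have hTle : ∀ k v j, ‖T k v j‖ ≤ CE r N D := by
    intro k v j
    rw [hT]
    exact (av_le _ _ (fun w j => h₀ k _ j) (fun w j => h₁ k _ j) (fun w j => h₂ k _ j) v).trans hCC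
  have hXc : (X : ℝ) ^ (c₀ / 8) ≤ (X : ℝ) ^ c₀ := Real.rpow_le_rpow_of_exponent_le hX1' (by linarith)
  have hcount := hfin X hXN F hF.symm f hf hfn (fun i σ => (hcoef i σ).trans hHR1) M (hM.trans hXc)
    T hTle
  refine le_trans ?_ (hcount.trans (Real.rpow_le_rpow_of_exponent_le hX1' (by linarith)))
  have hfinite : {t : ℤ | |t| ≤ X ∧ ¬ Concl0 F f t (CE r N D) (Real.exp ((Real.log X) ^ (B1 + 1)))
      (δ / 2) c₀ X M T}.Finite := by
    refine Set.Finite.subset (Set.finite_Icc (-(X : ℤ)) X) fun t ht => ?_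
    have := abs_le.1 ht.1
    exact ⟨this.1, this.2⟩
  have hsub : {t : ℤ | |t| ≤ X ∧ ¬ ∀ (L : Type) [Field L] [NumberField L] [Algebra F L] (θ : 𝓞 L),
          Gen (f + Polynomial.C (t : 𝓞 F)) θ → ∀ k,
            BF δ (c₀ / 8) X (a k) (b k) (γ₀ k) (γ₁ k) (γ₂ k) L θ} ⊆
      {t : ℤ | |t| ≤ X ∧ ¬ Concl0 F f t (CE r N D) (Real.exp ((Real.log X) ^ (B1 + 1)))
        (δ / 2) c₀ X M T} := by
    rintro t ⟨ht1, ht2⟩
    refine ⟨ht1, fun hcon => ht2 ?_⟩
    intro L _ _ _ θ hθ k x hx1 hx2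
    have hfinL : Module.finrank ℚ L = n * d := by
      have h1 := Module.finrank_mul_finrank ℚ F L
      rw [hθ.deg, Polynomial.natDegree_add_C, hfn, hF, mul_comm] at h1
      exact h1.symm
    have hcomp : ∀ w : HeightOneSpectrum (𝓞 L), (nm w).Prime → ∀ j ∈ range (nm w),
        θ - ((j : ℕ) : 𝓞 L) ∈ w.asIdeal →
        av (fun i => MvPolynomial.map (algebraMap (𝓞 F) (𝓞 L)) (a k i))
          (fun i => MvPolynomial.map (algebraMap (𝓞 F) (𝓞 L)) (b k i) + MvPolynomial.C θ)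
          (bc L (γ₀ k)) (bc L (γ₁ k)) (bc L (γ₂ k)) w = T k (und w) j := by
      intro w hw j _ hjw
      rw [hT]
      exact av_und (γ₀ k) (γ₁ k) (γ₂ k) hw hjw
    have hMH : MH (Real.exp ((Real.log X) ^ (B1 + 1))) (CE r N D) (T k)
        (hh (r + (eqP (a k) (b k)).card) (fun v => γ₀ k v.asIdeal) (fun v => γ₂ k v.asIdeal)) := by
      rw [hT]
      obtain ⟨d', hd1, hd2, hd3⟩ := mh_av (h₀ k) (h₁ k) (h₂ k) (fun i => (habD k i).1)
        (fun i => (habD k i).2) (ha0 k) hH2 (fun i e σ => (hab k i e σ).1.trans hexp)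
        (fun i e σ => (hab k i e σ).2.trans hexp)
      rw [← hK] at hd2
      exact ⟨d', hd1, fun σ => (hd2 σ).trans hHR, hd3⟩
    have hρ : r + (eqP (a k) (b k)).card ≤ r + r ^ 2 :=
      Nat.add_le_add_left ((card_le_card (filter_subset _ _)).trans (card_prs r)) _
    have hcgL : ∀ w : HeightOneSpectrum (𝓞 L),
        ‖av (fun i => MvPolynomial.map (algebraMap (𝓞 F) (𝓞 L)) (a k i))
          (fun i => MvPolynomial.map (algebraMap (𝓞 F) (𝓞 L)) (b k i) + MvPolynomial.C θ)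
          (bc L (γ₀ k)) (bc L (γ₁ k)) (bc L (γ₂ k)) w‖ ≤ CE r N D := fun w =>
      (av_le _ _ (bc_le (h₀ k)) (bc_le (h₁ k)) (bc_le (h₂ k)) w).trans hCC
    have hhF : ∀ v : HeightOneSpectrum (𝓞 F), ‖hh (r + (eqP (a k) (b k)).card)
        (fun v => γ₀ k v.asIdeal) (fun v => γ₂ k v.asIdeal) v‖ ≤ CE r N D := fun v =>
      (hh_le' hρ (fun w j => h₀ k _ j) (fun w j => h₂ k _ j) v).trans hCC
    have key := hcon L θ hθ k _ _ _ _ (ld_lin hC hcgL) (ld_lin hC hhF) hcomp hMH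
    -- the choice of `y`
    obtain ⟨y, hy⟩ : ∃ y : ℕ, y = ⌈(Real.log X) ^ (1 / c₀)⌉₊ := ⟨_, rfl⟩
    have hy1 : (Real.log X) ^ (1 / c₀) ≤ y := by rw [hy]; exact Nat.le_ceil _
    have hy2 : (y : ℝ) ≤ (Real.log X) ^ (1 / c₀) + 1 := by
      rw [hy]; exact (Nat.ceil_lt_add_one (by positivity)).le
    have e1 : (Real.log X) ^ (1 / (c₀ / 8)) = ((Real.log X) ^ (1 / c₀)) ^ (8 : ℝ) := by
      rw [← Real.rpow_mul hL0.le]
      congr 1
      field_simp
    have hq4 : 4 ≤ (Real.log X) ^ (1 / c₀) := by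
      calc (4 : ℝ) ≤ Real.log X := hL4
        _ = (Real.log X) ^ (1 : ℝ) := (Real.rpow_one _).symm
        _ ≤ (Real.log X) ^ (1 / c₀) := by
            refine Real.rpow_le_rpow_of_exponent_le hL1 ?_
            rw [le_div_iff₀ hc0]
            linarith
    rw [e1] at hx1
    have hx0 : (0 : ℝ) < x := lt_of_lt_of_le (by positivity) hx1
    have hyx4 : (y : ℝ) ≤ (x : ℝ) ^ (1 / 4 : ℝ) := by
      have h1 := Real.rpow_le_rpow (by positivity) hx1 (show (0 : ℝ) ≤ 1 / 4 by norm_num)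
      rw [← Real.rpow_mul (by positivity)] at h1
      refine le_trans ?_ h1
      rw [show (8 : ℝ) * (1 / 4) = (2 : ℕ) by norm_num, Real.rpow_natCast]
      nlinarith
    have hx1r : (1 : ℝ) ≤ x := by
      refine le_trans ?_ hx1
      exact Real.one_le_rpow (by linarith) (by norm_num)
    have hyx : y ≤ x := by
      have h1 : (y : ℝ) ≤ x := by
        refine hyx4.trans ?_
        calc (x : ℝ) ^ (1 / 4 : ℝ) ≤ (x : ℝ) ^ (1 : ℝ) :=
              Real.rpow_le_rpow_of_exponent_le hx1r (by norm_num)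
          _ = x := Real.rpow_one _
      exact_mod_cast h1
    have hxT : T₀ ≤ x := by
      have h1 : (T₀ : ℝ) ≤ x := by
        refine hLT.trans (le_trans ?_ hx1)
        rw [← Real.rpow_mul hL0.le]
        calc Real.log X = (Real.log X) ^ (1 : ℝ) := (Real.rpow_one _).symm
          _ ≤ _ := by
            refine Real.rpow_le_rpow_of_exponent_le hL1 ?_
            rw [div_mul_eq_mul_div, le_div_iff₀ hc0]
            linarith
      exact_mod_cast h1
    have hx2' : (x : ℝ) ≤ (X : ℝ) ^ c₀ := hx2.trans hXc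
    have hy0 : (1 : ℝ) ≤ y := by linarith
    have hfin2 := taub2 (L := L) (F := F) hC hcgL hhF hyx
      (show (0 : ℝ) ≤ 1 / 2 + δ / 2 by positivity) (E := 1) (fun u hu => by
        have h1 := key ((1 / 2 + δ / 2 : ℝ) : ℂ) (by rw [Complex.ofReal_re])
          (by rw [Complex.ofReal_im, abs_zero]; positivity) y u hy1
          (le_trans (by exact_mod_cast hu) hx2')
        refine h1.trans ?_
        exact Real.rpow_le_one_of_one_le_of_nonpos hy0 (by linarith))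
    rw [hfinL, hF] at hfin2
    refine hfin2.trans ?_
    have h7 := hT₀ x hxT y hyx4
    refine le_trans (le_of_eq ?_) h7
    ring
  exact_mod_cast Set.ncard_le_ncard hsub hfinite

end Pool.Agent.Y693.TP
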