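import Pool.Agent.Y693.TP.Mf
import Pool.Agent.Y693.RF.EC

/-!
# Averages over the fibres of a family
-/

set_option autoImplicit false

open Finset NumberField IsDedekindDomain Filter
open Pool.Agent.H921R2.TatePole (nm two_le_nm below deg nm_eq nm_summable fiber_card_le
  summable_primes_rpow card_above below_le_nm)
open Pool.Agent.Y770.EP (finite_quot card_quot FN mem_FN GG mem_GG FP mem_FP card_FP nm_mem Sys SP
  PR mem_PR nm_pos' Good pts tv tv_congr GD tv_bad coprime_notMem norm_sum_γ)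
open Pool.Agent.Y693.RF

namespace Pool.Agent.Y693.TP

section one
variable {M : Type} [Field M] [NumberField M] {r N m : ℕ}

/-- the normalised trace for coefficients in the residue field -/
noncomputable def tk (w : HeightOneSpectrum (𝓞 M)) (a b : 𝓞 M ⧸ w.asIdeal) : ℝ :=
  ((nm w : ℝ) - Nat.card {P : (𝓞 M ⧸ w.asIdeal) × (𝓞 M ⧸ w.asIdeal) //
    P.2 ^ 2 = P.1 ^ 3 + a * P.1 + b}) / √(nm w)

lemma tk_mk (a b : 𝓞 M) (w : HeightOneSpectrum (𝓞 M)) :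
    tk w (Ideal.Quotient.mk w.asIdeal a) (Ideal.Quotient.mk w.asIdeal b) = tv a b w := rfl

/-- good coefficients -/
def gk (w : HeightOneSpectrum (𝓞 M)) (α β : Fin r → 𝓞 M ⧸ w.asIdeal) : Prop :=
  ∀ i, 6 * (4 * α i ^ 3 + 27 * β i ^ 2) ≠ 0

lemma gk_mk (α β : Fin r → 𝓞 M) (w : HeightOneSpectrum (𝓞 M)) :
    gk w (fun i => Ideal.Quotient.mk w.asIdeal (α i)) (fun i => Ideal.Quotient.mk w.asIdeal (β i)) ↔
      GA α β w := by
  unfold gk GA GD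
  refine forall_congr' fun i => ?_
  rw [← Ideal.Quotient.eq_zero_iff_mem, map_mul, map_add, map_mul, map_mul, map_pow, map_pow,
    map_ofNat, map_ofNat, map_ofNat]

open Classical in
/-- the coefficient for one fibre -/
noncomputable def ck (w : HeightOneSpectrum (𝓞 M)) (α β : Fin r → 𝓞 M ⧸ w.asIdeal) (G₀ G₁ G₂ : ℂ) : ℂ :=
  if gk w α β then ((∑ x ∈ prs r, tk w (α x.1) (β x.1) * tk w (α x.2) (β x.2) + r : ℝ) : ℂ) * G₀ +
    ((∑ i, tk w (α i) (β i) : ℝ) : ℂ) * G₁ + G₂ else 0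

lemma ck_mk (α β : Fin r → 𝓞 M) (γ₀ γ₁ γ₂ : HeightOneSpectrum (𝓞 M) → Fin N → ℂ)
    (w : HeightOneSpectrum (𝓞 M)) :
    ck w (fun i => Ideal.Quotient.mk w.asIdeal (α i)) (fun i => Ideal.Quotient.mk w.asIdeal (β i))
      (∑ j, γ₀ w j) (∑ j, γ₁ w j) (∑ j, γ₂ w j) = cg α β γ₀ γ₁ γ₂ w := by
  unfold ck cg
  by_cases h : GA α β w
  · rw [if_pos h, if_pos ((gk_mk α β w).2 h)]
    rfl
  · rw [if_neg h, if_neg (fun h' => h ((gk_mk α β w).1 h'))]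

/-- lifting -/
lemma exists_lift {w : HeightOneSpectrum (𝓞 M)} (α : Fin r → 𝓞 M ⧸ w.asIdeal) :
    ∃ a : Fin r → 𝓞 M, α = fun i => Ideal.Quotient.mk w.asIdeal (a i) := by
  choose a ha using fun i => Ideal.Quotient.mk_surjective (α i)
  exact ⟨a, funext fun i => (ha i).symm⟩

lemma ck_le {γ₀ γ₁ γ₂ : HeightOneSpectrum (𝓞 M) → Fin N → ℂ}
    (h₀ : ∀ w j, ‖γ₀ w j‖ ≤ 1) (h₁ : ∀ w j, ‖γ₁ w j‖ ≤ 1) (h₂ : ∀ w j, ‖γ₂ w j‖ ≤ 1)
    (w : HeightOneSpectrum (𝓞 M)) (α β : Fin r → 𝓞 M ⧸ w.asIdeal) :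
    ‖ck w α β (∑ j, γ₀ w j) (∑ j, γ₁ w j) (∑ j, γ₂ w j)‖ ≤ CD r N := by
  obtain ⟨a, rfl⟩ := exists_lift α
  obtain ⟨b, rfl⟩ := exists_lift β
  rw [ck_mk]
  exact cg_le a b h₀ h₁ h₂ w

/-- specialisation of the coefficients -/
noncomputable def sp (w : HeightOneSpectrum (𝓞 M)) (P : MvPolynomial (Fin m) (𝓞 M))
    (u : Fin m → 𝓞 M ⧸ w.asIdeal) : 𝓞 M ⧸ w.asIdeal :=
  MvPolynomial.eval₂ (Ideal.Quotient.mk w.asIdeal) u P

/-- the average over the fibres -/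
noncomputable def av (A B : Fin r → MvPolynomial (Fin m) (𝓞 M))
    (γ₀ γ₁ γ₂ : HeightOneSpectrum (𝓞 M) → Fin N → ℂ) (w : HeightOneSpectrum (𝓞 M)) : ℂ :=
  (∑ᶠ u : Fin m → 𝓞 M ⧸ w.asIdeal, ck w (fun i => sp w (A i) u) (fun i => sp w (B i) u)
    (∑ j, γ₀ w j) (∑ j, γ₁ w j) (∑ j, γ₂ w j)) / (nm w : ℂ) ^ m

lemma card_u (w : HeightOneSpectrum (𝓞 M)) [Fintype (Fin m → 𝓞 M ⧸ w.asIdeal)] :
    Fintype.card (Fin m → 𝓞 M ⧸ w.asIdeal) = nm w ^ m := by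
  have := finite_quot w
  rw [← Nat.card_eq_fintype_card, Nat.card_fun, card_quot, Nat.card_eq_fintype_card, Fintype.card_fin]

lemma av_le (A B : Fin r → MvPolynomial (Fin m) (𝓞 M)) {γ₀ γ₁ γ₂ : HeightOneSpectrum (𝓞 M) → Fin N → ℂ}
    (h₀ : ∀ w j, ‖γ₀ w j‖ ≤ 1) (h₁ : ∀ w j, ‖γ₁ w j‖ ≤ 1) (h₂ : ∀ w j, ‖γ₂ w j‖ ≤ 1)
    (w : HeightOneSpectrum (𝓞 M)) : ‖av A B γ₀ γ₁ γ₂ w‖ ≤ CD r N := by
  classical
  have := finite_quot w
  let _ : Fintype (Fin m → 𝓞 M ⧸ w.asIdeal) := Fintype.ofFinite _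
  have hq := nm_pos' w
  unfold av
  rw [finsum_eq_sum_of_fintype, norm_div, norm_pow, Complex.norm_natCast, div_le_iff₀ (by positivity)]
  refine (norm_sum_le _ _).trans ?_
  refine (Finset.sum_le_card_nsmul _ _ (CD r N) fun u _ => ck_le h₀ h₁ h₂ w _ _).trans ?_
  rw [nsmul_eq_mul, card_univ, card_u, mul_comm]
  push_cast
  exact le_refl _

end one

section two
variable {F : Type} [Field F] [NumberField F] {L : Type} [Field L] [NumberField L] [Algebra F L]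
  {r N m : ℕ}

lemma tk_E {w : HeightOneSpectrum (𝓞 L)} {v : HeightOneSpectrum (𝓞 F)} (hn : nm w = nm v)
    (E : (𝓞 F ⧸ v.asIdeal) ≃+* (𝓞 L ⧸ w.asIdeal)) (a b : 𝓞 F ⧸ v.asIdeal) :
    tk w (E a) (E b) = tk v a b := by
  unfold tk
  rw [hn]
  have h : Nat.card {P : (𝓞 L ⧸ w.asIdeal) × (𝓞 L ⧸ w.asIdeal) // P.2 ^ 2 = P.1 ^ 3 + E a * P.1 + E b} =
      Nat.card {P : (𝓞 F ⧸ v.asIdeal) × (𝓞 F ⧸ v.asIdeal) // P.2 ^ 2 = P.1 ^ 3 + a * P.1 + b} := by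
    symm
    refine Nat.card_congr (Equiv.subtypeEquiv (Equiv.prodCongr E.toEquiv E.toEquiv) fun P => ?_)
    show _ ↔ (E P.2) ^ 2 = (E P.1) ^ 3 + E a * (E P.1) + E b
    rw [← map_pow, ← map_pow, ← map_mul, ← map_add, ← map_add, E.injective.eq_iff]
  rw [h]

lemma gk_E {w : HeightOneSpectrum (𝓞 L)} {v : HeightOneSpectrum (𝓞 F)}
    (E : (𝓞 F ⧸ v.asIdeal) ≃+* (𝓞 L ⧸ w.asIdeal)) (α β : Fin r → 𝓞 F ⧸ v.asIdeal) :
    gk w (fun i => E (α i)) (fun i => E (β i)) ↔ gk v α β := by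
  unfold gk
  refine forall_congr' fun i => not_congr ?_
  have h : (6 : 𝓞 L ⧸ w.asIdeal) * (4 * E (α i) ^ 3 + 27 * E (β i) ^ 2) =
      E (6 * (4 * α i ^ 3 + 27 * β i ^ 2)) := by
    simp only [map_mul, map_add, map_pow, map_ofNat]
  rw [h]
  exact EmbeddingLike.map_eq_zero_iff

lemma ck_E {w : HeightOneSpectrum (𝓞 L)} {v : HeightOneSpectrum (𝓞 F)} (hn : nm w = nm v)
    (E : (𝓞 F ⧸ v.asIdeal) ≃+* (𝓞 L ⧸ w.asIdeal)) (α β : Fin r → 𝓞 F ⧸ v.asIdeal) (G₀ G₁ G₂ : ℂ) :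
    ck w (fun i => E (α i)) (fun i => E (β i)) G₀ G₁ G₂ = ck v α β G₀ G₁ G₂ := by
  unfold ck
  simp only [tk_E hn E]
  by_cases h : gk v α β
  · rw [if_pos h, if_pos ((gk_E E α β).2 h)]
  · rw [if_neg h, if_neg (fun h' => h ((gk_E E α β).1 h'))]

/-- compatibility of the averages -/
lemma av_und {A B : Fin r → MvPolynomial (Fin m) (𝓞 F)} {θ : 𝓞 L} {j : ℕ}
    (γ₀ γ₁ γ₂ : Ideal (𝓞 F) → Fin N → ℂ) {w : HeightOneSpectrum (𝓞 L)} (hp : (nm w).Prime)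
    (hj : θ - ((j : ℕ) : 𝓞 L) ∈ w.asIdeal) :
    av (fun i => MvPolynomial.map (algebraMap (𝓞 F) (𝓞 L)) (A i))
      (fun i => MvPolynomial.map (algebraMap (𝓞 F) (𝓞 L)) (B i) + MvPolynomial.C θ)
      (bc L γ₀) (bc L γ₁) (bc L γ₂) w =
      av A (fun i => B i + MvPolynomial.C ((j : ℕ) : 𝓞 F)) (fun v => γ₀ v.asIdeal)
        (fun v => γ₁ v.asIdeal) (fun v => γ₂ v.asIdeal) (und w) := by
  classical
  have := finite_quot w
  have := finite_quot (und w : HeightOneSpectrum (𝓞 F))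
  let _ : Fintype (Fin m → 𝓞 L ⧸ w.asIdeal) := Fintype.ofFinite _
  let _ : Fintype (Fin m → 𝓞 F ⧸ (und w : HeightOneSpectrum (𝓞 F)).asIdeal) := Fintype.ofFinite _
  have hn : nm w = nm (und w : HeightOneSpectrum (𝓞 F)) := (nm_und hp rfl).symm
  obtain ⟨E, hE⟩ : ∃ E : (𝓞 F ⧸ (und w : HeightOneSpectrum (𝓞 F)).asIdeal) ≃+* (𝓞 L ⧸ w.asIdeal),
      ∀ x, E (Ideal.Quotient.mk _ x) = Ideal.Quotient.mk w.asIdeal (algebraMap (𝓞 F) (𝓞 L) x) :=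
    ⟨RingEquiv.ofBijective (res w) (res_bij hp rfl), fun x => res_mk w x⟩
  unfold av
  rw [finsum_eq_sum_of_fintype, finsum_eq_sum_of_fintype, ← hn]
  congr 1
  simp only [bc_und _ hp rfl]
  rw [← Equiv.sum_comp (Equiv.arrowCongr (Equiv.refl (Fin m)) E.toEquiv)]
  refine Finset.sum_congr rfl fun u _ => ?_
  have hu : (Equiv.arrowCongr (Equiv.refl (Fin m)) E.toEquiv) u = fun i => E (u i) := rfl
  rw [hu]
  have hA : ∀ P : MvPolynomial (Fin m) (𝓞 F),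
      sp w (MvPolynomial.map (algebraMap (𝓞 F) (𝓞 L)) P) (fun i => E (u i)) =
        E (sp (und w : HeightOneSpectrum (𝓞 F)) P u) := by
    intro P
    unfold sp
    rw [MvPolynomial.eval₂_map]
    have h1 : (Ideal.Quotient.mk w.asIdeal).comp (algebraMap (𝓞 F) (𝓞 L)) =
        (E : (𝓞 F ⧸ (und w : HeightOneSpectrum (𝓞 F)).asIdeal) →+* (𝓞 L ⧸ w.asIdeal)).comp
          (Ideal.Quotient.mk (und w : HeightOneSpectrum (𝓞 F)).asIdeal) := by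
      ext x
      simp [hE]
    rw [h1]
    exact (MvPolynomial.eval₂_comp_left
      (E : (𝓞 F ⧸ (und w : HeightOneSpectrum (𝓞 F)).asIdeal) →+* (𝓞 L ⧸ w.asIdeal)) _ u P).symm
  have hB : ∀ P : MvPolynomial (Fin m) (𝓞 F),
      sp w (MvPolynomial.map (algebraMap (𝓞 F) (𝓞 L)) P + MvPolynomial.C θ) (fun i => E (u i)) =
        E (sp (und w : HeightOneSpectrum (𝓞 F)) (P + MvPolynomial.C ((j : ℕ) : 𝓞 F)) u) := by
    intro P
    have h1 := hA P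
    unfold sp at h1 ⊢
    rw [MvPolynomial.eval₂_add, MvPolynomial.eval₂_add, map_add, h1, MvPolynomial.eval₂_C,
      MvPolynomial.eval₂_C, hE, map_natCast]
    congr 1
    exact Ideal.Quotient.eq.2 hj
  simp only [hA, hB]
  exact ck_E hn E _ _ _ _ _

end two

section three
variable {F : Type} [Field F] [NumberField F] {r N m : ℕ}

/-- the number of zeros of a polynomial -/
lemma zeros_le {v : HeightOneSpectrum (𝓞 F)} [Fintype (Fin m → 𝓞 F ⧸ v.asIdeal)]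
    [DecidableEq (𝓞 F ⧸ v.asIdeal)] {P : MvPolynomial (Fin m) (𝓞 F ⧸ v.asIdeal)}
    (hP : P ≠ 0) {D : ℕ} (hD : P.totalDegree ≤ D) :
    ((univ.filter fun u : Fin m → 𝓞 F ⧸ v.asIdeal => MvPolynomial.eval u P = 0).card : ℝ) ≤
      D / nm v * (nm v : ℝ) ^ m := by
  classical
  have := finite_quot v
  have : v.asIdeal.IsMaximal := v.isMaximal
  let _ : Field (𝓞 F ⧸ v.asIdeal) := Ideal.Quotient.field v.asIdeal
  let _ : Fintype (𝓞 F ⧸ v.asIdeal) := Fintype.ofFinite _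
  have hq := nm_pos' v
  have hcard : Fintype.card (𝓞 F ⧸ v.asIdeal) = nm v := by
    rw [← card_quot, Nat.card_eq_fintype_card]
  have h1 := MvPolynomial.schwartz_zippel_totalDegree hP (univ : Finset (𝓞 F ⧸ v.asIdeal))
  rw [card_univ, hcard] at h1
  have h2 : (Fintype.piFinset fun _ : Fin m => (univ : Finset (𝓞 F ⧸ v.asIdeal))) = univ := by
    ext x
    simp
  rw [h2] at h1
  have h3 : ((univ.filter fun u : Fin m → 𝓞 F ⧸ v.asIdeal => MvPolynomial.eval u P = 0).card : ℝ) /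
      (nm v : ℝ) ^ m ≤ P.totalDegree / nm v := by
    have h4 := (NNRat.cast_le (K := ℝ)).2 h1
    push_cast at h4
    convert h4 using 2
  rw [div_le_iff₀ (by positivity)] at h3
  refine h3.trans (mul_le_mul_of_nonneg_right ?_ (by positivity))
  exact div_le_div_of_nonneg_right (by exact_mod_cast hD) hq.le

end three

end Pool.Agent.Y693.TP
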