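import Pool.Agent.Y693.TP.Fb
import Pool.Agent.Y693.TP.Asm
import Mathlib.Combinatorics.Nullstellensatz

/-!
# The mean values of the averages over the fibres
-/

set_option autoImplicit false

open Finset NumberField IsDedekindDomain Filter
open Pool.Agent.H921R2.TatePole (nm two_le_nm below deg nm_eq nm_summable fiber_card_le
  summable_primes_rpow card_above below_le_nm)
open Pool.Agent.Y770.EP (finite_quot card_quot FN mem_FN GG mem_GG FP mem_FP card_FP nm_mem Sys SP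
  PR mem_PR nm_pos' Good pts tv tv_congr GD tv_bad coprime_notMem norm_sum_γ ev_rpow ev_log)
open Pool.Agent.Y693.RF

namespace Pool.Agent.Y693.TP

variable {F : Type} [Field F] [NumberField F] {r N m : ℕ}

lemma sp_eq (v : HeightOneSpectrum (𝓞 F)) (P : MvPolynomial (Fin m) (𝓞 F))
    (u : Fin m → 𝓞 F ⧸ v.asIdeal) :
    sp v P u = MvPolynomial.eval u (MvPolynomial.map (Ideal.Quotient.mk v.asIdeal) P) := by
  unfold sp
  rw [MvPolynomial.eval_map]

lemma sp_sub (v : HeightOneSpectrum (𝓞 F)) (P Q : MvPolynomial (Fin m) (𝓞 F))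
    (u : Fin m → 𝓞 F ⧸ v.asIdeal) : sp v (P - Q) u = sp v P u - sp v Q u := by
  rw [sp_eq, sp_eq, sp_eq, map_sub, map_sub]

lemma sp_pow (v : HeightOneSpectrum (𝓞 F)) (P : MvPolynomial (Fin m) (𝓞 F)) (n : ℕ)
    (u : Fin m → 𝓞 F ⧸ v.asIdeal) : sp v (P ^ n) u = sp v P u ^ n := by
  rw [sp_eq, sp_eq, map_pow, map_pow]

lemma sp_addC (v : HeightOneSpectrum (𝓞 F)) (P : MvPolynomial (Fin m) (𝓞 F)) (c : 𝓞 F)
    (u : Fin m → 𝓞 F ⧸ v.asIdeal) :
    sp v (P + MvPolynomial.C c) u = sp v P u + Ideal.Quotient.mk v.asIdeal c := by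
  unfold sp
  rw [MvPolynomial.eval₂_add, MvPolynomial.eval₂_C]

lemma totalDegree_map_le' (v : HeightOneSpectrum (𝓞 F)) (P : MvPolynomial (Fin m) (𝓞 F)) :
    (MvPolynomial.map (Ideal.Quotient.mk v.asIdeal) P).totalDegree ≤ P.totalDegree :=
  Finset.sup_mono (MvPolynomial.support_map_subset _ _)

open Classical in
lemma zeros_sp {v : HeightOneSpectrum (𝓞 F)} [Fintype (Fin m → 𝓞 F ⧸ v.asIdeal)]
    {P : MvPolynomial (Fin m) (𝓞 F)} (hP : MvPolynomial.map (Ideal.Quotient.mk v.asIdeal) P ≠ 0)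
    {D : ℕ} (hD : P.totalDegree ≤ D) :
    ((univ.filter fun u : Fin m → 𝓞 F ⧸ v.asIdeal => sp v P u = 0).card : ℝ) ≤
      D / nm v * (nm v : ℝ) ^ m := by
  have h := zeros_le hP ((totalDegree_map_le' v P).trans hD)
  simp only [sp_eq]
  exact h

/-- the constant -/
noncomputable def CE (r N D : ℕ) : ℝ := CD r N * (1 + 2 * (((r + 3 * r ^ 2) * D : ℕ) : ℝ))

lemma CE_nonneg (r N D : ℕ) : 0 ≤ CE r N D := mul_nonneg (CD_nonneg r N) (by positivity)

lemma CD_le_CE (r N D : ℕ) : CD r N ≤ CE r N D := by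
  unfold CE
  refine le_mul_of_one_le_right (CD_nonneg r N) ?_
  have : (0 : ℝ) ≤ (((r + 3 * r ^ 2) * D : ℕ) : ℝ) := Nat.cast_nonneg _
  linarith

/-- **The mean values of the averages over the fibres.** -/
theorem mean_av {A B : Fin r → MvPolynomial (Fin m) (𝓞 F)}
    {γ₀ γ₁ γ₂ : HeightOneSpectrum (𝓞 F) → Fin N → ℂ}
    (h₀ : ∀ w j, ‖γ₀ w j‖ ≤ 1) (h₁ : ∀ w j, ‖γ₁ w j‖ ≤ 1) (h₂ : ∀ w j, ‖γ₂ w j‖ ≤ 1) {D : ℕ}
    (hA : ∀ i, (A i).totalDegree ≤ D) (hB : ∀ i, (B i).totalDegree ≤ D)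
    {S : Finset (Fin r × Fin r)}
    (hS : S ⊆ prs r) {v : HeightOneSpectrum (𝓞 F)} {p : ℕ} (hp : p.Prime) (hv : nm v = p) (h3 : 3 < p)
    (ha : ∀ i, MvPolynomial.map (Ideal.Quotient.mk v.asIdeal) (A i) ≠ 0)
    (hs : ∀ x ∈ S, A x.1 ^ 3 = A x.2 ^ 3 ∧ B x.1 = B x.2)
    (hn : ∀ x ∈ prs r, x ∉ S → MvPolynomial.map (Ideal.Quotient.mk v.asIdeal) (A x.1 ^ 3 - A x.2 ^ 3) ≠ 0 ∨
      MvPolynomial.map (Ideal.Quotient.mk v.asIdeal) (B x.1 - B x.2) ≠ 0) :
    ‖mu (fun j => av A (fun i => B i + MvPolynomial.C ((j : ℕ) : 𝓞 F)) γ₀ γ₁ γ₂ v) p -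
      hh (r + S.card) γ₀ γ₂ v‖ ≤ CE r N D * (p : ℝ) ^ (-(1 / 2) : ℝ) := by
  classical
  have := finite_quot v
  let _ : Fintype (Fin m → 𝓞 F ⧸ v.asIdeal) := Fintype.ofFinite _
  have hC := CD_nonneg r N
  have hp0 : (0 : ℝ) < p := by exact_mod_cast hp.pos
  have hp1 : (1 : ℝ) ≤ p := by exact_mod_cast hp.one_lt.le
  have hpc : (p : ℂ) ≠ 0 := by exact_mod_cast hp.ne_zero
  have hε : r + S.card ≤ r + r ^ 2 := Nat.add_le_add_left ((card_le_card hS).trans (card_prs r)) _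
  obtain ⟨c, hc⟩ : ∃ c : (Fin m → 𝓞 F ⧸ v.asIdeal) → ℕ → ℂ, c = fun u j =>
    ck v (fun i => sp v (A i) u) (fun i => sp v (B i + MvPolynomial.C ((j : ℕ) : 𝓞 F)) u)
      (∑ j, γ₀ v j) (∑ j, γ₁ v j) (∑ j, γ₂ v j) := ⟨_, rfl⟩
  obtain ⟨f, hf⟩ : ∃ f : (Fin m → 𝓞 F ⧸ v.asIdeal) → ℂ, f = fun u =>
    mu (c u) p - hh (r + S.card) γ₀ γ₂ v := ⟨_, rfl⟩
  have hcard : (Fintype.card (Fin m → 𝓞 F ⧸ v.asIdeal) : ℂ) = (p : ℂ) ^ m := by
    rw [card_u, hv]
    push_cast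
    rfl
  -- the whole is the mean of the parts
  have e1 : mu (fun j => av A (fun i => B i + MvPolynomial.C ((j : ℕ) : 𝓞 F)) γ₀ γ₁ γ₂ v) p -
      hh (r + S.card) γ₀ γ₂ v = (∑ u, f u) / (p : ℂ) ^ m := by
    have e2 : ∀ j : ℕ, av A (fun i => B i + MvPolynomial.C ((j : ℕ) : 𝓞 F)) γ₀ γ₁ γ₂ v =
        (∑ u, c u j) / (p : ℂ) ^ m := by
      intro j
      unfold av
      rw [finsum_eq_sum_of_fintype, hv, hc]
    unfold mu
    rw [Finset.sum_congr rfl fun j _ => e2 j, ← Finset.sum_div, Finset.sum_comm, hf]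
    unfold mu
    rw [Finset.sum_sub_distrib, ← Finset.sum_div, Finset.sum_const, card_univ, nsmul_eq_mul, hcard]
    have hpm : (p : ℂ) ^ m ≠ 0 := pow_ne_zero _ hpc
    field_simp
  -- the good fibres
  obtain ⟨Z, hZ⟩ : ∃ Z : Finset (Fin m → 𝓞 F ⧸ v.asIdeal), Z = univ.filter fun u =>
    (∃ i, sp v (A i) u = 0) ∨ ∃ x ∈ prs r, x ∉ S ∧ sp v (A x.1 ^ 3 - A x.2 ^ 3) u = 0 ∧
      sp v (B x.1 - B x.2) u = 0 := ⟨_, rfl⟩
  have hgood : ∀ u ∉ Z, ‖f u‖ ≤ CD r N * (p : ℝ) ^ (-(1 / 2) : ℝ) := by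
    intro u hu
    rw [hZ, mem_filter] at hu
    push Not at hu
    obtain ⟨hu1, hu2⟩ := hu (mem_univ u)
    obtain ⟨a, hau⟩ := exists_lift (fun i => sp v (A i) u)
    obtain ⟨b, hbu⟩ := exists_lift (fun i => sp v (B i) u)
    have hau' : ∀ i, sp v (A i) u = Ideal.Quotient.mk v.asIdeal (a i) := fun i => congrFun hau i
    have hbu' : ∀ i, sp v (B i) u = Ideal.Quotient.mk v.asIdeal (b i) := fun i => congrFun hbu i
    have e2 : c u = fun j : ℕ => cg a (fun i => b i + ((j : ℕ) : 𝓞 F)) γ₀ γ₁ γ₂ v := by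
      have hB' : ∀ j : ℕ, (fun i => sp v (B i + MvPolynomial.C ((j : ℕ) : 𝓞 F)) u) =
          fun i => Ideal.Quotient.mk v.asIdeal (b i + ((j : ℕ) : 𝓞 F)) :=
        fun j => funext fun i => by rw [sp_addC, hbu', map_add]
      rw [hc]
      funext j
      rw [← ck_mk]
      dsimp only
      rw [hau, hB' j]
    rw [hf]
    dsimp only
    rw [e2]
    refine mean_cg' h₀ h₁ h₂ hS hp hv h3 (fun i hi => ?_) (fun x hx => ?_) (fun x hx hxS hcon => ?_)
    · exact hu1 i (by rw [hau']; exact Ideal.Quotient.eq_zero_iff_mem.2 hi)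
    · obtain ⟨g1, g2⟩ := hs x hx
      constructor
      · rw [← Ideal.Quotient.eq_zero_iff_mem, map_sub, map_pow, map_pow, ← hau', ← hau', ← sp_pow,
          ← sp_pow, g1, sub_self]
      · rw [← Ideal.Quotient.eq_zero_iff_mem, map_sub, ← hbu', ← hbu', g2, sub_self]
    · refine hu2 x hx hxS ?_ ?_
      · rw [sp_sub, sp_pow, sp_pow, hau', hau', ← map_pow, ← map_pow, ← map_sub]
        exact Ideal.Quotient.eq_zero_iff_mem.2 hcon.1
      · rw [sp_sub, hbu', hbu', ← map_sub]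
        exact Ideal.Quotient.eq_zero_iff_mem.2 hcon.2
  have hbad : ∀ u, ‖f u‖ ≤ 2 * CD r N := by
    intro u
    rw [hf]
    refine (norm_sub_le _ _).trans ?_
    have h5 : ‖mu (c u) p‖ ≤ CD r N := norm_mu (fun j => by rw [hc]; exact ck_le h₀ h₁ h₂ v _ _) hp.pos
    have h6 := hh_le' hε h₀ h₂ v
    linarith
  have hZc : (Z.card : ℝ) ≤ (((r + 3 * r ^ 2) * D : ℕ) : ℝ) / p * (p : ℝ) ^ m := by
    have h5 : Z ⊆ (univ.biUnion fun i : Fin r => univ.filter fun u => sp v (A i) u = 0) ∪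
        ((prs r).filter fun x => x ∉ S).biUnion fun x => univ.filter fun u =>
          sp v (A x.1 ^ 3 - A x.2 ^ 3) u = 0 ∧ sp v (B x.1 - B x.2) u = 0 := by
      intro u hu
      rw [hZ, mem_filter] at hu
      rcases hu.2 with ⟨i, hi⟩ | ⟨x, hx, hxS, g1, g2⟩
      · exact mem_union_left _ (mem_biUnion.2 ⟨i, mem_univ i, mem_filter.2 ⟨mem_univ u, hi⟩⟩)
      · exact mem_union_right _ (mem_biUnion.2 ⟨x, mem_filter.2 ⟨hx, hxS⟩,
          mem_filter.2 ⟨mem_univ u, g1, g2⟩⟩)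
    have h6 : ∀ i : Fin r, ((univ.filter fun u : Fin m → 𝓞 F ⧸ v.asIdeal => sp v (A i) u = 0).card : ℝ) ≤
        D / p * (p : ℝ) ^ m := by
      intro i
      have := zeros_sp (ha i) (hA i)
      rwa [hv] at this
    have h7 : ∀ x ∈ (prs r).filter (fun x => x ∉ S),
        ((univ.filter fun u : Fin m → 𝓞 F ⧸ v.asIdeal => sp v (A x.1 ^ 3 - A x.2 ^ 3) u = 0 ∧
          sp v (B x.1 - B x.2) u = 0).card : ℝ) ≤ ((3 * D : ℕ) : ℝ) / p * (p : ℝ) ^ m := by
      intro x hx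
      rw [mem_filter] at hx
      rcases hn x hx.1 hx.2 with g | g
      · have hd : (A x.1 ^ 3 - A x.2 ^ 3).totalDegree ≤ 3 * D := by
          refine (MvPolynomial.totalDegree_sub _ _).trans (max_le ?_ ?_)
          · exact (MvPolynomial.totalDegree_pow _ _).trans (Nat.mul_le_mul_left 3 (hA _))
          · exact (MvPolynomial.totalDegree_pow _ _).trans (Nat.mul_le_mul_left 3 (hA _))
        have h8 := zeros_sp g hd
        rw [hv] at h8
        refine le_trans ?_ h8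
        exact_mod_cast card_le_card fun u hu => by
          rw [mem_filter] at hu ⊢
          exact ⟨hu.1, hu.2.1⟩
      · have hd : (B x.1 - B x.2).totalDegree ≤ 3 * D := by
          refine (MvPolynomial.totalDegree_sub _ _).trans (max_le ?_ ?_)
          · exact (hB _).trans (by omega)
          · exact (hB _).trans (by omega)
        have h8 := zeros_sp g hd
        rw [hv] at h8
        refine le_trans ?_ h8
        exact_mod_cast card_le_card fun u hu => by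
          rw [mem_filter] at hu ⊢
          exact ⟨hu.1, hu.2.2⟩
    have h8 : (Z.card : ℝ) ≤ ∑ i : Fin r, (D / p * (p : ℝ) ^ m) +
        ∑ x ∈ (prs r).filter (fun x => x ∉ S), (((3 * D : ℕ) : ℝ) / p * (p : ℝ) ^ m) := by
      have h9 : (Z.card : ℝ) ≤ ((∑ i : Fin r, (univ.filter fun u : Fin m → 𝓞 F ⧸ v.asIdeal =>
          sp v (A i) u = 0).card + ∑ x ∈ (prs r).filter (fun x => x ∉ S),
            (univ.filter fun u : Fin m → 𝓞 F ⧸ v.asIdeal => sp v (A x.1 ^ 3 - A x.2 ^ 3) u = 0 ∧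
              sp v (B x.1 - B x.2) u = 0).card : ℕ) : ℝ) := by
        exact_mod_cast (card_le_card h5).trans ((card_union_le _ _).trans
          (Nat.add_le_add card_biUnion_le card_biUnion_le))
      refine h9.trans ?_
      push_cast
      refine add_le_add (Finset.sum_le_sum fun i _ => h6 i) (Finset.sum_le_sum fun x hx => ?_)
      have := h7 x hx
      push_cast at this
      exact this
    refine h8.trans ?_
    rw [Finset.sum_const, Finset.sum_const, card_univ, Fintype.card_fin, nsmul_eq_mul, nsmul_eq_mul]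
    have h9 : (((prs r).filter (fun x => x ∉ S)).card : ℝ) ≤ (r : ℝ) ^ 2 := by
      exact_mod_cast (card_filter_le _ _).trans (card_prs r)
    have h10 : (0 : ℝ) ≤ ((3 * D : ℕ) : ℝ) / p * (p : ℝ) ^ m := by positivity
    refine (add_le_add_right (mul_le_mul_of_nonneg_right h9 h10) _).trans (le_of_eq ?_)
    push_cast
    ring
  rw [e1, norm_div, norm_pow, Complex.norm_natCast, div_le_iff₀ (by positivity)]
  have h5 : ‖∑ u, f u‖ ≤ ∑ u ∈ univ.filter (fun u => u ∉ Z), CD r N * (p : ℝ) ^ (-(1 / 2) : ℝ) +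
      ∑ u ∈ univ.filter (fun u => ¬ u ∉ Z), 2 * CD r N := by
    rw [← Finset.sum_filter_add_sum_filter_not univ (fun u => u ∉ Z)]
    refine (norm_add_le _ _).trans (add_le_add ?_ ?_)
    · exact (norm_sum_le _ _).trans (Finset.sum_le_sum fun u hu => hgood u (mem_filter.1 hu).2)
    · exact (norm_sum_le _ _).trans (Finset.sum_le_sum fun u _ => hbad u)
  refine h5.trans ?_
  rw [Finset.sum_const, Finset.sum_const, nsmul_eq_mul, nsmul_eq_mul]
  have h6 : ((univ.filter fun u : Fin m → 𝓞 F ⧸ v.asIdeal => u ∉ Z).card : ℝ) ≤ (p : ℝ) ^ m := by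
    have h7 : (univ.filter fun u : Fin m → 𝓞 F ⧸ v.asIdeal => u ∉ Z).card ≤
        Fintype.card (Fin m → 𝓞 F ⧸ v.asIdeal) := (card_filter_le _ _).trans (by rw [card_univ])
    rw [card_u, hv] at h7
    exact_mod_cast h7
  have h7 : (univ.filter fun u : Fin m → 𝓞 F ⧸ v.asIdeal => ¬ u ∉ Z) = Z := by
    ext u
    simp
  rw [h7]
  have h8 : (p : ℝ)⁻¹ ≤ (p : ℝ) ^ (-(1 / 2) : ℝ) := by
    rw [← Real.rpow_neg_one]
    exact Real.rpow_le_rpow_of_exponent_le hp1 (by norm_num)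
  have h9 : (Z.card : ℝ) ≤ (((r + 3 * r ^ 2) * D : ℕ) : ℝ) * (p : ℝ) ^ (-(1 / 2) : ℝ) * (p : ℝ) ^ m := by
    refine hZc.trans ?_
    rw [div_eq_mul_inv]
    exact mul_le_mul_of_nonneg_right (mul_le_mul_of_nonneg_left h8 (Nat.cast_nonneg _)) (by positivity)
  have h10 := mul_le_mul_of_nonneg_right h6 (show 0 ≤ CD r N * (p : ℝ) ^ (-(1 / 2) : ℝ) by positivity)
  have h11 := mul_le_mul_of_nonneg_right h9 (show 0 ≤ 2 * CD r N by positivity)
  refine (add_le_add h10 h11).trans (le_of_eq ?_)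
  unfold CE
  ring

end Pool.Agent.Y693.TP
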