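import Pool.Agent.Y693.TP.Cg

/-!
# The mean values, with conditions modulo the prime only
-/

set_option autoImplicit false

open Finset NumberField IsDedekindDomain Polynomial Filter
open Pool.Agent.H921R2.TatePole (nm two_le_nm below deg nm_eq nm_summable fiber_card_le
  summable_primes_rpow card_above below_le_nm)
open Pool.Agent.Y770.EP (finite_quot card_quot FN mem_FN GG mem_GG FP mem_FP card_FP nm_mem Sys SP
  PR mem_PR nm_pos' Good pts tv tv_congr GD tv_bad coprime_notMem norm_sum_γ)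
open Pool.Agent.Y693.RF

namespace Pool.Agent.Y693.TP

section two
variable {F : Type} [Field F] [NumberField F] {r N : ℕ}

/-- **The mean value of the coefficients.** -/
theorem mean_cf' {a b : Fin r → 𝓞 F} {γ γ' : HeightOneSpectrum (𝓞 F) → Fin N → ℂ}
    (hγ : ∀ w j, ‖γ w j‖ ≤ 1) (hγ' : ∀ w j, ‖γ' w j‖ ≤ 1) {S : Finset (Fin r × Fin r)}
    (hS : S ⊆ prs r) {v : HeightOneSpectrum (𝓞 F)} {p : ℕ} (hp : p.Prime) (hv : nm v = p) (h3 : 3 < p)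
    (ha : ∀ i, a i ∉ v.asIdeal) (hs : ∀ x ∈ S, a x.1 ^ 3 - a x.2 ^ 3 ∈ v.asIdeal ∧ b x.1 - b x.2 ∈ v.asIdeal)
    (hn : ∀ x ∈ prs r, x ∉ S → ¬ (a x.1 ^ 3 - a x.2 ^ 3 ∈ v.asIdeal ∧ b x.1 - b x.2 ∈ v.asIdeal)) :
    ‖mu (fun j => cf S.card a (fun i => b i + ((j : ℕ) : 𝓞 F)) γ γ' v) p‖ ≤
      CC r N * (p : ℝ) ^ (-(1 / 2) : ℝ) := by
  classical
  have hr : (0 : ℝ) ≤ r := Nat.cast_nonneg r
  have hN : (0 : ℝ) ≤ N := Nat.cast_nonneg N
  have hp0 : (0 : ℝ) < p := by exact_mod_cast hp.pos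
  have hsq : 1 ≤ √(p : ℝ) := by
    rw [Real.one_le_sqrt]
    exact_mod_cast hp.one_lt.le
  have hε : S.card ≤ r ^ 2 := (card_le_card hS).trans (card_prs r)
  have h2 : ∀ (j : ℕ) (i : Fin r), |tv (a i) (b i + ((j : ℕ) : 𝓞 F)) v| ≤ 2 := fun j i =>
    tv_two hp hv h3
  obtain ⟨Q, hQ⟩ : ∃ Q : ℕ → ℝ, Q = fun j => qd a (fun i => b i + ((j : ℕ) : 𝓞 F)) v - S.card := ⟨_, rfl⟩
  obtain ⟨Ln, hLn⟩ : ∃ Ln : ℕ → ℝ, Ln = fun j => ln a (fun i => b i + ((j : ℕ) : 𝓞 F)) v := ⟨_, rfl⟩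
  obtain ⟨B, hB⟩ : ∃ B : Finset ℕ, B = (range p).filter
    (fun j : ℕ => ¬ GA a (fun i => b i + ((j : ℕ) : 𝓞 F)) v) := ⟨_, rfl⟩
  have hQb : ∀ j, |Q j| ≤ 5 * (r : ℝ) ^ 2 := fun j => by
    rw [hQ]; exact qd_sub_le hε (h2 j)
  have hLb : ∀ j, |Ln j| ≤ 2 * (r : ℝ) := fun j => by
    rw [hLn]; exact ln_le (h2 j)
  have hBc : (B.card : ℝ) ≤ 2 * r := by
    have h4 : B ⊆ univ.biUnion fun i : Fin r =>
        (range p).filter (fun j : ℕ => ¬ GD (a i) (b i + ((j : ℕ) : 𝓞 F)) v) := by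
      intro j hj
      rw [hB, mem_filter] at hj
      obtain ⟨h5, h6⟩ := hj
      unfold GA at h6
      push Not at h6
      obtain ⟨i, hi⟩ := h6
      exact mem_biUnion.2 ⟨i, mem_univ i, mem_filter.2 ⟨h5, hi⟩⟩
    have h5 : B.card ≤ ∑ i : Fin r, 2 := (card_le_card h4).trans (card_biUnion_le.trans
      (Finset.sum_le_sum fun i _ => card_bad_pencil (a i) (b i) hp hv h3))
    rw [Finset.sum_const, card_univ, Fintype.card_fin, smul_eq_mul] at h5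
    have : (B.card : ℝ) ≤ ((r * 2 : ℕ) : ℝ) := by exact_mod_cast h5
    push_cast at this
    linarith
  have e1 : ∑ j ∈ range p, cf S.card a (fun i => b i + ((j : ℕ) : 𝓞 F)) γ γ' v =
      ((∑ j ∈ range p, Q j - ∑ j ∈ B, Q j : ℝ) : ℂ) * ∑ j, γ v j +
      ((∑ j ∈ range p, Ln j - ∑ j ∈ B, Ln j : ℝ) : ℂ) * ∑ j, γ' v j := by
    have e2 : ∀ g : ℕ → ℝ, ∑ j ∈ range p, g j - ∑ j ∈ B, g j =
        ∑ j ∈ (range p).filter (fun j : ℕ => GA a (fun i => b i + ((j : ℕ) : 𝓞 F)) v), g j := by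
      intro g
      rw [hB, sub_eq_iff_eq_add, Finset.sum_filter_add_sum_filter_not]
    rw [e2, e2]
    push_cast
    rw [Finset.sum_mul, Finset.sum_mul, ← Finset.sum_add_distrib, Finset.sum_filter]
    refine Finset.sum_congr rfl fun j _ => ?_
    unfold cf
    rw [hQ, hLn]
  have h4 : |∑ j ∈ range p, Q j| ≤ 23 * (r : ℝ) ^ 2 * √p := by
    have e3 : ∑ j ∈ range p, Q j = ∑ x ∈ prs r, (∑ j ∈ range p,
        tv (a x.1) (b x.1 + ((j : ℕ) : 𝓞 F)) v * tv (a x.2) (b x.2 + ((j : ℕ) : 𝓞 F)) v -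
          if x ∈ S then (p : ℝ) else 0) := by
      rw [hQ, Finset.sum_sub_distrib, Finset.sum_sub_distrib, Finset.sum_comm]
      congr 1
      · rw [Finset.sum_const, card_range, nsmul_eq_mul, ← Finset.sum_filter]
        have e4 : (prs r).filter (fun x => x ∈ S) = S := by
          ext x
          rw [mem_filter]
          exact ⟨fun h => h.2, fun h => ⟨hS h, h⟩⟩
        rw [e4, Finset.sum_const, nsmul_eq_mul, mul_comm]
    rw [e3]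
    refine (Finset.abs_sum_le_sum_abs _ _).trans ?_
    refine (Finset.sum_le_card_nsmul _ _ (23 * √p) fun x hx => ?_).trans ?_
    · obtain ⟨h5, h6⟩ := pair_mean (a := a x.1) (b := b x.1) (a' := a x.2) (b' := b x.2) hp hv h3
      split_ifs with hxS
      · exact (h6 (hs x hxS).1 (hs x hxS).2 (ha x.1)).trans (by linarith)
      · rw [sub_zero]
        exact h5 (hn x hx hxS)
    · rw [nsmul_eq_mul]
      have : ((prs r).card : ℝ) ≤ (r : ℝ) ^ 2 := by exact_mod_cast card_prs r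
      nlinarith
  have h5 : |∑ j ∈ range p, Ln j| ≤ 6 * (r : ℝ) * √p := by
    rw [hLn]
    unfold ln
    rw [Finset.sum_comm]
    refine (Finset.abs_sum_le_sum_abs _ _).trans ?_
    refine (Finset.sum_le_card_nsmul _ _ (6 * √p) fun i _ => lin_mean (a i) (b i) hp hv h3).trans ?_
    rw [nsmul_eq_mul, card_univ, Fintype.card_fin]
    linarith
  have h6 : |∑ j ∈ B, Q j| ≤ 10 * (r : ℝ) ^ 3 := by
    refine (Finset.abs_sum_le_sum_abs _ _).trans ?_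
    refine (Finset.sum_le_card_nsmul _ _ (5 * (r : ℝ) ^ 2) fun j _ => hQb j).trans ?_
    rw [nsmul_eq_mul]
    nlinarith [pow_nonneg hr 2]
  have h7 : |∑ j ∈ B, Ln j| ≤ 4 * (r : ℝ) ^ 2 := by
    refine (Finset.abs_sum_le_sum_abs _ _).trans ?_
    refine (Finset.sum_le_card_nsmul _ _ (2 * (r : ℝ)) fun j _ => hLb j).trans ?_
    rw [nsmul_eq_mul]
    nlinarith
  unfold mu
  rw [norm_div, Complex.norm_natCast, div_le_iff₀ hp0, e1]
  refine (norm_add_le _ _).trans ?_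
  rw [norm_mul, norm_mul, Complex.norm_real, Complex.norm_real]
  have h8 : ‖∑ j ∈ range p, Q j - ∑ j ∈ B, Q j‖ ≤ 23 * (r : ℝ) ^ 2 * √p + 10 * (r : ℝ) ^ 3 :=
    (abs_sub _ _).trans (add_le_add h4 h6)
  have h9 : ‖∑ j ∈ range p, Ln j - ∑ j ∈ B, Ln j‖ ≤ 6 * (r : ℝ) * √p + 4 * (r : ℝ) ^ 2 :=
    (abs_sub _ _).trans (add_le_add h5 h7)
  have h10 := mul_le_mul h8 (norm_sum_γ hγ v) (norm_nonneg _) (by positivity)
  have h11 := mul_le_mul h9 (norm_sum_γ hγ' v) (norm_nonneg _) (by positivity)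
  refine (add_le_add h10 h11).trans ?_
  rw [← add_mul]
  have e5 : (p : ℝ) ^ (-(1 / 2) : ℝ) * p = √p := by
    rw [Real.rpow_neg hp0.le, ← Real.sqrt_eq_rpow, inv_mul_eq_div, Real.div_sqrt]
  have e6 : CC r N * (p : ℝ) ^ (-(1 / 2) : ℝ) * p = (43 * ((r : ℝ) + 1) ^ 3 * √p) * N := by
    rw [mul_assoc, e5]; unfold CC; ring
  rw [e6]
  refine mul_le_mul_of_nonneg_right ?_ hN
  have h12 : 10 * (r : ℝ) ^ 3 ≤ 10 * (r : ℝ) ^ 3 * √p := le_mul_of_one_le_right (by positivity) hsq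
  have h13 : 4 * (r : ℝ) ^ 2 ≤ 4 * (r : ℝ) ^ 2 * √p := le_mul_of_one_le_right (by positivity) hsq
  have h14 : (23 * (r : ℝ) ^ 2 + 10 * (r : ℝ) ^ 3 + 6 * r + 4 * (r : ℝ) ^ 2) ≤ 43 * ((r : ℝ) + 1) ^ 3 := by
    nlinarith [pow_nonneg hr 2, pow_nonneg hr 3]
  have h15 := mul_le_mul_of_nonneg_right h14 (by linarith : (0 : ℝ) ≤ √p)
  linarith

/-- **The mean value of the coefficients.** -/
theorem mean_cg' {a b : Fin r → 𝓞 F} {γ₀ γ₁ γ₂ : HeightOneSpectrum (𝓞 F) → Fin N → ℂ}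
    (h₀ : ∀ w j, ‖γ₀ w j‖ ≤ 1) (h₁ : ∀ w j, ‖γ₁ w j‖ ≤ 1) (h₂ : ∀ w j, ‖γ₂ w j‖ ≤ 1)
    {S : Finset (Fin r × Fin r)}
    (hS : S ⊆ prs r) {v : HeightOneSpectrum (𝓞 F)} {p : ℕ} (hp : p.Prime) (hv : nm v = p) (h3 : 3 < p)
    (ha : ∀ i, a i ∉ v.asIdeal) (hs : ∀ x ∈ S, a x.1 ^ 3 - a x.2 ^ 3 ∈ v.asIdeal ∧ b x.1 - b x.2 ∈ v.asIdeal)
    (hn : ∀ x ∈ prs r, x ∉ S → ¬ (a x.1 ^ 3 - a x.2 ^ 3 ∈ v.asIdeal ∧ b x.1 - b x.2 ∈ v.asIdeal)) :
    ‖mu (fun j => cg a (fun i => b i + ((j : ℕ) : 𝓞 F)) γ₀ γ₁ γ₂ v) p - hh (r + S.card) γ₀ γ₂ v‖ ≤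
      CD r N * (p : ℝ) ^ (-(1 / 2) : ℝ) := by
  classical
  have hr : (0 : ℝ) ≤ r := Nat.cast_nonneg r
  have hN : (0 : ℝ) ≤ N := Nat.cast_nonneg N
  have hp0 : (0 : ℝ) < p := by exact_mod_cast hp.pos
  have hp1 : (1 : ℝ) ≤ p := by exact_mod_cast hp.one_lt.le
  have hpc : (p : ℂ) ≠ 0 := by exact_mod_cast hp.ne_zero
  have hε : r + S.card ≤ r + r ^ 2 := Nat.add_le_add_left ((card_le_card hS).trans (card_prs r)) _
  have hB := card_notGA a b hp hv h3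
  obtain ⟨B, hBd⟩ : ∃ B : Finset ℕ, B = (range p).filter
    (fun j : ℕ => ¬ GA a (fun i => b i + ((j : ℕ) : 𝓞 F)) v) := ⟨_, rfl⟩
  rw [← hBd] at hB
  have e0 : ∀ j : ℕ, cg a (fun i => b i + ((j : ℕ) : 𝓞 F)) γ₀ γ₁ γ₂ v =
      cf S.card a (fun i => b i + ((j : ℕ) : 𝓞 F)) γ₀ γ₁ v + hh (r + S.card) γ₀ γ₂ v -
      if ¬ GA a (fun i => b i + ((j : ℕ) : 𝓞 F)) v then hh (r + S.card) γ₀ γ₂ v else 0 := by
    intro j
    unfold cg cf hh
    by_cases h : GA a (fun i => b i + ((j : ℕ) : 𝓞 F)) v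
    · rw [if_pos h, if_pos h, if_neg (not_not.2 h)]
      push_cast
      ring
    · rw [if_neg h, if_neg h, if_pos h]
      ring
  have e1 : ∑ j ∈ range p, cg a (fun i => b i + ((j : ℕ) : 𝓞 F)) γ₀ γ₁ γ₂ v =
      ∑ j ∈ range p, cf S.card a (fun i => b i + ((j : ℕ) : 𝓞 F)) γ₀ γ₁ v +
        p * hh (r + S.card) γ₀ γ₂ v - B.card * hh (r + S.card) γ₀ γ₂ v := by
    rw [Finset.sum_congr rfl fun j _ => e0 j, Finset.sum_sub_distrib, Finset.sum_add_distrib,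
      Finset.sum_const, card_range, nsmul_eq_mul, ← Finset.sum_filter, ← hBd, Finset.sum_const,
      nsmul_eq_mul]
  have e2 : mu (fun j => cg a (fun i => b i + ((j : ℕ) : 𝓞 F)) γ₀ γ₁ γ₂ v) p -
      hh (r + S.card) γ₀ γ₂ v =
      mu (fun j => cf S.card a (fun i => b i + ((j : ℕ) : 𝓞 F)) γ₀ γ₁ v) p -
        (B.card : ℂ) / p * hh (r + S.card) γ₀ γ₂ v := by
    unfold mu
    rw [e1]
    field_simp
    ring
  rw [e2]
  refine (norm_sub_le _ _).trans ?_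
  have h5 := mean_cf' h₀ h₁ hS hp hv h3 ha hs hn
  have h6 : ‖(B.card : ℂ) / p * hh (r + S.card) γ₀ γ₂ v‖ ≤
      2 * ((r : ℝ) + 1) ^ 3 * N * (p : ℝ) ^ (-(1 / 2) : ℝ) := by
    rw [norm_mul, norm_div, Complex.norm_natCast, Complex.norm_natCast]
    have h7 : (B.card : ℝ) / p ≤ 2 * r * (p : ℝ) ^ (-(1 / 2) : ℝ) := by
      rw [div_eq_mul_inv]
      refine mul_le_mul hB ?_ (by positivity) (by positivity)
      rw [← Real.rpow_neg_one]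
      exact Real.rpow_le_rpow_of_exponent_le hp1 (by norm_num)
    refine (mul_le_mul h7 (hh_le hε h₀ h₂ v) (norm_nonneg _) (by positivity)).trans ?_
    have e3 : 2 * (r : ℝ) * (p : ℝ) ^ (-(1 / 2) : ℝ) * (((r : ℝ) + (r : ℝ) ^ 2 + 1) * N) =
        (2 * (r : ℝ) * ((r : ℝ) + (r : ℝ) ^ 2 + 1)) * (N * (p : ℝ) ^ (-(1 / 2) : ℝ)) := by ring
    rw [e3, mul_assoc (2 * ((r : ℝ) + 1) ^ 3)]
    refine mul_le_mul_of_nonneg_right ?_ (by positivity)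
    nlinarith [pow_nonneg hr 2, pow_nonneg hr 3]
  refine (add_le_add h5 h6).trans (le_of_eq ?_)
  unfold CC CD
  ring

end two

end Pool.Agent.Y693.TP
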