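import Pool.Agent.Y693.RF.Mean
import Pool.Agent.H341R2.Stepanov

/-!
# Mean values of the products of two traces of Frobenius in the pencils `y² = x³ + a x + b + r`
-/

set_option autoImplicit false

open Finset Polynomial

namespace Pool.Agent.Y693.TP

open Pool.Agent.Y693.RF (abs_char_le)

variable {k : Type*} [Field k] [Fintype k] [DecidableEq k]

/-- the number of the coincidences -/
def NN (a b a' b' : k) : ℤ :=
  ∑ x : k, ∑ y : k, if x ^ 3 + a * x + b = y ^ 3 + a' * y + b' then 1 else 0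

lemma sum_two (hk : ringChar k ≠ 2) (A B : k) :
    ∑ r : k, quadraticChar k (A + r) * quadraticChar k (B + r) =
      if A = B then (Fintype.card k : ℤ) - 1 else -1 := by
  have h1 : ∀ r : k, quadraticChar k (A + r) * quadraticChar k (B + r) =
      quadraticChar k (1 * r ^ 2 + (A + B) * r + A * B) := by
    intro r
    rw [← map_mul]
    congr 1
    ring
  simp_rw [h1]
  rw [W165.CE.sum_quad hk _ _ _ one_ne_zero, map_one, one_mul]
  have h2 : (A + B) ^ 2 - 4 * 1 * (A * B) = (A - B) ^ 2 := by ring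
  rw [h2]
  by_cases h : A = B
  · rw [if_pos h, if_pos (by rw [h]; ring)]
  · rw [if_neg h, if_neg]
    exact pow_ne_zero _ (sub_ne_zero.2 h)

/-- the second moment and the number of the coincidences -/
theorem sum_SS (hk : ringChar k ≠ 2) (a b a' b' : k) :
    ∑ r : k, (∑ x : k, quadraticChar k (x ^ 3 + a * x + (b + r))) *
      (∑ y : k, quadraticChar k (y ^ 3 + a' * y + (b' + r))) =
      Fintype.card k * NN a b a' b' - (Fintype.card k : ℤ) ^ 2 := by
  have h1 : ∀ r : k, (∑ x : k, quadraticChar k (x ^ 3 + a * x + (b + r))) *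
      (∑ y : k, quadraticChar k (y ^ 3 + a' * y + (b' + r))) =
      ∑ x : k, ∑ y : k, quadraticChar k ((x ^ 3 + a * x + b) + r) *
        quadraticChar k ((y ^ 3 + a' * y + b') + r) := by
    intro r
    rw [Finset.sum_mul_sum]
    refine Finset.sum_congr rfl fun x _ => Finset.sum_congr rfl fun y _ => ?_
    rw [show x ^ 3 + a * x + (b + r) = (x ^ 3 + a * x + b) + r by ring,
      show y ^ 3 + a' * y + (b' + r) = (y ^ 3 + a' * y + b') + r by ring]
  simp_rw [h1]
  rw [Finset.sum_comm]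
  have h2 : ∀ x : k, ∑ r : k, ∑ y : k, quadraticChar k ((x ^ 3 + a * x + b) + r) *
        quadraticChar k ((y ^ 3 + a' * y + b') + r) =
      ∑ y : k, ((Fintype.card k : ℤ) * (if x ^ 3 + a * x + b = y ^ 3 + a' * y + b' then 1 else 0) - 1) := by
    intro x
    rw [Finset.sum_comm]
    refine Finset.sum_congr rfl fun y _ => ?_
    rw [sum_two hk]
    split_ifs <;> ring
  simp_rw [h2, Finset.sum_sub_distrib, ← Finset.mul_sum]
  unfold NN
  simp only [Finset.sum_const, card_univ, nsmul_eq_mul, mul_one]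
  ring

/-- the equation in the coordinates `x - y`, `x + y` -/
lemma NN_eq (hk : ringChar k ≠ 2) (a b a' b' : k) : NN a b a' b' =
    ∑ u : k, ∑ v : k, if 3 * u * v ^ 2 + 2 * (a - a') * v +
      (u ^ 3 + 2 * (a + a') * u + 4 * (b - b')) = 0 then 1 else 0 := by
  have h2 : (2 : k) ≠ 0 := Ring.two_ne_zero hk
  unfold NN
  rw [← Finset.sum_product', ← Finset.sum_product']
  refine Finset.sum_bij' (fun P _ => (P.1 - P.2, P.1 + P.2))
    (fun Q _ => ((Q.2 + Q.1) / 2, (Q.2 - Q.1) / 2)) ?_ ?_ ?_ ?_ ?_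
  · intro P _; simp
  · intro P _; simp
  · intro P _
    ext
    · field_simp; ring
    · field_simp; ring
  · intro P _
    ext
    · field_simp; ring
    · field_simp; ring
  · intro P _
    have e : 3 * (P.1 - P.2) * (P.1 + P.2) ^ 2 + 2 * (a - a') * (P.1 + P.2) +
        ((P.1 - P.2) ^ 3 + 2 * (a + a') * (P.1 - P.2) + 4 * (b - b')) =
        4 * ((P.1 ^ 3 + a * P.1 + b) - (P.2 ^ 3 + a' * P.2 + b')) := by ring
    have h4 : (4 : k) ≠ 0 := by
      have : (4 : k) = 2 ^ 2 := by norm_num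
      rw [this]; exact pow_ne_zero _ h2
    simp only [e, mul_eq_zero, h4, false_or, sub_eq_zero]

/-- the number of the roots of a quadratic equation -/
lemma count_quad (hk : ringChar k ≠ 2) {A : k} (hA : A ≠ 0) (B Cc : k) :
    (∑ v : k, if A * v ^ 2 + B * v + Cc = 0 then (1 : ℤ) else 0) =
      1 + quadraticChar k (B ^ 2 - 4 * A * Cc) := by
  have h2 : (2 : k) ≠ 0 := Ring.two_ne_zero hk
  have h1 := quadraticChar_card_sqrts hk (B ^ 2 - 4 * A * Cc)
  rw [add_comm, ← h1, Set.toFinset_card]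
  rw [Finset.sum_boole]
  have h3 : (#{v : k | A * v ^ 2 + B * v + Cc = 0}) =
      Fintype.card ↑{x : k | x ^ 2 = B ^ 2 - 4 * A * Cc} := by
    rw [← Set.toFinset_card]
    refine Finset.card_bij' (fun v _ => 2 * A * v + B) (fun s _ => (s - B) / (2 * A)) ?_ ?_ ?_ ?_
    · intro v hv
      rw [mem_filter] at hv
      rw [Set.mem_toFinset]
      show (2 * A * v + B) ^ 2 = B ^ 2 - 4 * A * Cc
      linear_combination 4 * A * hv.2
    · intro s hs
      rw [Set.mem_toFinset] at hs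
      have hs' : s ^ 2 = B ^ 2 - 4 * A * Cc := hs
      rw [mem_filter]
      refine ⟨mem_univ _, ?_⟩
      have h5 : 4 * A * (A * ((s - B) / (2 * A)) ^ 2 + B * ((s - B) / (2 * A)) + Cc) = 0 := by
        field_simp
        linear_combination 4 * hs'
      have h6 : 4 * A ≠ 0 := by
        have : (4 : k) = 2 ^ 2 := by norm_num
        rw [this]; exact mul_ne_zero (pow_ne_zero _ h2) hA
      exact (mul_eq_zero.1 h5).resolve_left h6
    · intro v _; field_simp; ring
    · intro s _; field_simp; ring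
  rw [h3]

/-- the polynomial of the discriminants -/
noncomputable def DD (a b a' b' : k) : k[X] :=
  C (-3) * X ^ 4 + C 0 * X ^ 3 + C (-6 * (a + a')) * X ^ 2 + C (-12 * (b - b')) * X + C ((a - a') ^ 2)

omit [Fintype k] [DecidableEq k] in
lemma DD_eval (a b a' b' u : k) : (DD a b a' b').eval u =
    (a - a') ^ 2 - 3 * u * (u ^ 3 + 2 * (a + a') * u + 4 * (b - b')) := by
  unfold DD
  simp only [eval_add, eval_mul, eval_C, eval_pow, eval_X]
  ring

lemma NN_sum (hk : ringChar k ≠ 2) (h3 : (3 : k) ≠ 0) (a b a' b' : k) : NN a b a' b' =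
    (∑ v : k, if 2 * (a - a') * v + 4 * (b - b') = 0 then 1 else 0) + (Fintype.card k - 1) +
      (∑ u : k, quadraticChar k ((DD a b a' b').eval u)) - quadraticChar k ((a - a') ^ 2) := by
  classical
  rw [NN_eq hk]
  have h2 : (2 : k) ≠ 0 := Ring.two_ne_zero hk
  have h1 : ∀ u : k, (∑ v : k, if 3 * u * v ^ 2 + 2 * (a - a') * v +
      (u ^ 3 + 2 * (a + a') * u + 4 * (b - b')) = 0 then (1 : ℤ) else 0) =
      (1 + quadraticChar k ((DD a b a' b').eval u)) + if u = 0 then
        ((∑ v : k, if 2 * (a - a') * v + 4 * (b - b') = 0 then 1 else 0) - 1 -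
          quadraticChar k ((a - a') ^ 2)) else 0 := by
    intro u
    by_cases hu : u = 0
    · rw [if_pos hu, DD_eval, hu]
      have e : ∀ v : k, (3 * (0 : k) * v ^ 2 + 2 * (a - a') * v +
        ((0 : k) ^ 3 + 2 * (a + a') * 0 + 4 * (b - b')) = 0) ↔ (2 * (a - a') * v + 4 * (b - b') = 0) := by
        intro v
        constructor <;> intro h <;> linear_combination h
      simp only [e]
      have e2 : (a - a') ^ 2 - 3 * 0 * ((0 : k) ^ 3 + 2 * (a + a') * 0 + 4 * (b - b')) = (a - a') ^ 2 := by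
        ring
      rw [e2]
      ring
    · rw [if_neg hu, add_zero, count_quad hk (mul_ne_zero h3 hu), DD_eval]
      have e : (2 * (a - a')) ^ 2 - 4 * (3 * u) * (u ^ 3 + 2 * (a + a') * u + 4 * (b - b')) =
        2 ^ 2 * ((a - a') ^ 2 - 3 * u * (u ^ 3 + 2 * (a + a') * u + 4 * (b - b'))) := by ring
      rw [e, map_mul, quadraticChar_sq_one' h2, one_mul]
  simp_rw [h1]
  rw [Finset.sum_add_distrib, Finset.sum_add_distrib, Finset.sum_ite_eq' univ (0 : k)]
  simp only [mem_univ, if_true, Finset.sum_const, card_univ, nsmul_eq_mul, mul_one]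
  ring

omit [Fintype k] [DecidableEq k] in
lemma co (e4 e3 e2 e1 e0 : k) :
    (C e4 * X ^ 4 + C e3 * X ^ 3 + C e2 * X ^ 2 + C e1 * X + C e0 : k[X]).coeff 4 = e4 ∧
    (C e4 * X ^ 4 + C e3 * X ^ 3 + C e2 * X ^ 2 + C e1 * X + C e0 : k[X]).coeff 3 = e3 ∧
    (C e4 * X ^ 4 + C e3 * X ^ 3 + C e2 * X ^ 2 + C e1 * X + C e0 : k[X]).coeff 2 = e2 ∧
    (C e4 * X ^ 4 + C e3 * X ^ 3 + C e2 * X ^ 2 + C e1 * X + C e0 : k[X]).coeff 1 = e1 ∧
    (C e4 * X ^ 4 + C e3 * X ^ 3 + C e2 * X ^ 2 + C e1 * X + C e0 : k[X]).coeff 0 = e0 := by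
  refine ⟨?_, ?_, ?_, ?_, ?_⟩ <;> simp [coeff_X, coeff_C, coeff_X_pow]

omit [Fintype k] [DecidableEq k] in
/-- the polynomial is not a constant times a square -/
lemma DD_ns (h2 : (2 : k) ≠ 0) (h3 : (3 : k) ≠ 0) {a b a' b' : k} (h : ¬ (a ^ 3 = a' ^ 3 ∧ b = b'))
    (c : k) (g : k[X]) : DD a b a' b' ≠ C c * g ^ 2 := by
  intro he
  obtain ⟨f4, f3, f2, f1, f0⟩ := co (-3 : k) 0 (-6 * (a + a')) (-12 * (b - b')) ((a - a') ^ 2)
  have h4 : (4 : k) ≠ 0 := by
    have : (4 : k) = 2 ^ 2 := by norm_num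
    rw [this]; exact pow_ne_zero _ h2
  have hn3 : (-3 : k) ≠ 0 := neg_ne_zero.2 h3
  have hDne : DD a b a' b' ≠ 0 := by
    intro h0
    have : (DD a b a' b').coeff 4 = -3 := f4
    rw [h0, coeff_zero] at this
    exact hn3 this.symm
  have hdeg : (DD a b a' b').natDegree = 4 := by
    refine le_antisymm ?_ ?_
    · unfold DD; compute_degree
    · refine le_natDegree_of_ne_zero ?_
      have : (DD a b a' b').coeff 4 = -3 := f4
      rw [this]; exact hn3
  have hc : c ≠ 0 := by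
    intro h0
    apply hDne
    rw [he, h0, C_0, zero_mul]
  have hg : g.natDegree = 2 := by
    rw [he, natDegree_C_mul hc, natDegree_pow] at hdeg
    omega
  obtain ⟨g2, hg2⟩ : ∃ x, x = g.coeff 2 := ⟨_, rfl⟩
  obtain ⟨g1, hg1⟩ : ∃ x, x = g.coeff 1 := ⟨_, rfl⟩
  obtain ⟨g0, hg0⟩ : ∃ x, x = g.coeff 0 := ⟨_, rfl⟩
  have hge : g = C g2 * X ^ 2 + C g1 * X + C g0 := by
    rw [hg2, hg1, hg0]
    refine eq_quadratic_of_degree_le_two ?_
    exact natDegree_le_iff_degree_le.1 hg.le
  have hexp : DD a b a' b' = C (c * g2 ^ 2) * X ^ 4 + C (2 * c * g2 * g1) * X ^ 3 +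
      C (c * (2 * g2 * g0 + g1 ^ 2)) * X ^ 2 + C (2 * c * g1 * g0) * X + C (c * g0 ^ 2) := by
    rw [he, hge]
    simp only [C_mul, C_pow, C_add]
    have : (C (2 : k) : k[X]) = 2 := rfl
    rw [this]
    ring
  obtain ⟨i4, i3, i2, i1, i0⟩ := co (c * g2 ^ 2) (2 * c * g2 * g1) (c * (2 * g2 * g0 + g1 ^ 2))
    (2 * c * g1 * g0) (c * g0 ^ 2)
  rw [← hexp] at i4 i3 i2 i1 i0
  have j4 : c * g2 ^ 2 = -3 := i4.symm.trans f4
  have j3 : 2 * c * g2 * g1 = 0 := i3.symm.trans f3
  have j2 : c * (2 * g2 * g0 + g1 ^ 2) = -6 * (a + a') := i2.symm.trans f2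
  have j1 : 2 * c * g1 * g0 = -12 * (b - b') := i1.symm.trans f1
  have j0 : c * g0 ^ 2 = (a - a') ^ 2 := i0.symm.trans f0
  have hg2' : g2 ≠ 0 := by
    intro h0
    rw [h0] at j4
    apply hn3
    rw [← j4]; ring
  have hg1' : g1 = 0 := by
    have : 2 * c * g2 ≠ 0 := mul_ne_zero (mul_ne_zero h2 hc) hg2'
    exact (mul_eq_zero.1 j3).resolve_left this
  have hb : b = b' := by
    rw [hg1', mul_zero, zero_mul] at j1
    have h12 : (-12 : k) ≠ 0 := by
      have : (-12 : k) = -(4 * 3) := by norm_num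
      rw [this]; exact neg_ne_zero.2 (mul_ne_zero h4 h3)
    exact sub_eq_zero.1 ((mul_eq_zero.1 j1.symm).resolve_left h12)
  have hq : a ^ 2 + a * a' + a' ^ 2 = 0 := by
    rw [hg1'] at j2
    have e1 : (4 * 3 * 4) * (a ^ 2 + a * a' + a' ^ 2) = 0 := by
      linear_combination (-(c * (2 * g2 * g0)) + 6 * (a + a')) * j2 + 4 * c * g0 ^ 2 * j4 - 12 * j0
    have h48 : (4 * 3 * 4 : k) ≠ 0 := mul_ne_zero (mul_ne_zero h4 h3) h4
    exact (mul_eq_zero.1 e1).resolve_left h48
  apply h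
  refine ⟨?_, hb⟩
  linear_combination (a - a') * hq

omit [DecidableEq k] in
lemma sqrt_card : (1 : ℝ) ≤ √(Fintype.card k : ℝ) := by
  rw [Real.one_le_sqrt]
  exact_mod_cast Fintype.card_pos

lemma abs_char_real (x : k) : |((quadraticChar k x : ℤ) : ℝ)| ≤ 1 := by
  exact_mod_cast abs_char_le x

omit [DecidableEq k] in
lemma lin_le [DecidableEq k] {A B : k} (h : ¬ (A = 0 ∧ B = 0)) :
    |(((∑ v : k, if A * v + B = 0 then 1 else 0 : ℤ)) : ℝ)| ≤ 1 := by
  rw [Finset.sum_boole]
  have := Pool.Agent.Y693.RF.card_lin h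
  rw [Int.cast_natCast, abs_of_nonneg (Nat.cast_nonneg _)]
  exact_mod_cast this

/-- **Different curves.** -/
theorem NN_ne (hk : ringChar k ≠ 2) (h3 : (3 : k) ≠ 0) {a b a' b' : k} (h : ¬ (a ^ 3 = a' ^ 3 ∧ b = b')) :
    |(NN a b a' b' : ℝ) - Fintype.card k| ≤ 23 * √(Fintype.card k : ℝ) := by
  have h2 : (2 : k) ≠ 0 := Ring.two_ne_zero hk
  have h4 : (4 : k) ≠ 0 := by
    have : (4 : k) = 2 ^ 2 := by norm_num
    rw [this]; exact pow_ne_zero _ h2
  have hdeg : (DD a b a' b').natDegree = 4 := by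
    refine le_antisymm ?_ ?_
    · unfold DD; compute_degree
    · refine le_natDegree_of_ne_zero ?_
      have : (DD a b a' b').coeff 4 = -3 := (co _ _ _ _ _).1
      rw [this]; exact neg_ne_zero.2 h3
  have h1 := Pool.Agent.H341R2.weil_bound hk (DD a b a' b') (by omega) (DD_ns h2 h3 h)
  rw [hdeg] at h1
  have h5 : |(((∑ v : k, if 2 * (a - a') * v + 4 * (b - b') = 0 then 1 else 0 : ℤ)) : ℝ)| ≤ 1 := by
    refine lin_le fun h' => h ?_
    have e1 : a - a' = 0 := (mul_eq_zero.1 h'.1).resolve_left h2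
    have e2 : b - b' = 0 := (mul_eq_zero.1 h'.2).resolve_left h4
    rw [sub_eq_zero] at e1 e2
    rw [e1, e2]
    exact ⟨rfl, rfl⟩
  have h6 := abs_char_real ((a - a') ^ 2)
  have h7 := sqrt_card (k := k)
  rw [NN_sum hk h3]
  push_cast at h1 h5 h6 ⊢
  rw [abs_le] at h1 h5 h6 ⊢
  constructor <;> linarith [h1.1, h1.2, h5.1, h5.2, h6.1, h6.2]

/-- **Equal curves.** -/
theorem NN_same (hk : ringChar k ≠ 2) (h3 : (3 : k) ≠ 0) {a a' b : k} (ha : a ≠ 0) (h : a ^ 3 = a' ^ 3) :
    |(NN a b a' b : ℝ) - 2 * Fintype.card k| ≤ 12 * √(Fintype.card k : ℝ) := by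
  have h2 : (2 : k) ≠ 0 := Ring.two_ne_zero hk
  have h4 : (4 : k) ≠ 0 := by
    have : (4 : k) = 2 ^ 2 := by norm_num
    rw [this]; exact pow_ne_zero _ h2
  have h7 := sqrt_card (k := k)
  have key : |(NN a b a' b : ℝ) - 2 * Fintype.card k| ≤ 12 := by
    rw [NN_sum hk h3]
    by_cases haa : a = a'
    · have e1 : (∑ v : k, if 2 * (a - a') * v + 4 * (b - b) = 0 then (1 : ℤ) else 0) =
          Fintype.card k := by
        have : ∀ v : k, 2 * (a - a') * v + 4 * (b - b) = 0 := by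
          intro v; rw [haa]; ring
        simp only [this, if_true, Finset.sum_const, card_univ, nsmul_eq_mul, mul_one]
      have e2 : ∑ u : k, quadraticChar k ((DD a b a' b).eval u) =
          ∑ u : k, quadraticChar k ((-3) * u ^ 2 + 0 * u + (-12 * a)) - quadraticChar k (-12 * a) := by
        rw [← Finset.add_sum_erase univ _ (mem_univ (0 : k)),
          ← Finset.add_sum_erase univ (fun u : k => quadraticChar k ((-3) * u ^ 2 + 0 * u + (-12 * a)))
            (mem_univ (0 : k))]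
        have e3 : (DD a b a' b).eval 0 = 0 := by rw [DD_eval, haa]; ring
        have e4 : (-3 : k) * 0 ^ 2 + 0 * 0 + (-12 * a) = -12 * a := by ring
        rw [e3, e4, quadraticChar_zero, zero_add, add_sub_cancel_left]
        refine Finset.sum_congr rfl fun u hu => ?_
        have hu0 : u ≠ 0 := (Finset.mem_erase.1 hu).1
        have e5 : (DD a b a' b).eval u = u ^ 2 * ((-3) * u ^ 2 + 0 * u + (-12 * a)) := by
          rw [DD_eval, haa]; ring
        rw [e5, map_mul, quadraticChar_sq_one' hu0, one_mul]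
      have e6 : ∑ u : k, quadraticChar k ((-3) * u ^ 2 + 0 * u + (-12 * a)) = -quadraticChar k (-3) := by
        rw [W165.CE.sum_quad hk _ _ _ (neg_ne_zero.2 h3), if_neg, mul_neg, mul_one]
        have e7 : (0 : k) ^ 2 - 4 * (-3) * (-12 * a) = -(4 * 3 * 4 * 3 * a) := by ring
        rw [e7]
        exact neg_ne_zero.2 (mul_ne_zero (mul_ne_zero (mul_ne_zero (mul_ne_zero h4 h3) h4) h3) ha)
      have e8 : (a - a') ^ 2 = 0 := by rw [haa]; ring
      rw [e1, e2, e6, e8, quadraticChar_zero]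
      have e9 := abs_char_real (-3 : k)
      have e10 := abs_char_real (-12 * a)
      push_cast
      rw [abs_le] at e9 e10 ⊢
      constructor <;> linarith [e9.1, e9.2, e10.1, e10.2]
    · have hq : a ^ 2 + a * a' + a' ^ 2 = 0 := by
        have : (a - a') * (a ^ 2 + a * a' + a' ^ 2) = 0 := by linear_combination h
        exact (mul_eq_zero.1 this).resolve_left (sub_ne_zero.2 haa)
      have hs : a + a' ≠ 0 := by
        intro h0
        apply haa
        have h5 : (a - a') ^ 2 = 0 := by linear_combination (4 : k) * hq - 3 * (a + a') * h0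
        exact sub_eq_zero.1 (pow_eq_zero_iff (two_ne_zero) |>.1 h5)
      have e1 : |(((∑ v : k, if 2 * (a - a') * v + 4 * (b - b) = 0 then 1 else 0 : ℤ)) : ℝ)| ≤ 1 :=
        lin_le fun h' => (mul_ne_zero h2 (sub_ne_zero.2 haa)) h'.1
      have e2 : ∀ u : k, quadraticChar k ((DD a b a' b).eval u) =
          1 - if 1 * u ^ 2 + 0 * u + (a + a') = 0 then 1 else 0 := by
        intro u
        have e3 : (DD a b a' b).eval u = ((a - a') / (a + a') * (1 * u ^ 2 + 0 * u + (a + a'))) ^ 2 := by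
          rw [DD_eval]
          field_simp
          linear_combination (-(4 : k)) * (u ^ 4 + 2 * (a + a') * u ^ 2) * hq
        rw [e3]
        split_ifs with h0
        · rw [h0, mul_zero, zero_pow (two_ne_zero), quadraticChar_zero, sub_self]
        · rw [sub_zero]
          refine quadraticChar_sq_one' (mul_ne_zero (div_ne_zero (sub_ne_zero.2 haa) hs) h0)
      have e4 : ∑ u : k, quadraticChar k ((DD a b a' b).eval u) =
          Fintype.card k - (1 + quadraticChar k ((0 : k) ^ 2 - 4 * 1 * (a + a'))) := by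
        simp_rw [e2]
        rw [Finset.sum_sub_distrib, count_quad hk one_ne_zero]
        simp only [Finset.sum_const, card_univ, nsmul_eq_mul, mul_one]
      rw [e4]
      have e9 := abs_char_real ((0 : k) ^ 2 - 4 * 1 * (a + a'))
      have e10 := abs_char_real ((a - a') ^ 2)
      push_cast at e1 e9 e10 ⊢
      rw [abs_le] at e1 e9 e10 ⊢
      constructor <;> linarith [e1.1, e1.2, e9.1, e9.2, e10.1, e10.2]
  linarith

end Pool.Agent.Y693.TP
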