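import Pool.Agent.Y693.TP.Pair

/-!
# Mean values of the products of the traces of two curves of a pencil, modulo a prime of degree one
-/

set_option autoImplicit false

open Finset NumberField IsDedekindDomain Polynomial Filter
open Pool.Agent.H921R2.TatePole (nm two_le_nm below deg nm_eq nm_summable fiber_card_le
  summable_primes_rpow card_above below_le_nm)
open Pool.Agent.Y770.EP (finite_quot card_quot FN mem_FN GG mem_GG FP mem_FP card_FP nm_mem Sys SP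
  PR mem_PR nm_pos' Good pts tv tv_congr GD tv_bad coprime_notMem)
open Pool.Agent.Y693.RF

namespace Pool.Agent.Y693.TP

variable {F : Type} [Field F] [NumberField F]

lemma char_ne_two {v : HeightOneSpectrum (𝓞 F)} {p : ℕ} (hp : p.Prime) (hv : nm v = p) (h3 : 3 < p) :
    ringChar (𝓞 F ⧸ v.asIdeal) ≠ 2 := by
  intro hc
  have h6 := six_notMem hp hv h3
  apply h6
  rw [← Ideal.Quotient.eq_zero_iff_mem]
  have h7 := ringChar.Nat.cast_ringChar (R := 𝓞 F ⧸ v.asIdeal)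
  rw [hc] at h7
  have h8 : (Ideal.Quotient.mk v.asIdeal) (6 : 𝓞 F) = ((2 : ℕ) : 𝓞 F ⧸ v.asIdeal) * 3 := by
    rw [map_ofNat]; norm_num
  rw [h8, h7, zero_mul]

lemma three_ne {v : HeightOneSpectrum (𝓞 F)} {p : ℕ} (hp : p.Prime) (hv : nm v = p) (h3 : 3 < p) :
    (3 : 𝓞 F ⧸ v.asIdeal) ≠ 0 := by
  intro hc
  apply six_notMem hp hv h3
  rw [← Ideal.Quotient.eq_zero_iff_mem]
  have h8 : (Ideal.Quotient.mk v.asIdeal) (6 : 𝓞 F) = 3 * (2 : 𝓞 F ⧸ v.asIdeal) := by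
    rw [map_ofNat]; norm_num
  rw [h8, hc, zero_mul]

/-- **The mean values of the products.** -/
theorem pair_mean {a b a' b' : 𝓞 F} {v : HeightOneSpectrum (𝓞 F)} {p : ℕ} (hp : p.Prime)
    (hv : nm v = p) (h3 : 3 < p) :
    (¬ (a ^ 3 - a' ^ 3 ∈ v.asIdeal ∧ b - b' ∈ v.asIdeal) →
      |∑ j ∈ range p, tv a (b + ((j : ℕ) : 𝓞 F)) v * tv a' (b' + ((j : ℕ) : 𝓞 F)) v| ≤ 23 * √p) ∧
    (a ^ 3 - a' ^ 3 ∈ v.asIdeal → b - b' ∈ v.asIdeal → a ∉ v.asIdeal →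
      |∑ j ∈ range p, tv a (b + ((j : ℕ) : 𝓞 F)) v * tv a' (b' + ((j : ℕ) : 𝓞 F)) v - p| ≤
        12 * √p) := by
  classical
  have : v.asIdeal.IsMaximal := v.isMaximal
  have hfin := finite_quot v
  have hchar := char_ne_two hp hv h3
  have hthree := three_ne hp hv h3
  let _ : Fintype (𝓞 F ⧸ v.asIdeal) := Fintype.ofFinite _
  have hcard : Fintype.card (𝓞 F ⧸ v.asIdeal) = p := by
    rw [← hv, ← card_quot, Nat.card_eq_fintype_card]
  let _ : Field (𝓞 F ⧸ v.asIdeal) := Ideal.Quotient.field v.asIdeal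
  set φ := Ideal.Quotient.mk v.asIdeal with hφ
  have hp0 : (0 : ℝ) < p := by exact_mod_cast hp.pos
  have hs : 0 < √(p : ℝ) := Real.sqrt_pos.2 hp0
  have hss : √(p : ℝ) * √(p : ℝ) = p := Real.mul_self_sqrt hp0.le
  have htv : ∀ (α β : 𝓞 F) (j : ℕ), tv α (β + ((j : ℕ) : 𝓞 F)) v =
      -((∑ x : 𝓞 F ⧸ v.asIdeal, quadraticChar (𝓞 F ⧸ v.asIdeal)
        (x ^ 3 + φ α * x + (φ β + φ ((j : ℕ) : 𝓞 F))) : ℤ) : ℝ) / √p := by
    intro α β j
    have hc := Pool.Agent.H82R3.EK.card_points hchar (fun x : 𝓞 F ⧸ v.asIdeal =>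
      x ^ 3 + φ α * x + φ (β + ((j : ℕ) : 𝓞 F)))
    have hc2 := congrArg (fun z : ℤ => (z : ℝ)) hc
    push_cast at hc2
    have e3 : ((pts α (β + ((j : ℕ) : 𝓞 F)) v : ℕ) : ℝ) =
        (Fintype.card (𝓞 F ⧸ v.asIdeal) : ℝ) + ∑ x : 𝓞 F ⧸ v.asIdeal,
          ((quadraticChar (𝓞 F ⧸ v.asIdeal) (x ^ 3 + φ α * x +
            φ (β + ((j : ℕ) : 𝓞 F))) : ℤ) : ℝ) := hc2
    unfold tv
    rw [e3, hcard, hv, map_add φ β]
    push_cast
    congr 1
    ring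
  obtain ⟨G, hG⟩ : ∃ G : 𝓞 F ⧸ v.asIdeal → ℝ, G = fun r : 𝓞 F ⧸ v.asIdeal =>
      (((∑ x : 𝓞 F ⧸ v.asIdeal, quadraticChar (𝓞 F ⧸ v.asIdeal) (x ^ 3 + φ a * x + (φ b + r))) *
        (∑ y : 𝓞 F ⧸ v.asIdeal, quadraticChar (𝓞 F ⧸ v.asIdeal) (y ^ 3 + φ a' * y + (φ b' + r))) :
          ℤ) : ℝ) / p := ⟨_, rfl⟩
  have hterm : ∀ j : ℕ, tv a (b + ((j : ℕ) : 𝓞 F)) v * tv a' (b' + ((j : ℕ) : 𝓞 F)) v =
      G (Ideal.Quotient.mk v.asIdeal ((j : ℕ) : 𝓞 F)) := by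
    intro j
    rw [hG, htv, htv, div_mul_div_comm, hss]
    push_cast
    congr 1
    ring
  have hsum : ∑ j ∈ range p, tv a (b + ((j : ℕ) : 𝓞 F)) v * tv a' (b' + ((j : ℕ) : 𝓞 F)) v =
      (NN (φ a) (φ b) (φ a') (φ b') : ℝ) - p := by
    rw [Finset.sum_congr rfl fun j _ => hterm j, sum_range_field hp hv G, hG, ← Finset.sum_div,
      ← Int.cast_sum, sum_SS hchar, hcard]
    push_cast
    field_simp
  rw [hsum]
  constructor
  · intro hne
    have h1 := NN_ne hchar hthree (a := φ a) (b := φ b) (a' := φ a') (b' := φ b') (by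
      rintro ⟨h4, h5⟩
      apply hne
      constructor
      · rw [← Ideal.Quotient.eq_zero_iff_mem, map_sub, map_pow, map_pow]
        exact sub_eq_zero.2 h4
      · exact Ideal.Quotient.eq.1 h5)
    rwa [hcard] at h1
  · intro h4 h5 h6
    have h7 : φ a ^ 3 = φ a' ^ 3 := by
      rw [← map_pow, ← map_pow]
      exact Ideal.Quotient.eq.2 h4
    have h8 : φ b' = φ b := (Ideal.Quotient.eq.2 h5).symm
    have h9 : φ a ≠ 0 := fun h => h6 (Ideal.Quotient.eq_zero_iff_mem.1 h)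
    have h1 := NN_same hchar hthree (b := φ b) h9 h7
    rw [h8]
    rw [hcard] at h1
    have e : (NN (φ a) (φ b) (φ a') (φ b) : ℝ) - p - p = NN (φ a) (φ b) (φ a') (φ b) - 2 * p := by ring
    rwa [e]

/-- all traces are small -/
lemma tv_two {a b : 𝓞 F} {v : HeightOneSpectrum (𝓞 F)} {p : ℕ} (hp : p.Prime) (hv : nm v = p)
    (h3 : 3 < p) : |tv a b v| ≤ 2 := by
  by_cases h : GD a b v
  · exact h.tv_le
  · refine (tv_bad (six_notMem hp hv h3) (not_not.1 h)).trans ?_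
    have h1 : 1 ≤ √(nm v : ℝ) := by
      rw [Real.one_le_sqrt]
      have := two_le_nm v
      exact_mod_cast (by omega : 1 ≤ nm v)
    rw [div_le_iff₀ (by linarith)]
    linarith

/-- at most two curves of the pencil have bad reduction -/
lemma card_bad_pencil (a b : 𝓞 F) {v : HeightOneSpectrum (𝓞 F)} {p : ℕ} (hp : p.Prime)
    (hv : nm v = p) (h3 : 3 < p) [DecidablePred fun j : ℕ => ¬ GD a (b + ((j : ℕ) : 𝓞 F)) v] :
    ((range p).filter (fun j : ℕ => ¬ GD a (b + ((j : ℕ) : 𝓞 F)) v)).card ≤ 2 := by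
  classical
  have : v.asIdeal.IsMaximal := v.isMaximal
  have hthree := three_ne hp hv h3
  let _ : Field (𝓞 F ⧸ v.asIdeal) := Ideal.Quotient.field v.asIdeal
  set φ := Ideal.Quotient.mk v.asIdeal with hφ
  have h27 : (27 : 𝓞 F ⧸ v.asIdeal) ≠ 0 := by
    have : (27 : 𝓞 F ⧸ v.asIdeal) = 3 ^ 3 := by norm_num
    rw [this]
    exact pow_ne_zero _ hthree
  obtain ⟨D, hD⟩ : ∃ D : (𝓞 F ⧸ v.asIdeal)[X], D = C 27 * X ^ 2 + C (4 * φ a ^ 3) := ⟨_, rfl⟩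
  have hdeg : D.natDegree ≤ 2 := by
    rw [hD]
    compute_degree
  have hc2 : D.coeff 2 = 27 := by
    rw [hD, coeff_add, coeff_C_mul, coeff_X_pow_self, mul_one, coeff_C_of_ne_zero (by norm_num), add_zero]
  have hne : D ≠ 0 := by
    intro h0
    rw [h0, coeff_zero] at hc2
    exact h27 hc2.symm
  have h1 : (((range p).filter (fun j : ℕ => ¬ GD a (b + ((j : ℕ) : 𝓞 F)) v)).image
      fun j : ℕ => φ (b + ((j : ℕ) : 𝓞 F))).card =
      ((range p).filter (fun j : ℕ => ¬ GD a (b + ((j : ℕ) : 𝓞 F)) v)).card := by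
    refine Finset.card_image_of_injOn fun i hi j hj hij => ?_
    rw [Finset.mem_coe, mem_filter] at hi hj
    refine nat_unique v hp hv hi.1 hj.1 ?_
    have h2 : φ (b + ((i : ℕ) : 𝓞 F)) = φ (b + ((j : ℕ) : 𝓞 F)) := hij
    have h4 := Ideal.Quotient.eq.1 h2
    have e : b + ((i : ℕ) : 𝓞 F) - (b + ((j : ℕ) : 𝓞 F)) = ((i : ℕ) : 𝓞 F) - ((j : ℕ) : 𝓞 F) := by ring
    rwa [e] at h4
  rw [← h1]
  refine (card_le_card (t := D.roots.toFinset) ?_).trans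
    ((Multiset.toFinset_card_le _).trans ((card_roots' _).trans hdeg))
  intro x hx
  obtain ⟨j, hj, rfl⟩ := mem_image.1 hx
  rw [mem_filter] at hj
  have h2 : 6 * (4 * a ^ 3 + 27 * (b + ((j : ℕ) : 𝓞 F)) ^ 2) ∈ v.asIdeal := not_not.1 hj.2
  have h4 : 4 * a ^ 3 + 27 * (b + ((j : ℕ) : 𝓞 F)) ^ 2 ∈ v.asIdeal :=
    (v.isPrime.mem_or_mem h2).resolve_left (six_notMem hp hv h3)
  rw [Multiset.mem_toFinset, mem_roots hne, IsRoot.def, hD]
  simp only [eval_add, eval_mul, eval_C, eval_pow, eval_X]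
  have h5 := Ideal.Quotient.eq_zero_iff_mem.2 h4
  rw [map_add, map_mul, map_mul, map_pow, map_pow, map_ofNat, map_ofNat] at h5
  rw [add_comm]
  exact h5

end Pool.Agent.Y693.TP
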